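import Pool.Agent.Y315.NL.Stm

set_option autoImplicit false

open MeasureTheory Set Filter Topology
open scoped ContDiff ENNReal

noncomputable section

namespace Pool.Agent.Y315.NL

/-- necessary second derivative condition at an interior maximum -/
theorem sec_max {w w1 w2 : ℝ → ℝ} (h1 : ∀ x, HasDerivAt w (w1 x) x)
    (h2 : ∀ x, HasDerivAt w1 (w2 x) x) {a b s : ℝ} (hs : s ∈ Ioo a b)
    (hmax : ∀ x ∈ Icc a b, w x ≤ w s) : w2 s ≤ 0 := by
  by_contra hneg
  push Not at hneg
  have hloc : IsLocalMax w s := by
    have : Icc a b ∈ 𝓝 s := Icc_mem_nhds hs.1 hs.2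
    exact Filter.mem_of_superset this (fun x hx => hmax x hx)
  have hz : w1 s = 0 := hloc.hasDerivAt_eq_zero (h1 s)
  -- w1 positive to the right of s
  have hev : ∀ᶠ x in 𝓝[>] s, 0 < w1 x := by
    have hsl := (hasDerivAt_iff_tendsto_slope.1 (h2 s))
    have h3 : ∀ᶠ x in 𝓝[≠] s, 0 < slope w1 s x := hsl.eventually (lt_mem_nhds hneg)
    have h4 : ∀ᶠ x in 𝓝[>] s, 0 < slope w1 s x :=
      h3.filter_mono (nhdsWithin_mono _ (fun x hx => ne_of_gt hx))
    filter_upwards [h4, self_mem_nhdsWithin] with x hx hx2
    rw [slope_def_field, hz, sub_zero] at hx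
    have : 0 < x - s := sub_pos.2 hx2
    exact (div_pos_iff_of_pos_right this).1 hx
  obtain ⟨u, hu, hsub⟩ := (mem_nhdsGT_iff_exists_Ioo_subset).1 hev
  have hu' : s < u := hu
  set v := min u b with hv
  have hsv : s < v := lt_min hu' hs.2
  have hmono : StrictMonoOn w (Icc s v) := by
    apply strictMonoOn_of_deriv_pos (convex_Icc s v)
    · exact fun x _ => (h1 x).continuousAt.continuousWithinAt
    · intro x hx
      rw [interior_Icc] at hx
      rw [(h1 x).deriv]
      exact hsub ⟨hx.1, lt_of_lt_of_le hx.2 (min_le_left _ _)⟩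
  have := hmono (left_mem_Icc.2 hsv.le) (right_mem_Icc.2 hsv.le) hsv
  have h5 := hmax v ⟨by linarith [hs.1], min_le_right _ _⟩
  linarith

theorem sec_min {w w1 w2 : ℝ → ℝ} (h1 : ∀ x, HasDerivAt w (w1 x) x)
    (h2 : ∀ x, HasDerivAt w1 (w2 x) x) {a b s : ℝ} (hs : s ∈ Ioo a b)
    (hmin : ∀ x ∈ Icc a b, w s ≤ w x) : 0 ≤ w2 s := by
  have := sec_max (w := fun x => - w x) (w1 := fun x => - w1 x) (w2 := fun x => - w2 x)
    (fun x => (h1 x).neg) (fun x => (h2 x).neg) hs (fun x hx => neg_le_neg (hmin x hx))
  linarith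

/-- the backward step, local form: a zero of `f` around a zero of `w` -/
theorem between {w w1 w2 V : ℝ → ℝ} {K : ℝ} (h1 : ∀ x, HasDerivAt w (w1 x) x)
    (h2 : ∀ x, HasDerivAt w1 (w2 x) x) (hw2 : Continuous w2) (hV : Continuous V)
    {s t s' : ℝ} (hK : ∀ x ∈ Icc s s', V x < K) (hst : s < t) (hts : t < s') (ht : w t = 0)
    (hs : 0 < w s * ((K - V s) * w s - w2 s)) (hs' : 0 < w s' * ((K - V s') * w s' - w2 s')) :
    ∃ z ∈ Ioo s s', (K - V z) * w z - w2 z = 0 := by
  -- reduce to w s > 0
  have hw : Continuous w := continuous_iff_continuousAt.2 (fun x => (h1 x).continuousAt)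
  set f : ℝ → ℝ := fun x => (K - V x) * w x - w2 x with hf
  have hfc : Continuous f := ((continuous_const.sub hV).mul hw).sub hw2
  change 0 < w s * f s at hs
  change 0 < w s' * f s' at hs'
  change ∃ z ∈ Ioo s s', f z = 0
  -- it suffices to find p ∈ (s, s'] with f s * f p ≤ 0
  have hss : s < s' := hst.trans hts
  have key : ∀ p, s < p → p ≤ s' → f s * f p ≤ 0 → ∃ z ∈ Ioo s s', f z = 0 := by
    intro p hp hp' hfp
    have hfs : f s ≠ 0 := by
      intro h
      rw [h] at hs
      simp at hs
    have hfs' : f s' ≠ 0 := by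
      intro h
      rw [h] at hs'
      simp at hs'
    have hivt : ∃ z ∈ Icc s p, f z = 0 := by
      rcases lt_or_gt_of_ne hfs with h | h
      · have hp0 : 0 ≤ f p := by
          by_contra hc
          push Not at hc
          have := mul_pos_of_neg_of_neg h hc
          linarith
        exact intermediate_value_Icc hp.le hfc.continuousOn ⟨h.le, hp0⟩
      · have hp0 : f p ≤ 0 := by
          by_contra hc
          push Not at hc
          have := mul_pos h hc
          linarith
        exact intermediate_value_Icc' hp.le hfc.continuousOn ⟨hp0, h.le⟩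
    obtain ⟨z, hz, hz0⟩ := hivt
    refine ⟨z, ⟨lt_of_le_of_ne hz.1 ?_, lt_of_le_of_ne (hz.2.trans hp') ?_⟩, hz0⟩
    · intro h
      rw [← h] at hz0
      exact hfs hz0
    · intro h
      rw [h] at hz0
      exact hfs' hz0
  rcases lt_or_ge (w s * w s') 0 with hsg | hsg
  · -- different signs
    apply key s' hss le_rfl
    have : 0 < (w s * f s) * (w s' * f s') := mul_pos hs hs'
    by_contra hc
    push Not at hc
    have h3 : (w s * f s) * (w s' * f s') = (w s * w s') * (f s * f s') := by ring
    rw [h3] at this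
    have := mul_neg_of_neg_of_pos hsg hc
    linarith
  · -- same signs
    have hws : w s ≠ 0 := by
      intro h
      rw [h] at hs
      simp at hs
    have hws' : w s' ≠ 0 := by
      intro h
      rw [h] at hs'
      simp at hs'
    rcases lt_or_gt_of_ne hws with hneg | hpos
    · -- both negative: a maximum of w
      have hneg' : w s' < 0 := by
        rcases lt_or_gt_of_ne hws' with h | h
        · exact h
        · have := mul_neg_of_neg_of_pos hneg h
          linarith
      obtain ⟨p, hp, hpm⟩ := isCompact_Icc.exists_isMaxOn ⟨t, ⟨hst.le, hts.le⟩⟩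
        (hw.continuousOn (s := Icc s s'))
      have hpt : 0 ≤ w p := by
        have := hpm (show t ∈ Icc s s' from ⟨hst.le, hts.le⟩)
        simpa [ht] using this
      have hps : s < p := by
        rcases eq_or_lt_of_le hp.1 with h | h
        · rw [← h] at hpt
          linarith
        · exact h
      have hps' : p < s' := by
        rcases eq_or_lt_of_le hp.2 with h | h
        · rw [h] at hpt
          linarith
        · exact h
      have hsec := sec_max h1 h2 ⟨hps, hps'⟩ (fun x hx => hpm hx)
      apply key p hps hps'.le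
      have hfs : f s < 0 := by
        by_contra hc
        push Not at hc
        have := mul_nonpos_of_nonpos_of_nonneg hneg.le hc
        linarith
      have hfp : 0 ≤ f p := by
        have h5 : 0 ≤ (K - V p) * w p := mul_nonneg (by linarith [hK p hp]) hpt
        simp only [hf]
        linarith
      exact mul_nonpos_of_nonpos_of_nonneg hfs.le hfp
    · have hpos' : 0 < w s' := by
        rcases lt_or_gt_of_ne hws' with h | h
        · have := mul_neg_of_pos_of_neg hpos h
          linarith
        · exact h
      obtain ⟨p, hp, hpm⟩ := isCompact_Icc.exists_isMinOn ⟨t, ⟨hst.le, hts.le⟩⟩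
        (hw.continuousOn (s := Icc s s'))
      have hpt : w p ≤ 0 := by
        have := hpm (show t ∈ Icc s s' from ⟨hst.le, hts.le⟩)
        simpa [ht] using this
      have hps : s < p := by
        rcases eq_or_lt_of_le hp.1 with h | h
        · rw [← h] at hpt
          linarith
        · exact h
      have hps' : p < s' := by
        rcases eq_or_lt_of_le hp.2 with h | h
        · rw [h] at hpt
          linarith
        · exact h
      have hsec := sec_min h1 h2 ⟨hps, hps'⟩ (fun x hx => hpm hx)
      apply key p hps hps'.le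
      have hfs : 0 < f s := by
        by_contra hc
        push Not at hc
        have := mul_nonpos_of_nonneg_of_nonpos hpos.le hc
        linarith
      have hfp : f p ≤ 0 := by
        have h5 : (K - V p) * w p ≤ 0 :=
          mul_nonpos_of_nonneg_of_nonpos (by linarith [hK p hp]) hpt
        simp only [hf]
        linarith
      exact mul_nonpos_of_nonneg_of_nonpos hfs.le hfp

/-- between two zeros of `w` either `w` vanishes or there is a point where `w` and `f` have
the same strict sign -/
theorem bump {w w1 w2 V : ℝ → ℝ} {K : ℝ} (h1 : ∀ x, HasDerivAt w (w1 x) x)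
    (h2 : ∀ x, HasDerivAt w1 (w2 x) x) {t t' : ℝ} (hK : ∀ x ∈ Icc t t', V x < K)
    (ht : w t = 0) (ht' : w t' = 0) :
    (∀ x ∈ Icc t t', w x = 0) ∨ ∃ s ∈ Ioo t t', 0 < w s * ((K - V s) * w s - w2 s) := by
  by_cases hall : ∀ x ∈ Icc t t', w x = 0
  · exact Or.inl hall
  right
  push Not at hall
  obtain ⟨x0, hx0, hwx0⟩ := hall
  have hw : Continuous w := continuous_iff_continuousAt.2 (fun x => (h1 x).continuousAt)
  obtain ⟨s, hs, hsm⟩ := isCompact_Icc.exists_isMaxOn ⟨x0, hx0⟩
    ((continuous_abs.comp hw).continuousOn (s := Icc t t'))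
  have hsm' : ∀ x ∈ Icc t t', |w x| ≤ |w s| := fun x hx => hsm hx
  have hpos : 0 < |w s| := lt_of_lt_of_le (abs_pos.2 hwx0) (hsm' x0 hx0)
  have hws : w s ≠ 0 := abs_pos.1 hpos
  have hs1 : t < s := by
    rcases eq_or_lt_of_le hs.1 with h | h
    · rw [← h] at hws
      exact absurd ht hws
    · exact h
  have hs2 : s < t' := by
    rcases eq_or_lt_of_le hs.2 with h | h
    · rw [h] at hws
      exact absurd ht' hws
    · exact h
  refine ⟨s, ⟨hs1, hs2⟩, ?_⟩
  have hKs : 0 < K - V s := by linarith [hK s hs]
  rcases lt_or_gt_of_ne hws with h | h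
  · have hsec := sec_min h1 h2 ⟨hs1, hs2⟩ (fun x hx => by
      have h3 := hsm' x hx
      rw [abs_of_neg h] at h3
      have := neg_abs_le (w x)
      linarith)
    apply mul_pos_of_neg_of_neg h
    have := mul_neg_of_pos_of_neg hKs h
    linarith
  · have hsec := sec_max h1 h2 ⟨hs1, hs2⟩ (fun x hx => by
      have h3 := hsm' x hx
      rw [abs_of_pos h] at h3
      have := le_abs_self (w x)
      linarith)
    apply mul_pos h
    have := mul_pos hKs h
    linarith

/-- if `w` vanishes on an interval then so does `w''` in the interior -/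
theorem flat {w w1 w2 : ℝ → ℝ} (h1 : ∀ x, HasDerivAt w (w1 x) x)
    (h2 : ∀ x, HasDerivAt w1 (w2 x) x) {t t' : ℝ} (h : ∀ x ∈ Icc t t', w x = 0) :
    ∀ x ∈ Ioo t t', w x = 0 ∧ w2 x = 0 := by
  have e1 : ∀ x ∈ Ioo t t', w1 x = 0 := by
    intro x hx
    have hev : w =ᶠ[𝓝 x] fun _ => (0 : ℝ) := by
      filter_upwards [Ioo_mem_nhds hx.1 hx.2] with y hy
      exact h y ⟨hy.1.le, hy.2.le⟩
    exact ((h1 x).unique ((hasDerivAt_const x (0 : ℝ)).congr_of_eventuallyEq hev))
  intro x hx
  refine ⟨h x ⟨hx.1.le, hx.2.le⟩, ?_⟩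
  have hev : w1 =ᶠ[𝓝 x] fun _ => (0 : ℝ) := by
    filter_upwards [Ioo_mem_nhds hx.1 hx.2] with y hy
    exact e1 y hy
  exact ((h2 x).unique ((hasDerivAt_const x (0 : ℝ)).congr_of_eventuallyEq hev))

/-- ordinary uniqueness: a nontrivial solution has no double zero -/
theorem nodouble {u u1 A : ℝ → ℝ} (hA : Continuous A) (h1 : ∀ x, HasDerivAt u (u1 x) x)
    (h2 : ∀ x, HasDerivAt u1 (A x * u x) x) {x0 : ℝ} (hx : u x0 = 0) (hx1 : u1 x0 = 0) :
    ∀ x, u x = 0 := by
  intro x
  have hcont : ContinuousOn (fun y => |A y|) (Icc (min x0 x) (max x0 x)) :=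
    (continuous_abs.comp hA).continuousOn
  obtain ⟨C, hC⟩ := isCompact_Icc.exists_bound_of_continuousOn hcont
  have hC' : ∀ y ∈ Icc (min x0 x) (max x0 x), |A y| ≤ C := by
    intro y hy
    have := hC y hy
    simpa using this
  have hC0 : 0 ≤ C := le_trans (abs_nonneg _) (hC' x0 ⟨min_le_left _ _, le_max_left _ _⟩)
  set E : ℝ → ℝ := fun y => u y ^ 2 + u1 y ^ 2 with hE
  have hE' : ∀ y, HasDerivAt E (2 * u y * u1 y + 2 * u1 y * (A y * u y)) y := by
    intro y
    have := ((h1 y).pow 2).add ((h2 y).pow 2)
    exact this.congr_deriv (by simp)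
  have hEx0 : E x0 = 0 := by simp [hE, hx, hx1]
  have hbd : ∀ y ∈ Icc (min x0 x) (max x0 x),
      |2 * u y * u1 y + 2 * u1 y * (A y * u y)| ≤ (1 + C) * E y := by
    intro y hy
    have h3 : |2 * u y * u1 y| ≤ E y := by
      rw [abs_le]
      constructor <;> simp only [hE] <;> nlinarith [sq_nonneg (u y + u1 y), sq_nonneg (u y - u1 y)]
    have h4 : 2 * u y * u1 y + 2 * u1 y * (A y * u y) = (2 * u y * u1 y) * (1 + A y) := by ring
    rw [h4, abs_mul]
    have h5 : |1 + A y| ≤ 1 + C := by
      calc |1 + A y| ≤ |(1:ℝ)| + |A y| := abs_add_le _ _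
        _ ≤ 1 + C := by rw [abs_one]; linarith [hC' y hy]
    have h6 : 0 ≤ E y := by positivity
    calc |2 * u y * u1 y| * |1 + A y| ≤ E y * (1 + C) :=
          mul_le_mul h3 h5 (abs_nonneg _) h6
      _ = (1 + C) * E y := by ring
  have hEx : E x ≤ 0 := by
    rcases le_total x0 x with hle | hle
    · -- E exp(-(1+C) y) is antitone
      have hmin : min x0 x = x0 := min_eq_left hle
      have hmax : max x0 x = x := max_eq_right hle
      rw [hmin, hmax] at hbd
      have hd : ∀ y, HasDerivAt (fun y => E y * Real.exp (-(1 + C) * y))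
          ((2 * u y * u1 y + 2 * u1 y * (A y * u y)) * Real.exp (-(1 + C) * y) +
            E y * (Real.exp (-(1 + C) * y) * (-(1 + C)))) y := by
        intro y
        refine (hE' y).mul ?_
        have := (((hasDerivAt_id y).const_mul (-(1 + C)))).exp
        simpa using this
      have hanti : AntitoneOn (fun y => E y * Real.exp (-(1 + C) * y)) (Icc x0 x) := by
        apply antitoneOn_of_deriv_nonpos (convex_Icc _ _)
        · exact fun y _ => (hd y).continuousAt.continuousWithinAt
        · exact fun y _ => (hd y).differentiableAt.differentiableWithinAt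
        · intro y hy
          rw [interior_Icc] at hy
          rw [(hd y).deriv]
          have h7 := hbd y ⟨hy.1.le, hy.2.le⟩
          have h8 := (abs_le.1 h7).2
          have h9 := Real.exp_pos (-(1 + C) * y)
          nlinarith
      have h10 := hanti (left_mem_Icc.2 hle) (right_mem_Icc.2 hle) hle
      simp only [hEx0, zero_mul] at h10
      have h9 := Real.exp_pos (-(1 + C) * x)
      by_contra hc
      push Not at hc
      have := mul_pos hc h9
      linarith
    · have hmin : min x0 x = x := min_eq_right hle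
      have hmax : max x0 x = x0 := max_eq_left hle
      rw [hmin, hmax] at hbd
      have hd : ∀ y, HasDerivAt (fun y => E y * Real.exp ((1 + C) * y))
          ((2 * u y * u1 y + 2 * u1 y * (A y * u y)) * Real.exp ((1 + C) * y) +
            E y * (Real.exp ((1 + C) * y) * ((1 + C)))) y := by
        intro y
        refine (hE' y).mul ?_
        have := (((hasDerivAt_id y).const_mul ((1 + C)))).exp
        simpa using this
      have hmono : MonotoneOn (fun y => E y * Real.exp ((1 + C) * y)) (Icc x x0) := by
        apply monotoneOn_of_deriv_nonneg (convex_Icc _ _)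
        · exact fun y _ => (hd y).continuousAt.continuousWithinAt
        · exact fun y _ => (hd y).differentiableAt.differentiableWithinAt
        · intro y hy
          rw [interior_Icc] at hy
          rw [(hd y).deriv]
          have h7 := hbd y ⟨hy.1.le, hy.2.le⟩
          have h8 := (abs_le.1 h7).1
          have h9 := Real.exp_pos ((1 + C) * y)
          nlinarith
      have h10 := hmono (left_mem_Icc.2 hle) (right_mem_Icc.2 hle) hle
      simp only [hEx0, zero_mul] at h10
      have h9 := Real.exp_pos ((1 + C) * x)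
      by_contra hc
      push Not at hc
      have := mul_pos hc h9
      linarith
  have : u x ^ 2 ≤ 0 := by
    have : 0 ≤ u1 x ^ 2 := sq_nonneg _
    simp only [hE] at hEx
    linarith
  exact pow_eq_zero_iff (two_ne_zero) |>.1 (le_antisymm this (sq_nonneg _))

end Pool.Agent.Y315.NL
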