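import Pool.Agent.Y315.NL.Base

set_option autoImplicit false

open MeasureTheory Set Filter Topology
open scoped ContDiff ENNReal

noncomputable section

namespace Pool.Agent.Y315.NL

/-- positivity on small rectangles -/
theorem cell_pos {κ : ℝ} (hκ : 0 < κ) (φ φx φxx φy φyy Q : ℝ → ℝ → ℝ)
    (hcont : Continuous fun p : ℝ × ℝ => φ p.1 p.2)
    (hx : ∀ x y, HasDerivAt (fun t => φ t y) (φx x y) x)
    (hxx : ∀ x y, HasDerivAt (fun t => φx t y) (φxx x y) x)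
    (hy : ∀ x y, HasDerivAt (fun t => φ x t) (φy x y) y)
    (hyy : ∀ x y, HasDerivAt (fun t => φy x t) (φyy x y) y)
    (heq : ∀ x y, φxx x y + φyy x y + Q x y * φ x y = 0)
    (hQ : ∀ x y, 0 ≤ Q x y ∧ Q x y ≤ κ ^ 2)
    {x₀ x₁ y₀ y₁ : ℝ} (hx01 : x₀ < x₁) (hy01 : y₀ < y₁) (hxd : x₁ - x₀ ≤ 1 / κ)
    (hyd : y₁ - y₀ ≤ 1 / κ)
    (hb1 : ∀ x ∈ Icc x₀ x₁, 0 < φ x y₀ ∧ 0 < φ x y₁)
    (hb2 : ∀ y ∈ Icc y₀ y₁, 0 < φ x₀ y ∧ 0 < φ x₁ y) :
    ∀ x ∈ Icc x₀ x₁, ∀ y ∈ Icc y₀ y₁, 0 < φ x y := by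
  -- a positive lower bound on the edges
  have hcx : ∀ y, Continuous (fun x => φ x y) := fun y =>
    hcont.comp (continuous_id.prodMk continuous_const)
  have hcy : ∀ x, Continuous (fun y => φ x y) := fun x =>
    hcont.comp (continuous_const.prodMk continuous_id)
  have hedge : ∀ (f : ℝ → ℝ) (a b : ℝ), a ≤ b → Continuous f → (∀ t ∈ Icc a b, 0 < f t) →
      ∃ ε > 0, ∀ t ∈ Icc a b, ε ≤ f t := by
    intro f a b hab hf hpos
    obtain ⟨t, ht, hmin⟩ := isCompact_Icc.exists_isMinOn (s := Icc a b) ⟨a, by simp [hab]⟩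
      hf.continuousOn
    exact ⟨f t, hpos t ht, fun u hu => hmin hu⟩
  obtain ⟨ε1, hε1, h1⟩ := hedge _ _ _ hx01.le (hcx y₀) (fun x hx => (hb1 x hx).1)
  obtain ⟨ε2, hε2, h2⟩ := hedge _ _ _ hx01.le (hcx y₁) (fun x hx => (hb1 x hx).2)
  obtain ⟨ε3, hε3, h3⟩ := hedge _ _ _ hy01.le (hcy x₀) (fun y hy => (hb2 y hy).1)
  obtain ⟨ε4, hε4, h4⟩ := hedge _ _ _ hy01.le (hcy x₁) (fun y hy => (hb2 y hy).2)
  set ε := min (min ε1 ε2) (min ε3 ε4) with hε
  have hεpos : 0 < ε := lt_min (lt_min hε1 hε2) (lt_min hε3 hε4)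
  have hεle1 : ε ≤ ε1 := (min_le_left _ _).trans (min_le_left _ _)
  have hεle2 : ε ≤ ε2 := (min_le_left _ _).trans (min_le_right _ _)
  have hεle3 : ε ≤ ε3 := (min_le_right _ _).trans (min_le_left _ _)
  have hεle4 : ε ≤ ε4 := (min_le_right _ _).trans (min_le_right _ _)
  by_contra hcon
  push Not at hcon
  obtain ⟨xb, hxb, yb, hyb, hneg⟩ := hcon
  set xc := (x₀ + x₁) / 2 with hxc
  set yc := (y₀ + y₁) / 2 with hyc
  have hcospos : ∀ (a b c t : ℝ), c = (a + b) / 2 → b - a ≤ 1 / κ → t ∈ Icc a b →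
      0 < Real.cos (κ * (t - c)) := by
    intro a b c t hc hab ht
    have hd : κ * (b - a) ≤ 1 := by
      have := mul_le_mul_of_nonneg_left hab hκ.le
      rwa [mul_one_div_cancel hκ.ne'] at this
    have e1 : |κ * (t - c)| ≤ 1 / 2 := by
      rw [abs_mul, abs_of_pos hκ]
      have e2 : |t - c| ≤ (b - a) / 2 := by
        rw [abs_le, hc]
        constructor <;> linarith [ht.1, ht.2]
      have := mul_le_mul_of_nonneg_left e2 hκ.le
      linarith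
    have e3 := abs_le.1 e1
    have e4 := Real.pi_gt_three
    exact Real.cos_pos_of_mem_Ioo ⟨by linarith [e3.1], by linarith [e3.2]⟩
  set ψ : ℝ → ℝ → ℝ := fun x y => Real.cos (κ * (x - xc)) * Real.cos (κ * (y - yc)) with hψ
  have hψpos : ∀ x ∈ Icc x₀ x₁, ∀ y ∈ Icc y₀ y₁, 0 < ψ x y := fun x hx y hy =>
    mul_pos (hcospos x₀ x₁ xc x hxc hxd hx) (hcospos y₀ y₁ yc y hyc hyd hy)
  have hψc : Continuous fun p : ℝ × ℝ => ψ p.1 p.2 := by
    simp only [hψ]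
    fun_prop
  have hR : IsCompact (Icc x₀ x₁ ×ˢ Icc y₀ y₁) := isCompact_Icc.prod isCompact_Icc
  obtain ⟨p, hp, hmin⟩ := hR.exists_isMinOn ⟨(xb, yb), ⟨hxb, hyb⟩⟩
    (f := fun p : ℝ × ℝ => (φ p.1 p.2 - ε) / ψ p.1 p.2)
    ((hcont.sub continuous_const).continuousOn.div hψc.continuousOn
      (fun p hp => (hψpos p.1 hp.1 p.2 hp.2).ne'))
  obtain ⟨xm, ym⟩ := p
  have hxm : xm ∈ Icc x₀ x₁ := hp.1
  have hym : ym ∈ Icc y₀ y₁ := hp.2
  set m := (φ xm ym - ε) / ψ xm ym with hm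
  have hψm := hψpos xm hxm ym hym
  have hmneg : m < 0 := by
    have e1 : m ≤ (φ xb yb - ε) / ψ xb yb :=
      hmin (show (xb, yb) ∈ Icc x₀ x₁ ×ˢ Icc y₀ y₁ from ⟨hxb, hyb⟩)
    have e2 : (φ xb yb - ε) / ψ xb yb < 0 :=
      div_neg_of_neg_of_pos (by linarith) (hψpos xb hxb yb hyb)
    linarith
  have humul : φ xm ym - ε = m * ψ xm ym := by
    rw [hm, div_mul_cancel₀ _ hψm.ne']
  have huneg : φ xm ym - ε < 0 := by
    rw [humul]
    exact mul_neg_of_neg_of_pos hmneg hψm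
  have hG : ∀ x ∈ Icc x₀ x₁, ∀ y ∈ Icc y₀ y₁, m * ψ x y ≤ φ x y - ε := by
    intro x hx y hy
    have e1 : m ≤ (φ x y - ε) / ψ x y :=
      hmin (show (x, y) ∈ Icc x₀ x₁ ×ˢ Icc y₀ y₁ from ⟨hx, hy⟩)
    rwa [le_div_iff₀ (hψpos x hx y hy)] at e1
  have hxi : xm ∈ Ioo x₀ x₁ := by
    refine ⟨lt_of_le_of_ne hxm.1 ?_, lt_of_le_of_ne hxm.2 ?_⟩
    · intro h
      have := h3 ym hym
      rw [h] at this
      linarith
    · intro h
      have := h4 ym hym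
      rw [← h] at this
      linarith
  have hyi : ym ∈ Ioo y₀ y₁ := by
    refine ⟨lt_of_le_of_ne hym.1 ?_, lt_of_le_of_ne hym.2 ?_⟩
    · intro h
      have := h1 xm hxm
      rw [h] at this
      linarith
    · intro h
      have := h2 xm hxm
      rw [← h] at this
      linarith
  have hlin : ∀ c t : ℝ, HasDerivAt (fun t => κ * (t - c)) κ t := by
    intro c t
    have := ((hasDerivAt_id t).sub_const c).const_mul κ
    simpa using this
  have hcd : ∀ c t : ℝ, HasDerivAt (fun t => Real.cos (κ * (t - c)))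
      (-(κ * Real.sin (κ * (t - c)))) t := by
    intro c t
    exact (hlin c t).cos.congr_deriv (by ring)
  have hsd : ∀ c t : ℝ, HasDerivAt (fun t => -(κ * Real.sin (κ * (t - c))))
      (-(κ ^ 2) * Real.cos (κ * (t - c))) t := by
    intro c t
    exact (((hlin c t).sin.const_mul κ).neg).congr_deriv (by ring)
  have hsx := sec_min (w := fun x => φ x ym - ε - m * Real.cos (κ * (ym - yc)) * Real.cos (κ * (x - xc)))
    (w1 := fun x => φx x ym - m * Real.cos (κ * (ym - yc)) * (-(κ * Real.sin (κ * (x - xc)))))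
    (w2 := fun x => φxx x ym - m * Real.cos (κ * (ym - yc)) * (-(κ ^ 2) * Real.cos (κ * (x - xc))))
    (fun x => ((hx x ym).sub_const ε).sub ((hcd xc x).const_mul _))
    (fun x => (hxx x ym).sub ((hsd xc x).const_mul _)) hxi (fun x hx' => by
      have e1 := hG x hx' ym hym
      simp only [hψ] at e1 humul
      nlinarith)
  have hsy := sec_min (w := fun y => φ xm y - ε - m * Real.cos (κ * (xm - xc)) * Real.cos (κ * (y - yc)))
    (w1 := fun y => φy xm y - m * Real.cos (κ * (xm - xc)) * (-(κ * Real.sin (κ * (y - yc)))))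
    (w2 := fun y => φyy xm y - m * Real.cos (κ * (xm - xc)) * (-(κ ^ 2) * Real.cos (κ * (y - yc))))
    (fun y => ((hy xm y).sub_const ε).sub ((hcd yc y).const_mul _))
    (fun y => (hyy xm y).sub ((hsd yc y).const_mul _)) hyi (fun y hy' => by
      have e1 := hG xm hxm y hy'
      simp only [hψ] at e1 humul
      nlinarith)
  have hE := heq xm ym
  obtain ⟨hQ0, hQ1⟩ := hQ xm ym
  have e5 : φxx xm ym + κ ^ 2 * (φ xm ym - ε) ≥ 0 := by
    rw [humul]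
    simp only [hψ]
    linarith
  have e6 : φyy xm ym + κ ^ 2 * (φ xm ym - ε) ≥ 0 := by
    rw [humul]
    simp only [hψ]
    linarith
  have e7 : (2 * κ ^ 2 - Q xm ym) * (φ xm ym - ε) - Q xm ym * ε ≥ 0 := by
    nlinarith
  have e8 : 0 < 2 * κ ^ 2 - Q xm ym := by
    have : 0 < κ ^ 2 := by positivity
    linarith
  have e9 := mul_neg_of_pos_of_neg e8 huneg
  have e10 := mul_nonneg hQ0 hεpos.le
  linarith

theorem sign_pos {f : ℝ → ℝ} {a b : ℝ} (hf : Continuous f) (hz : ∀ t ∈ Icc a b, f t ≠ 0)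
    {s : ℝ} (hs : s ∈ Icc a b) (hpos : 0 < f s) : ∀ t ∈ Icc a b, 0 < f t := by
  intro t ht
  by_contra hcon
  push Not at hcon
  have hsub : uIcc s t ⊆ Icc a b := by
    intro u hu
    rw [mem_uIcc] at hu
    rcases hu with h | h
    · exact ⟨hs.1.trans h.1, h.2.trans ht.2⟩
    · exact ⟨ht.1.trans h.1, h.2.trans hs.2⟩
  have := intermediate_value_uIcc (a := s) (b := t) hf.continuousOn
  have h0 : (0 : ℝ) ∈ uIcc (f s) (f t) := by
    rw [mem_uIcc]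
    right
    exact ⟨hcon, hpos.le⟩
  obtain ⟨u, hu, hu0⟩ := this h0
  exact hz u (hsub hu) hu0

/-- the maximum principle for small rectangles -/
theorem cell {κ : ℝ} (hκ : 0 < κ) (φ φx φxx φy φyy Q : ℝ → ℝ → ℝ)
    (hcont : Continuous fun p : ℝ × ℝ => φ p.1 p.2)
    (hx : ∀ x y, HasDerivAt (fun t => φ t y) (φx x y) x)
    (hxx : ∀ x y, HasDerivAt (fun t => φx t y) (φxx x y) x)
    (hy : ∀ x y, HasDerivAt (fun t => φ x t) (φy x y) y)
    (hyy : ∀ x y, HasDerivAt (fun t => φy x t) (φyy x y) y)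
    (heq : ∀ x y, φxx x y + φyy x y + Q x y * φ x y = 0)
    (hQ : ∀ x y, 0 ≤ Q x y ∧ Q x y ≤ κ ^ 2) : Cell φ (1 / κ) := by
  intro x₀ x₁ y₀ y₁ hx01 hy01 hxd hyd hb1 hb2
  have hcx : ∀ y, Continuous (fun x => φ x y) := fun y =>
    hcont.comp (continuous_id.prodMk continuous_const)
  have hcy : ∀ x, Continuous (fun y => φ x y) := fun x =>
    hcont.comp (continuous_const.prodMk continuous_id)
  have hl : x₀ ∈ Icc x₀ x₁ := left_mem_Icc.2 hx01.le
  have hr : x₁ ∈ Icc x₀ x₁ := right_mem_Icc.2 hx01.le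
  have hb : y₀ ∈ Icc y₀ y₁ := left_mem_Icc.2 hy01.le
  have ht : y₁ ∈ Icc y₀ y₁ := right_mem_Icc.2 hy01.le
  rcases lt_or_gt_of_ne (hb1 x₀ hl).1 with h | h
  · -- negative: apply to -φ
    have g1 : ∀ x ∈ Icc x₀ x₁, 0 < -φ x y₀ := sign_pos (hcx y₀).neg
      (fun x hx => neg_ne_zero.2 (hb1 x hx).1) hl (neg_pos.2 h)
    have g2 : ∀ y ∈ Icc y₀ y₁, 0 < -φ x₀ y := sign_pos (hcy x₀).neg
      (fun y hy => neg_ne_zero.2 (hb2 y hy).1) hb (neg_pos.2 h)
    have g3 : ∀ x ∈ Icc x₀ x₁, 0 < -φ x y₁ := sign_pos (hcx y₁).neg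
      (fun x hx => neg_ne_zero.2 (hb1 x hx).2) hl (g2 y₁ ht)
    have g4 : ∀ y ∈ Icc y₀ y₁, 0 < -φ x₁ y := sign_pos (hcy x₁).neg
      (fun y hy => neg_ne_zero.2 (hb2 y hy).2) hb (g1 x₁ hr)
    have := cell_pos hκ (fun x y => -φ x y) (fun x y => -φx x y) (fun x y => -φxx x y)
      (fun x y => -φy x y) (fun x y => -φyy x y) Q hcont.neg (fun x y => (hx x y).neg)
      (fun x y => (hxx x y).neg) (fun x y => (hy x y).neg) (fun x y => (hyy x y).neg)
      (fun x y => by have := heq x y; linarith) hQ hx01 hy01 hxd hyd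
      (fun x hx => ⟨g1 x hx, g3 x hx⟩) (fun y hy => ⟨g2 y hy, g4 y hy⟩)
    intro x hx' y hy' h0
    have := this x hx' y hy'
    rw [h0] at this
    simp at this
  · have g1 : ∀ x ∈ Icc x₀ x₁, 0 < φ x y₀ := sign_pos (hcx y₀)
      (fun x hx => (hb1 x hx).1) hl h
    have g2 : ∀ y ∈ Icc y₀ y₁, 0 < φ x₀ y := sign_pos (hcy x₀)
      (fun y hy => (hb2 y hy).1) hb h
    have g3 : ∀ x ∈ Icc x₀ x₁, 0 < φ x y₁ := sign_pos (hcx y₁)
      (fun x hx => (hb1 x hx).2) hl (g2 y₁ ht)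
    have g4 : ∀ y ∈ Icc y₀ y₁, 0 < φ x₁ y := sign_pos (hcy x₁)
      (fun y hy => (hb2 y hy).2) hb (g1 x₁ hr)
    have := cell_pos hκ φ φx φxx φy φyy Q hcont hx hxx hy hyy heq hQ hx01 hy01 hxd hyd
      (fun x hx => ⟨g1 x hx, g3 x hx⟩) (fun y hy => ⟨g2 y hy, g4 y hy⟩)
    intro x hx' y hy'
    exact (this x hx' y hy').ne'

end Pool.Agent.Y315.NL
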