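import Pool.Agent.Y315.NL.Base

set_option autoImplicit false

open MeasureTheory Set Filter Topology
open scoped ContDiff ENNReal

noncomputable section

namespace Pool.Agent.Y315.NL

/-- the threshold in the gap lemma -/
def thr (κ κ' : ℝ) : ℝ :=
  (((κ + κ') / 2) ^ 2 - κ ^ 2) * Real.sin ((Real.pi - (κ + κ') / 2 * (Real.pi / κ')) / 2)

theorem thr_aux {κ κ' : ℝ} (h0 : 0 < κ) (h : κ < κ') :
    0 < (Real.pi - (κ + κ') / 2 * (Real.pi / κ')) / 2 ∧
    (Real.pi - (κ + κ') / 2 * (Real.pi / κ')) / 2 < Real.pi / 2 := by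
  have hκ' : 0 < κ' := h0.trans h
  have hπ := Real.pi_pos
  have h1 : (κ + κ') / 2 * (Real.pi / κ') = Real.pi * (((κ + κ') / 2) / κ') := by
    field_simp
  have h2 : ((κ + κ') / 2) / κ' < 1 := by
    rw [div_lt_one hκ']
    linarith
  have h3 : 0 < ((κ + κ') / 2) / κ' := by positivity
  rw [h1]
  constructor
  · have : Real.pi * (((κ + κ') / 2) / κ') < Real.pi * 1 := mul_lt_mul_of_pos_left h2 hπ
    linarith
  · have := mul_pos hπ h3
    linarith

theorem thr_pos {κ κ' : ℝ} (h0 : 0 < κ) (h : κ < κ') : 0 < thr κ κ' := by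
  obtain ⟨h1, h2⟩ := thr_aux h0 h
  unfold thr
  apply mul_pos
  · nlinarith
  · apply Real.sin_pos_of_pos_of_lt_pi h1
    linarith [Real.pi_pos]

/-- zeros of approximate solutions of `g'' = -Q g`, `Q ≤ κ^2`, are separated -/
theorem gap {κ κ' : ℝ} (h0 : 0 < κ) (hκ : κ < κ') {g g1 g2 Q e : ℝ → ℝ} {z₁ z₂ c η : ℝ}
    (hz : z₁ < z₂) (h1 : ∀ x, HasDerivAt g (g1 x) x) (h2 : ∀ x, HasDerivAt g1 (g2 x) x)
    (hz1 : g z₁ = 0) (hz2 : g z₂ = 0)
    (heq : ∀ x ∈ Icc z₁ z₂, g2 x = -(Q x) * g x + e x) (hQ : ∀ x ∈ Icc z₁ z₂, Q x ≤ κ ^ 2)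
    (he : ∀ x ∈ Icc z₁ z₂, |e x| ≤ η) (hc : ∀ x ∈ Icc z₁ z₂, g1 x = 0 → c ≤ |g x|)
    (hc0 : 0 < c) (hη : η < thr κ κ' * c) : Real.pi / κ' < z₂ - z₁ := by
  by_contra hcon
  push Not at hcon
  have hκ' : 0 < κ' := h0.trans hκ
  have hπ := Real.pi_pos
  obtain ⟨ha1, ha2⟩ := thr_aux h0 hκ
  set k := (κ + κ') / 2 with hk
  have hk0 : 0 < k := by positivity
  set δ0 := (Real.pi - k * (Real.pi / κ')) / 2 with hδ0
  set δ := (Real.pi - k * (z₂ - z₁)) / 2 with hδ
  have hδ0δ : δ0 ≤ δ := by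
    have := mul_le_mul_of_nonneg_left hcon hk0.le
    simp only [hδ0, hδ]
    linarith
  have hδlt : δ < Real.pi / 2 := by
    have := mul_pos hk0 (sub_pos.2 hz)
    simp only [hδ]
    linarith
  set S : ℝ → ℝ := fun x => Real.sin (k * (x - z₁) + δ) with hS
  set S1 : ℝ → ℝ := fun x => k * Real.cos (k * (x - z₁) + δ) with hS1
  have hSd : ∀ x, HasDerivAt S (S1 x) x := by
    intro x
    have h3 : HasDerivAt (fun x => k * (x - z₁) + δ) k x := by
      have := (((hasDerivAt_id x).sub_const z₁).const_mul k).add_const δ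
      simpa using this
    have := h3.sin
    exact this.congr_deriv (by simp only [hS1]; ring)
  have hS1d : ∀ x, HasDerivAt S1 (-(k ^ 2) * S x) x := by
    intro x
    have h3 : HasDerivAt (fun x => k * (x - z₁) + δ) k x := by
      have := (((hasDerivAt_id x).sub_const z₁).const_mul k).add_const δ
      simpa using this
    have := h3.cos.const_mul k
    exact this.congr_deriv (by simp only [hS]; ring)
  have hSlow : ∀ x ∈ Icc z₁ z₂, Real.sin δ0 ≤ S x := by
    intro x hx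
    have hl : δ ≤ k * (x - z₁) + δ := by
      have := mul_nonneg hk0.le (sub_nonneg.2 hx.1)
      linarith
    have hu : k * (x - z₁) + δ ≤ Real.pi - δ := by
      have h5 : k * (x - z₁) ≤ k * (z₂ - z₁) :=
        mul_le_mul_of_nonneg_left (by linarith [hx.2]) hk0.le
      have h6 : Real.pi - δ = k * (z₂ - z₁) + δ := by simp only [hδ]; ring
      linarith
    have h7 : Real.sin δ ≤ S x := by
      simp only [hS]
      rcases le_total (k * (x - z₁) + δ) (Real.pi / 2) with h | h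
      · exact Real.sin_le_sin_of_le_of_le_pi_div_two (by linarith) h hl
      · rw [← Real.sin_pi_sub (k * (x - z₁) + δ)]
        exact Real.sin_le_sin_of_le_of_le_pi_div_two (by linarith) (by linarith) (by linarith)
    have h8 : Real.sin δ0 ≤ Real.sin δ :=
      Real.sin_le_sin_of_le_of_le_pi_div_two (by linarith) hδlt.le hδ0δ
    linarith
  have hsin0 : 0 < Real.sin δ0 := Real.sin_pos_of_pos_of_lt_pi ha1 (by linarith)
  have hSpos : ∀ x ∈ Icc z₁ z₂, 0 < S x := fun x hx => lt_of_lt_of_le hsin0 (hSlow x hx)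
  have hSle : ∀ x, S x ≤ 1 := fun x => Real.sin_le_one _
  have hg : Continuous g := continuous_iff_continuousAt.2 (fun x => (h1 x).continuousAt)
  have hSc : Continuous S := continuous_iff_continuousAt.2 (fun x => (hSd x).continuousAt)
  -- a critical point
  obtain ⟨y, hy, hy1⟩ := exists_hasDerivAt_eq_zero hz hg.continuousOn (by rw [hz1, hz2])
    (fun x _ => h1 x)
  have hgy := hc y ⟨hy.1.le, hy.2.le⟩ hy1
  -- maximum of |g|/S
  obtain ⟨x0, hx0, hmax⟩ := isCompact_Icc.exists_isMaxOn ⟨y, ⟨hy.1.le, hy.2.le⟩⟩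
    (f := fun x => |g x| / S x) (s := Icc z₁ z₂)
    ((continuous_abs.comp hg).continuousOn.div hSc.continuousOn (fun x hx => (hSpos x hx).ne'))
  set m := |g x0| / S x0 with hm
  have hmc : c ≤ m := by
    have h3 : |g y| / S y ≤ m := hmax (show y ∈ Icc z₁ z₂ from ⟨hy.1.le, hy.2.le⟩)
    have h4 : |g y| ≤ |g y| / S y := by
      rw [le_div_iff₀ (hSpos y ⟨hy.1.le, hy.2.le⟩)]
      have := hSle y
      have := abs_nonneg (g y)
      nlinarith
    linarith
  have hm0 : 0 < m := lt_of_lt_of_le hc0 hmc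
  have hgx0 : |g x0| = m * S x0 := by
    rw [hm, div_mul_cancel₀ _ (hSpos x0 hx0).ne']
  have hmle : ∀ x ∈ Icc z₁ z₂, |g x| ≤ m * S x := by
    intro x hx
    have h3 : |g x| / S x ≤ m := hmax hx
    rwa [div_le_iff₀ (hSpos x hx)] at h3
  have hgx0pos : 0 < |g x0| := by
    rw [hgx0]
    exact mul_pos hm0 (hSpos x0 hx0)
  have hgx0' : g x0 ≠ 0 := abs_pos.1 hgx0pos
  have hx1 : z₁ < x0 := by
    rcases eq_or_lt_of_le hx0.1 with h | h
    · rw [← h] at hgx0'
      exact absurd hz1 hgx0'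
    · exact h
  have hx2 : x0 < z₂ := by
    rcases eq_or_lt_of_le hx0.2 with h | h
    · rw [h] at hgx0'
      exact absurd hz2 hgx0'
    · exact h
  have hlow : c * Real.sin δ0 ≤ |g x0| := by
    rw [hgx0]
    exact mul_le_mul hmc (hSlow x0 hx0) hsin0.le hm0.le
  have hfinal : (k ^ 2 - κ ^ 2) * |g x0| ≤ η := by
    have hQx := hQ x0 hx0
    have hex := he x0 hx0
    have heqx := heq x0 hx0
    rcases lt_or_gt_of_ne hgx0' with h | h
    · -- g x0 < 0
      have hab : |g x0| = - g x0 := abs_of_neg h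
      have hsec := sec_max (w := fun x => - g x - m * S x) (w1 := fun x => - g1 x - m * S1 x)
        (w2 := fun x => - g2 x - m * (-(k ^ 2) * S x))
        (fun x => ((h1 x).neg.sub ((hSd x).const_mul m)))
        (fun x => ((h2 x).neg.sub ((hS1d x).const_mul m))) ⟨hx1, hx2⟩ (fun x hx => by
          have h3 := hmle x hx
          have h4 := neg_abs_le (g x)
          have h5 : - g x0 - m * S x0 = 0 := by rw [← hab, hgx0]; ring
          rw [h5]
          have := neg_le_abs (g x)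
          linarith)
      have h6 : m * S x0 = - g x0 := by rw [← hgx0, hab]
      have h7 : - g2 x0 + k ^ 2 * (- g x0) ≤ 0 := by
        have : m * (-(k ^ 2) * S x0) = - k ^ 2 * (m * S x0) := by ring
        rw [this, h6] at hsec
        linarith
      rw [heqx] at h7
      rw [hab]
      have h8 := (abs_le.1 hex).2
      have h9 := mul_nonneg (sub_nonneg.2 hQx) (neg_nonneg.2 h.le)
      nlinarith
    · have hab : |g x0| = g x0 := abs_of_pos h
      have hsec := sec_max (w := fun x => g x - m * S x) (w1 := fun x => g1 x - m * S1 x)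
        (w2 := fun x => g2 x - m * (-(k ^ 2) * S x))
        (fun x => ((h1 x).sub ((hSd x).const_mul m)))
        (fun x => ((h2 x).sub ((hS1d x).const_mul m))) ⟨hx1, hx2⟩ (fun x hx => by
          have h3 := hmle x hx
          have h5 : g x0 - m * S x0 = 0 := by rw [← hab, hgx0]; ring
          rw [h5]
          have := le_abs_self (g x)
          linarith)
      have h6 : m * S x0 = g x0 := by rw [← hgx0, hab]
      have h7 : g2 x0 + k ^ 2 * (g x0) ≤ 0 := by
        have : m * (-(k ^ 2) * S x0) = - k ^ 2 * (m * S x0) := by ring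
        rw [this, h6] at hsec
        linarith
      rw [heqx] at h7
      rw [hab]
      have h8 := (abs_le.1 hex).1
      have h9 := mul_nonneg (sub_nonneg.2 hQx) h.le
      nlinarith
  have hkk : 0 < k ^ 2 - κ ^ 2 := by nlinarith
  have h10 : (k ^ 2 - κ ^ 2) * (c * Real.sin δ0) ≤ η :=
    le_trans (mul_le_mul_of_nonneg_left hlow hkk.le) hfinal
  have h11 : thr κ κ' * c = (k ^ 2 - κ ^ 2) * (c * Real.sin δ0) := by
    simp only [thr, ← hk, ← hδ0]
    ring
  linarith

/-- the gap lemma for the iterates of the backward flow: general form on a set `I` -/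
theorem limgap {ι : Type} [DecidableEq ι] (s : Finset ι) (m : ι → ℝ) (W W1 : ι → ℝ → ℝ)
    (V : ℝ → ℝ) (h1 : ∀ i ∈ s, ∀ x, HasDerivAt (W i) (W1 i x) x)
    (h2 : ∀ i ∈ s, ∀ x, HasDerivAt (W1 i) ((m i - V x) * W i x) x)
    (I : Set ℝ) (M c : ℝ) (hM : ∀ i ∈ s, ∀ x ∈ I, |W i x| ≤ M ∧ |W1 i x| ≤ M)
    (i0 : ι) (hi0 : i0 ∈ s) (hmin : ∀ i ∈ s, i ≠ i0 → m i0 < m i) (hc0 : 0 < c)
    (hc : ∀ x ∈ I, c ^ 2 ≤ W i0 x ^ 2 + W1 i0 x ^ 2) (K : ℝ) (hK : ∀ i ∈ s, m i < K)
    {κ κ' : ℝ} (h0 : 0 < κ) (hκ : κ < κ') :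
    ∃ N0 : ℕ, ∀ N ≥ N0, ∀ z₁ z₂, z₁ < z₂ → Icc z₁ z₂ ⊆ I →
      (∑ i ∈ s, (K - m i) ^ N * W i z₁ = 0) → (∑ i ∈ s, (K - m i) ^ N * W i z₂ = 0) →
      (∀ x ∈ Icc z₁ z₂, V x - m i0 ≤ κ ^ 2) → Real.pi / κ' < z₂ - z₁ := by
  have hK0 : 0 < K - m i0 := by linarith [hK i0 hi0]
  -- ratio
  set a : ι → ℝ := fun i => (K - m i) / (K - m i0) with ha
  have ha0 : ∀ i ∈ s, 0 < a i := fun i hi => div_pos (by linarith [hK i hi]) hK0
  have ha1 : ∀ i ∈ s, i ≠ i0 → a i < 1 := by
    intro i hi hne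
    rw [ha]
    simp only
    rw [div_lt_one hK0]
    linarith [hmin i hi hne]
  have hai0 : a i0 = 1 := by
    rw [ha]
    exact div_self hK0.ne'
  -- the error function
  set s' := s.erase i0 with hs'
  have hM0 : 0 ≤ |M| := abs_nonneg M
  set D : ℕ → ℝ := fun N => ∑ i ∈ s', a i ^ N * ((1 + |m i - m i0|) * |M|) with hD
  have hDlim : Tendsto D atTop (𝓝 0) := by
    have : Tendsto D atTop (𝓝 (∑ i ∈ s', 0 * ((1 + |m i - m i0|) * |M|))) := by
      apply tendsto_finsetSum
      intro i hi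
      have hi2 := Finset.mem_erase.1 hi
      exact (tendsto_pow_atTop_nhds_zero_of_lt_one (ha0 i hi2.2).le
        (ha1 i hi2.2 hi2.1)).mul_const _
    simpa using this
  set c' := c / 4 with hc'
  have hc'0 : 0 < c' := by positivity
  have hthr := thr_pos h0 hκ
  have hev : ∀ᶠ N in atTop, D N < min (c / 4) (thr κ κ' * c') :=
    hDlim.eventually (gt_mem_nhds (lt_min (by positivity) (mul_pos hthr hc'0)))
  obtain ⟨N0, hN0⟩ := eventually_atTop.1 hev
  refine ⟨N0, fun N hN z₁ z₂ hz hI hg1 hg2 hQ => ?_⟩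
  have hDN := hN0 N hN
  have hDN1 : D N < c / 4 := lt_of_lt_of_le hDN (min_le_left _ _)
  have hDN2 : D N < thr κ κ' * c' := lt_of_lt_of_le hDN (min_le_right _ _)
  set g : ℝ → ℝ := fun x => ∑ i ∈ s, a i ^ N * W i x with hg
  set g1 : ℝ → ℝ := fun x => ∑ i ∈ s, a i ^ N * W1 i x with hg1'
  set g2 : ℝ → ℝ := fun x => ∑ i ∈ s, a i ^ N * ((m i - V x) * W i x) with hg2'
  have hgd : ∀ x, HasDerivAt g (g1 x) x := by
    intro x
    apply HasDerivAt.fun_sum
    intro i hi
    exact (h1 i hi x).const_mul _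
  have hg1d : ∀ x, HasDerivAt g1 (g2 x) x := by
    intro x
    apply HasDerivAt.fun_sum
    intro i hi
    exact (h2 i hi x).const_mul _
  have hscale : ∀ x, ∑ i ∈ s, (K - m i) ^ N * W i x = (K - m i0) ^ N * g x := by
    intro x
    rw [hg, Finset.mul_sum]
    apply Finset.sum_congr rfl
    intro i hi
    rw [ha]
    simp only
    rw [div_pow]
    field_simp
  have hgz1 : g z₁ = 0 := by
    rw [hscale] at hg1
    exact (mul_eq_zero.1 hg1).resolve_left (pow_ne_zero _ hK0.ne')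
  have hgz2 : g z₂ = 0 := by
    rw [hscale] at hg2
    exact (mul_eq_zero.1 hg2).resolve_left (pow_ne_zero _ hK0.ne')
  have hsplit : ∀ (X : ι → ℝ), ∑ i ∈ s, a i ^ N * X i = X i0 + ∑ i ∈ s', a i ^ N * X i := by
    intro X
    rw [← Finset.add_sum_erase s _ hi0, hai0, one_pow, one_mul]
  have hsmall : ∀ (X : ι → ℝ), (∀ i ∈ s', |X i| ≤ (1 + |m i - m i0|) * |M|) →
      |∑ i ∈ s', a i ^ N * X i| ≤ D N := by
    intro X hX
    refine le_trans (Finset.abs_sum_le_sum_abs _ _) ?_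
    apply Finset.sum_le_sum
    intro i hi
    have hi2 := Finset.mem_erase.1 hi
    rw [abs_mul, abs_of_nonneg (pow_nonneg (ha0 i hi2.2).le N)]
    exact mul_le_mul_of_nonneg_left (hX i hi) (pow_nonneg (ha0 i hi2.2).le N)
  have hMle : ∀ i ∈ s, ∀ x ∈ I, |W i x| ≤ |M| ∧ |W1 i x| ≤ |M| := fun i hi x hx =>
    ⟨(hM i hi x hx).1.trans (le_abs_self M), (hM i hi x hx).2.trans (le_abs_self M)⟩
  refine gap h0 hκ (g := g) (g1 := g1) (g2 := g2) (Q := fun x => V x - m i0)
    (e := fun x => ∑ i ∈ s', a i ^ N * ((m i - m i0) * W i x)) (c := c') (η := D N) hz hgd hg1d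
    hgz1 hgz2 ?_ hQ ?_ ?_ hc'0 hDN2
  · intro x hx
    simp only [hg2', hg]
    rw [hsplit (fun i => (m i - V x) * W i x), hsplit (fun i => W i x)]
    have : ∑ i ∈ s', a i ^ N * ((m i - V x) * W i x)
        = ∑ i ∈ s', a i ^ N * ((m i - m i0) * W i x)
          - (V x - m i0) * ∑ i ∈ s', a i ^ N * W i x := by
      rw [Finset.mul_sum, ← Finset.sum_sub_distrib]
      apply Finset.sum_congr rfl
      intro i _
      ring
    rw [this]
    ring
  · intro x hx
    apply hsmall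
    intro i hi
    have hi2 := Finset.mem_erase.1 hi
    rw [abs_mul]
    have h3 := (hMle i hi2.2 x (hI hx)).1
    have h4 := abs_nonneg (m i - m i0)
    nlinarith
  · intro x hx hcrit
    have hxI := hI hx
    have e1 : |g x - W i0 x| ≤ D N := by
      have : g x - W i0 x = ∑ i ∈ s', a i ^ N * W i x := by
        simp only [hg]
        rw [hsplit (fun i => W i x)]
        ring
      rw [this]
      apply hsmall
      intro i hi
      have hi2 := Finset.mem_erase.1 hi
      have h3 := (hMle i hi2.2 x hxI).1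
      have h4 := abs_nonneg (m i - m i0)
      nlinarith
    have e2 : |W1 i0 x| ≤ D N := by
      have : g1 x - W1 i0 x = ∑ i ∈ s', a i ^ N * W1 i x := by
        simp only [hg1']
        rw [hsplit (fun i => W1 i x)]
        ring
      rw [hcrit, zero_sub] at this
      rw [← abs_neg, this]
      apply hsmall
      intro i hi
      have hi2 := Finset.mem_erase.1 hi
      have h3 := (hMle i hi2.2 x hxI).2
      have h4 := abs_nonneg (m i - m i0)
      nlinarith
    have hcx := hc x hxI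
    have h5 : W1 i0 x ^ 2 ≤ (c / 4) ^ 2 := by
      rw [← sq_abs]
      exact pow_le_pow_left₀ (abs_nonneg _) (e2.trans hDN1.le) 2
    have h6 : c / 2 ≤ |W i0 x| := by
      by_contra hcon
      push Not at hcon
      have : W i0 x ^ 2 ≤ (c / 2) ^ 2 := by
        rw [← sq_abs]
        exact pow_le_pow_left₀ (abs_nonneg _) hcon.le 2
      nlinarith
    have h7 : |W i0 x| ≤ |g x| + |g x - W i0 x| := by
      have := abs_sub_abs_le_abs_sub (W i0 x) (g x)
      rw [abs_sub_comm] at this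
      linarith
    simp only [hc']
    linarith

end Pool.Agent.Y315.NL
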