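import Pool.Agent.Y315.NL.Sphere

set_option autoImplicit false

open MeasureTheory Set Filter Topology
open scoped ContDiff ENNReal

noncomputable section

namespace Pool.Agent.Y315.NL

/-- the gap lemma for the iterates of the backward flow, uniform in the modes -/
theorem limgapU {ι : Type} [DecidableEq ι] (s : Finset ι) (m : ι → ℝ) (M c : ℝ)
    (i0 : ι) (hi0 : i0 ∈ s) (hmin : ∀ i ∈ s, i ≠ i0 → m i0 < m i) (hc0 : 0 < c)
    (K : ℝ) (hK : ∀ i ∈ s, m i < K) {κ κ' : ℝ} (h0 : 0 < κ) (hκ : κ < κ') :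
    ∃ N0 : ℕ, ∀ N ≥ N0, ∀ (W W1 : ι → ℝ → ℝ) (V : ℝ → ℝ) (I : Set ℝ),
      (∀ i ∈ s, ∀ x, HasDerivAt (W i) (W1 i x) x) →
      (∀ i ∈ s, ∀ x, HasDerivAt (W1 i) ((m i - V x) * W i x) x) →
      (∀ i ∈ s, ∀ x ∈ I, |W i x| ≤ M ∧ |W1 i x| ≤ M) →
      (∀ x ∈ I, c ^ 2 ≤ W i0 x ^ 2 + W1 i0 x ^ 2) → ∀ z₁ z₂, z₁ < z₂ → Icc z₁ z₂ ⊆ I →
      (∑ i ∈ s, (K - m i) ^ N * W i z₁ = 0) → (∑ i ∈ s, (K - m i) ^ N * W i z₂ = 0) →
      (∀ x ∈ Icc z₁ z₂, V x - m i0 ≤ κ ^ 2) → Real.pi / κ' < z₂ - z₁ := by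
  have hK0 : 0 < K - m i0 := by linarith [hK i0 hi0]
  -- ratio
  set a : ι → ℝ := fun i => (K - m i) / (K - m i0) with ha
  have ha0 : ∀ i ∈ s, 0 < a i := fun i hi => div_pos (by linarith [hK i hi]) hK0
  have ha1 : ∀ i ∈ s, i ≠ i0 → a i < 1 := by
    intro i hi hne
    rw [ha]
    simp only
    rw [div_lt_one hK0]
    linarith [hmin i hi hne]
  have hai0 : a i0 = 1 := by
    rw [ha]
    exact div_self hK0.ne'
  -- the error function
  set s' := s.erase i0 with hs'
  have hM0 : 0 ≤ |M| := abs_nonneg M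
  set D : ℕ → ℝ := fun N => ∑ i ∈ s', a i ^ N * ((1 + |m i - m i0|) * |M|) with hD
  have hDlim : Tendsto D atTop (𝓝 0) := by
    have : Tendsto D atTop (𝓝 (∑ i ∈ s', 0 * ((1 + |m i - m i0|) * |M|))) := by
      apply tendsto_finsetSum
      intro i hi
      have hi2 := Finset.mem_erase.1 hi
      exact (tendsto_pow_atTop_nhds_zero_of_lt_one (ha0 i hi2.2).le
        (ha1 i hi2.2 hi2.1)).mul_const _
    simpa using this
  set c' := c / 4 with hc'
  have hc'0 : 0 < c' := by positivity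
  have hthr := thr_pos h0 hκ
  have hev : ∀ᶠ N in atTop, D N < min (c / 4) (thr κ κ' * c') :=
    hDlim.eventually (gt_mem_nhds (lt_min (by positivity) (mul_pos hthr hc'0)))
  obtain ⟨N0, hN0⟩ := eventually_atTop.1 hev
  refine ⟨N0, fun N hN W W1 V I h1 h2 hM hc z₁ z₂ hz hI hg1 hg2 hQ => ?_⟩
  have hDN := hN0 N hN
  have hDN1 : D N < c / 4 := lt_of_lt_of_le hDN (min_le_left _ _)
  have hDN2 : D N < thr κ κ' * c' := lt_of_lt_of_le hDN (min_le_right _ _)
  set g : ℝ → ℝ := fun x => ∑ i ∈ s, a i ^ N * W i x with hg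
  set g1 : ℝ → ℝ := fun x => ∑ i ∈ s, a i ^ N * W1 i x with hg1'
  set g2 : ℝ → ℝ := fun x => ∑ i ∈ s, a i ^ N * ((m i - V x) * W i x) with hg2'
  have hgd : ∀ x, HasDerivAt g (g1 x) x := by
    intro x
    apply HasDerivAt.fun_sum
    intro i hi
    exact (h1 i hi x).const_mul _
  have hg1d : ∀ x, HasDerivAt g1 (g2 x) x := by
    intro x
    apply HasDerivAt.fun_sum
    intro i hi
    exact (h2 i hi x).const_mul _
  have hscale : ∀ x, ∑ i ∈ s, (K - m i) ^ N * W i x = (K - m i0) ^ N * g x := by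
    intro x
    rw [hg, Finset.mul_sum]
    apply Finset.sum_congr rfl
    intro i hi
    rw [ha]
    simp only
    rw [div_pow]
    field_simp
  have hgz1 : g z₁ = 0 := by
    rw [hscale] at hg1
    exact (mul_eq_zero.1 hg1).resolve_left (pow_ne_zero _ hK0.ne')
  have hgz2 : g z₂ = 0 := by
    rw [hscale] at hg2
    exact (mul_eq_zero.1 hg2).resolve_left (pow_ne_zero _ hK0.ne')
  have hsplit : ∀ (X : ι → ℝ), ∑ i ∈ s, a i ^ N * X i = X i0 + ∑ i ∈ s', a i ^ N * X i := by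
    intro X
    rw [← Finset.add_sum_erase s _ hi0, hai0, one_pow, one_mul]
  have hsmall : ∀ (X : ι → ℝ), (∀ i ∈ s', |X i| ≤ (1 + |m i - m i0|) * |M|) →
      |∑ i ∈ s', a i ^ N * X i| ≤ D N := by
    intro X hX
    refine le_trans (Finset.abs_sum_le_sum_abs _ _) ?_
    apply Finset.sum_le_sum
    intro i hi
    have hi2 := Finset.mem_erase.1 hi
    rw [abs_mul, abs_of_nonneg (pow_nonneg (ha0 i hi2.2).le N)]
    exact mul_le_mul_of_nonneg_left (hX i hi) (pow_nonneg (ha0 i hi2.2).le N)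
  have hMle : ∀ i ∈ s, ∀ x ∈ I, |W i x| ≤ |M| ∧ |W1 i x| ≤ |M| := fun i hi x hx =>
    ⟨(hM i hi x hx).1.trans (le_abs_self M), (hM i hi x hx).2.trans (le_abs_self M)⟩
  refine gap h0 hκ (g := g) (g1 := g1) (g2 := g2) (Q := fun x => V x - m i0)
    (e := fun x => ∑ i ∈ s', a i ^ N * ((m i - m i0) * W i x)) (c := c') (η := D N) hz hgd hg1d
    hgz1 hgz2 ?_ hQ ?_ ?_ hc'0 hDN2
  · intro x hx
    simp only [hg2', hg]
    rw [hsplit (fun i => (m i - V x) * W i x), hsplit (fun i => W i x)]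
    have : ∑ i ∈ s', a i ^ N * ((m i - V x) * W i x)
        = ∑ i ∈ s', a i ^ N * ((m i - m i0) * W i x)
          - (V x - m i0) * ∑ i ∈ s', a i ^ N * W i x := by
      rw [Finset.mul_sum, ← Finset.sum_sub_distrib]
      apply Finset.sum_congr rfl
      intro i _
      ring
    rw [this]
    ring
  · intro x hx
    apply hsmall
    intro i hi
    have hi2 := Finset.mem_erase.1 hi
    rw [abs_mul]
    have h3 := (hMle i hi2.2 x (hI hx)).1
    have h4 := abs_nonneg (m i - m i0)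
    nlinarith
  · intro x hx hcrit
    have hxI := hI hx
    have e1 : |g x - W i0 x| ≤ D N := by
      have : g x - W i0 x = ∑ i ∈ s', a i ^ N * W i x := by
        simp only [hg]
        rw [hsplit (fun i => W i x)]
        ring
      rw [this]
      apply hsmall
      intro i hi
      have hi2 := Finset.mem_erase.1 hi
      have h3 := (hMle i hi2.2 x hxI).1
      have h4 := abs_nonneg (m i - m i0)
      nlinarith
    have e2 : |W1 i0 x| ≤ D N := by
      have : g1 x - W1 i0 x = ∑ i ∈ s', a i ^ N * W1 i x := by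
        simp only [hg1']
        rw [hsplit (fun i => W1 i x)]
        ring
      rw [hcrit, zero_sub] at this
      rw [← abs_neg, this]
      apply hsmall
      intro i hi
      have hi2 := Finset.mem_erase.1 hi
      have h3 := (hMle i hi2.2 x hxI).2
      have h4 := abs_nonneg (m i - m i0)
      nlinarith
    have hcx := hc x hxI
    have h5 : W1 i0 x ^ 2 ≤ (c / 4) ^ 2 := by
      rw [← sq_abs]
      exact pow_le_pow_left₀ (abs_nonneg _) (e2.trans hDN1.le) 2
    have h6 : c / 2 ≤ |W i0 x| := by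
      by_contra hcon
      push Not at hcon
      have : W i0 x ^ 2 ≤ (c / 2) ^ 2 := by
        rw [← sq_abs]
        exact pow_le_pow_left₀ (abs_nonneg _) hcon.le 2
      nlinarith
    have h7 : |W i0 x| ≤ |g x| + |g x - W i0 x| := by
      have := abs_sub_abs_le_abs_sub (W i0 x) (g x)
      rw [abs_sub_comm] at this
      linarith
    simp only [hc']
    linarith

end Pool.Agent.Y315.NL
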