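import Pool.Agent.Y315.NL.Gap

set_option autoImplicit false

open MeasureTheory Set Filter Topology
open scoped ContDiff ENNReal

noncomputable section

namespace Pool.Agent.Y315.NL

/-- `m` zeros in one period -/
def PZ (w : ℝ → ℝ) (L : ℝ) (m : ℕ) : Prop :=
  ∃ t : ℕ → ℝ, (∀ i < m, t i < t (i + 1)) ∧ t m = t 0 + L ∧ ∀ i ≤ m, w (t i) = 0

theorem seq_mono {t : ℕ → ℝ} {m : ℕ} (h : ∀ i < m, t i < t (i + 1)) :
    ∀ j ≤ m, ∀ i ≤ j, t i ≤ t j := by
  intro j
  induction j with
  | zero =>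
    intro _ i hi
    rw [Nat.le_zero.1 hi]
  | succ n ih =>
    intro hn i hi
    rcases Nat.lt_or_ge i (n + 1) with h1 | h1
    · have := ih (by omega) i (by omega)
      have := h n (by omega)
      linarith
    · have : i = n + 1 := by omega
      rw [this]

theorem perStep {w w1 w2 V : ℝ → ℝ} {K L : ℝ} {m : ℕ} (_hL : 0 < L) (hm : 1 ≤ m)
    (h1 : ∀ x, HasDerivAt w (w1 x) x) (h2 : ∀ x, HasDerivAt w1 (w2 x) x)
    (hw2 : Continuous w2) (hV : Continuous V) (hK : ∀ x, V x < K)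
    (hper : ∀ x, w (x + L) = w x)
    (hperf : ∀ x, (K - V (x + L)) * w (x + L) - w2 (x + L) = (K - V x) * w x - w2 x)
    (h : PZ w L m) : PZ (fun x => (K - V x) * w x - w2 x) L m := by
  obtain ⟨t, hinc, htm, hz⟩ := h
  have hmono := seq_mono hinc
  set f : ℝ → ℝ := fun x => (K - V x) * w x - w2 x with hf
  have hperf' : ∀ x, f (x + L) = f x := hperf
  by_cases hcase : ∃ i < m, ∀ x ∈ Icc (t i) (t (i + 1)), w x = 0
  · obtain ⟨i, hi, hflat⟩ := hcase
    have hfl := flat h1 h2 hflat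
    set d := t (i + 1) - t i with hd
    have hd0 : 0 < d := sub_pos.2 (hinc i hi)
    have hdL : d ≤ L := by
      have e1 := hmono m le_rfl (i + 1) (by omega)
      have e2 := hmono i (by omega) 0 (by omega)
      simp only [hd]
      linarith
    have hm1 : (0 : ℝ) < (m : ℝ) + 1 := by positivity
    have hin : ∀ j : ℕ, j < m → t i + ((j : ℝ) + 1) * (d / (m + 1)) ∈ Ioo (t i) (t (i + 1)) := by
      intro j hj
      have hq : 0 < d / (m + 1) := by positivity
      have hj' : (j : ℝ) + 1 < (m : ℝ) + 1 := by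
        have : (j : ℝ) < m := by exact_mod_cast hj
        linarith
      constructor
      · have : 0 < ((j : ℝ) + 1) * (d / (m + 1)) := by positivity
        linarith
      · have e3 : ((j : ℝ) + 1) * (d / (m + 1)) < ((m : ℝ) + 1) * (d / (m + 1)) :=
          mul_lt_mul_of_pos_right hj' hq
        have e4 : ((m : ℝ) + 1) * (d / (m + 1)) = d := by field_simp
        simp only [hd] at e4 e3 ⊢
        linarith
    have hfz : ∀ j : ℕ, j < m → f (t i + ((j : ℝ) + 1) * (d / (m + 1))) = 0 := by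
      intro j hj
      obtain ⟨e1, e2⟩ := hfl _ (hin j hj)
      simp only [hf]
      rw [e1, e2]
      ring
    refine ⟨fun j => if j < m then t i + ((j : ℝ) + 1) * (d / (m + 1))
      else t i + (((0 : ℕ) : ℝ) + 1) * (d / (m + 1)) + L, ?_, ?_, ?_⟩
    · intro j hj
      have hq : 0 < d / (m + 1) := by positivity
      simp only [hj, if_true]
      by_cases hj1 : j + 1 < m
      · simp only [hj1, if_true]
        push_cast
        nlinarith
      · simp only [hj1, if_false]
        have e1 := (hin j hj).2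
        have : 0 < (((0 : ℕ) : ℝ) + 1) * (d / (m + 1)) := by positivity
        simp only [hd] at hdL
        linarith
    · have h0 : 0 < m := hm
      simp [h0]
    · intro j hj
      by_cases hj1 : j < m
      · simp only [hj1, if_true]
        exact hfz j hj1
      · simp only [hj1, if_false]
        rw [hperf']
        exact hfz 0 hm
  · push Not at hcase
    have hex : ∀ i : ℕ, ∃ s : ℝ, i < m → s ∈ Ioo (t i) (t (i + 1)) ∧ 0 < w s * f s := by
      intro i
      by_cases hi : i < m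
      · obtain ⟨x0, hx0, hne⟩ := hcase i hi
        rcases bump (V := V) (K := K) h1 h2 (t := t i) (t' := t (i + 1))
          (fun x _ => hK x) (hz i hi.le) (hz (i + 1) hi) with h | ⟨s, hs, hs2⟩
        · exact absurd (h x0 hx0) hne
        · exact ⟨s, fun _ => ⟨hs, hs2⟩⟩
      · exact ⟨0, fun h => absurd h hi⟩
    choose σ hσ using hex
    set s : ℕ → ℝ := fun j => if j < m then σ j else σ 0 + L with hs
    have hs_lt : ∀ j, j < m → s j = σ j := fun j hj => by simp [hs, hj]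
    have hs_m : s m = σ 0 + L := by simp [hs]
    have hbt : ∀ i : ℕ, ∃ z : ℝ, i < m → z ∈ Ioo (s i) (s (i + 1)) ∧ f z = 0 := by
      intro i
      by_cases hi : i < m
      · obtain ⟨e1, e2⟩ := hσ i hi
        rcases Nat.lt_or_ge (i + 1) m with hi1 | hi1
        · obtain ⟨e3, e4⟩ := hσ (i + 1) hi1
          obtain ⟨z, hz1, hz2⟩ := between (V := V) (K := K) (t := t (i + 1)) h1 h2 hw2 hV
            (fun x _ => hK x) e1.2 e3.1 (hz (i + 1) hi) e2 e4
          refine ⟨z, fun _ => ⟨?_, hz2⟩⟩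
          rw [hs_lt i hi, hs_lt (i + 1) hi1]
          exact hz1
        · have him : i + 1 = m := by omega
          obtain ⟨e3, e4⟩ := hσ 0 hm
          have e5 : t (i + 1) < σ 0 + L := by
            rw [him, htm]
            linarith [e3.1]
          have e6 : 0 < w (σ 0 + L) * f (σ 0 + L) := by
            rw [hper, hperf']
            exact e4
          obtain ⟨z, hz1, hz2⟩ := between (V := V) (K := K) (t := t (i + 1)) h1 h2 hw2 hV
            (fun x _ => hK x) e1.2 e5 (hz (i + 1) hi) e2 e6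
          refine ⟨z, fun _ => ⟨?_, hz2⟩⟩
          rw [hs_lt i hi, him, hs_m]
          exact hz1
      · exact ⟨0, fun h => absurd h hi⟩
    choose ζ hζ using hbt
    refine ⟨fun j => if j < m then ζ j else ζ 0 + L, ?_, ?_, ?_⟩
    · intro j hj
      simp only [hj, if_true]
      by_cases hj1 : j + 1 < m
      · simp only [hj1, if_true]
        have e1 := (hζ j hj).1.2
        have e2 := (hζ (j + 1) hj1).1.1
        linarith
      · simp only [hj1, if_false]
        have him : j + 1 = m := by omega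
        have e1 := (hζ j hj).1.2
        rw [him, hs_m] at e1
        have e2 := (hζ 0 hm).1.1
        rw [hs_lt 0 hm] at e2
        linarith
    · have h0 : 0 < m := hm
      simp [h0]
    · intro j hj
      by_cases hj1 : j < m
      · simp only [hj1, if_true]
        exact (hζ j hj1).2
      · simp only [hj1, if_false]
        rw [hperf']
        exact (hζ 0 hm).2

/-- a finite set of zeros in a window of length less than `L` gives `PZ` -/
theorem pz_of_finset {w : ℝ → ℝ} {L : ℝ} (hper : ∀ x, w (x + L) = w x) (S : Finset ℝ)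
    (hS : ∀ t ∈ S, w t = 0) (hw : ∀ s ∈ S, ∀ t ∈ S, t - s < L) (hne : 1 ≤ S.card) :
    PZ w L S.card := by
  set m := S.card with hm
  set e := S.orderEmbOfFin hm.symm with he
  refine ⟨fun j => if h : j < m then e ⟨j, h⟩ else e ⟨0, hne⟩ + L, ?_, ?_, ?_⟩
  · intro i hi
    simp only [hi, dif_pos]
    by_cases hi1 : i + 1 < m
    · simp only [hi1, dif_pos]
      exact e.strictMono (by simp)
    · simp only [hi1]
      have := hw _ (S.orderEmbOfFin_mem hm.symm ⟨0, hne⟩) _ (S.orderEmbOfFin_mem hm.symm ⟨i, hi⟩)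
      simp only [dif_neg (not_false)]
      linarith
  · have h0 : 0 < m := hne
    simp [h0]
  · intro i hi
    by_cases hi1 : i < m
    · simp only [hi1, dif_pos]
      exact hS _ (S.orderEmbOfFin_mem hm.symm ⟨i, hi1⟩)
    · simp only [hi1]
      simp only [dif_neg (not_false)]
      rw [hper]
      exact hS _ (S.orderEmbOfFin_mem hm.symm ⟨0, hne⟩)

/-- all iterates of the backward flow have at least as many zeros in a period -/
theorem iter {ι : Type} (s : Finset ι) (m : ι → ℝ) (W W1 : ι → ℝ → ℝ)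
    (V : ℝ → ℝ) (hV : Continuous V) (h1 : ∀ i ∈ s, ∀ x, HasDerivAt (W i) (W1 i x) x)
    (h2 : ∀ i ∈ s, ∀ x, HasDerivAt (W1 i) ((m i - V x) * W i x) x) {L : ℝ} (hL : 0 < L)
    (hVp : ∀ x, V (x + L) = V x) (hWp : ∀ i ∈ s, ∀ x, W i (x + L) = W i x)
    (K : ℝ) (hK : ∀ x, V x < K) {n : ℕ} (hn : 1 ≤ n) (h : PZ (fun x => ∑ i ∈ s, W i x) L n) :
    ∀ N : ℕ, PZ (fun x => ∑ i ∈ s, (K - m i) ^ N * W i x) L n := by
  intro N
  induction N with
  | zero => simpa using h
  | succ N ih =>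
    have hWc : ∀ i ∈ s, Continuous (W i) := fun i hi =>
      continuous_iff_continuousAt.2 (fun x => (h1 i hi x).continuousAt)
    have key := perStep (w := fun x => ∑ i ∈ s, (K - m i) ^ N * W i x)
      (w1 := fun x => ∑ i ∈ s, (K - m i) ^ N * W1 i x)
      (w2 := fun x => ∑ i ∈ s, (K - m i) ^ N * ((m i - V x) * W i x)) (V := V) (K := K)
      hL hn (fun x => HasDerivAt.fun_sum fun i hi => (h1 i hi x).const_mul _)
      (fun x => HasDerivAt.fun_sum fun i hi => (h2 i hi x).const_mul _)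
      (continuous_finsetSum _ fun i hi => continuous_const.mul
        ((continuous_const.sub hV).mul (hWc i hi))) hV hK
      (fun x => Finset.sum_congr rfl fun i hi => by rw [hWp i hi x])
      (fun x => by
        rw [hVp]
        congr 1
        · congr 1
          exact Finset.sum_congr rfl fun i hi => by rw [hWp i hi x]
        · exact Finset.sum_congr rfl fun i hi => by rw [hWp i hi x]) ih
    have heq : (fun x => (K - V x) * (∑ i ∈ s, (K - m i) ^ N * W i x)
        - ∑ i ∈ s, (K - m i) ^ N * ((m i - V x) * W i x))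
        = fun x => ∑ i ∈ s, (K - m i) ^ (N + 1) * W i x := by
      funext x
      rw [Finset.mul_sum, ← Finset.sum_sub_distrib]
      apply Finset.sum_congr rfl
      intro i _
      ring
    rw [heq] at key
    exact key

/-- a continuous periodic function is bounded -/
theorem per_bdd {w : ℝ → ℝ} {L : ℝ} (hL : 0 < L) (hper : ∀ x, w (x + L) = w x)
    (hc : Continuous w) : ∃ M : ℝ, ∀ x, |w x| ≤ M := by
  obtain ⟨M, hM⟩ := isCompact_Icc.exists_bound_of_continuousOn (s := Icc 0 L) hc.continuousOn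
  have hp : Function.Periodic w L := hper
  refine ⟨M, fun x => ?_⟩
  obtain ⟨y, hy, hxy⟩ := hp.exists_mem_Ico₀ hL x
  rw [hxy]
  have := hM y ⟨hy.1, hy.2.le⟩
  simpa using this

/-- a continuous periodic positive function is bounded below by a positive constant -/
theorem per_pos {w : ℝ → ℝ} {L : ℝ} (hL : 0 < L) (hper : ∀ x, w (x + L) = w x)
    (hc : Continuous w) (hpos : ∀ x, 0 < w x) : ∃ c : ℝ, 0 < c ∧ ∀ x, c ≤ w x := by
  obtain ⟨x0, hx0, hmin⟩ := isCompact_Icc.exists_isMinOn (s := Icc 0 L) ⟨0, by simp [hL.le]⟩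
    hc.continuousOn
  have hp : Function.Periodic w L := hper
  refine ⟨w x0, hpos x0, fun x => ?_⟩
  obtain ⟨y, hy, hxy⟩ := hp.exists_mem_Ico₀ hL x
  rw [hxy]
  exact hmin (show y ∈ Icc 0 L from ⟨hy.1, hy.2.le⟩)

/-- **Sturm-Hurwitz zero count**, periodic case, with a minimal mode -/
theorem zero_count {ι : Type} [DecidableEq ι] (s : Finset ι) (m : ι → ℝ) (W W1 : ι → ℝ → ℝ)
    (V : ℝ → ℝ) (hV : Continuous V) (h1 : ∀ i ∈ s, ∀ x, HasDerivAt (W i) (W1 i x) x)
    (h2 : ∀ i ∈ s, ∀ x, HasDerivAt (W1 i) ((m i - V x) * W i x) x) {L κ : ℝ} (hL : 0 < L)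
    (hκ : 0 < κ) (hVp : ∀ x, V (x + L) = V x) (hWp : ∀ i ∈ s, ∀ x, W i (x + L) = W i x)
    (hQ : ∀ i ∈ s, ∀ x, V x - m i ≤ κ ^ 2)
    (i0 : ι) (hi0 : i0 ∈ s) (hmin : ∀ i ∈ s, i ≠ i0 → m i0 < m i) (hne : ∃ x, W i0 x ≠ 0)
    (S : Finset ℝ) (hS : ∀ t ∈ S, ∑ i ∈ s, W i t = 0) (hSw : ∀ a ∈ S, ∀ b ∈ S, b - a < L) :
    (S.card : ℝ) ≤ L * κ / Real.pi := by
  rcases Nat.eq_zero_or_pos S.card with h0 | hcard
  · rw [h0]
    have := Real.pi_pos
    simp only [Nat.cast_zero]
    positivity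
  by_contra hcon
  push Not at hcon
  have hπ := Real.pi_pos
  set n := S.card with hn
  have hn0 : (0 : ℝ) < n := by exact_mod_cast hcard
  have hlt : κ < n * Real.pi / L := by
    rw [lt_div_iff₀ hL]
    rw [div_lt_iff₀ hπ] at hcon
    linarith
  obtain ⟨κ', hk1, hk2⟩ := exists_between hlt
  have hκ' : 0 < κ' := hκ.trans hk1
  -- K
  obtain ⟨MV, hMV⟩ := per_bdd hL hVp hV
  have hKex : ∃ K : ℝ, (∀ x, V x < K) ∧ ∀ i ∈ s, m i < K := by
    refine ⟨MV + 1 + ∑ i ∈ s, |m i|, ?_, ?_⟩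
    · intro x
      have e1 := (abs_le.1 (hMV x)).2
      have e2 : 0 ≤ ∑ i ∈ s, |m i| := Finset.sum_nonneg fun i _ => abs_nonneg _
      linarith
    · intro i hi
      have e1 : |m i| ≤ ∑ i ∈ s, |m i| :=
        Finset.single_le_sum (f := fun i => |m i|) (fun i _ => abs_nonneg _) hi
      have e2 := le_abs_self (m i)
      have e3 : 0 ≤ MV := le_trans (abs_nonneg _) (hMV 0)
      linarith
  obtain ⟨K, hK1, hK2⟩ := hKex
  have hWc : ∀ i ∈ s, Continuous (W i) := fun i hi =>
      continuous_iff_continuousAt.2 (fun x => (h1 i hi x).continuousAt)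
  have hW1c : ∀ i ∈ s, Continuous (W1 i) := fun i hi =>
      continuous_iff_continuousAt.2 (fun x => (h2 i hi x).continuousAt)
  have hW1p : ∀ i ∈ s, ∀ x, W1 i (x + L) = W1 i x := by
    intro i hi x
    have e1 := (h1 i hi (x + L)).comp_add_const x L
    have e2 : (fun y => W i (y + L)) = W i := by
      funext y
      exact hWp i hi y
    rw [e2] at e1
    exact e1.unique (h1 i hi x)
  -- bounds
  have hbd : ∃ M : ℝ, ∀ i ∈ s, ∀ x ∈ (univ : Set ℝ), |W i x| ≤ M ∧ |W1 i x| ≤ M := by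
    have e1 : ∀ i : ι, ∃ M : ℝ, 0 ≤ M ∧ (i ∈ s → ∀ x, |W i x| ≤ M ∧ |W1 i x| ≤ M) := by
      intro i
      by_cases hi : i ∈ s
      · obtain ⟨M1, hM1⟩ := per_bdd hL (hWp i hi) (hWc i hi)
        obtain ⟨M2, hM2⟩ := per_bdd hL (hW1p i hi) (hW1c i hi)
        refine ⟨max M1 M2, le_trans (le_trans (abs_nonneg _) (hM1 0)) (le_max_left _ _),
          fun _ x => ⟨(hM1 x).trans (le_max_left _ _), (hM2 x).trans (le_max_right _ _)⟩⟩
      · exact ⟨0, le_rfl, fun h => absurd h hi⟩
    choose M hM0 hM using e1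
    refine ⟨∑ i ∈ s, M i, fun i hi x _ => ?_⟩
    have e2 : M i ≤ ∑ i ∈ s, M i :=
      Finset.single_le_sum (f := M) (fun i _ => hM0 i) hi
    exact ⟨(hM i hi x).1.trans e2, (hM i hi x).2.trans e2⟩
  obtain ⟨M, hM⟩ := hbd
  -- positive lower bound
  have hpos : ∀ x, 0 < W i0 x ^ 2 + W1 i0 x ^ 2 := by
    intro x
    by_contra hc
    push Not at hc
    have e1 : W i0 x = 0 := by
      have : W i0 x ^ 2 = 0 := le_antisymm (by nlinarith [sq_nonneg (W1 i0 x)]) (sq_nonneg _)
      exact pow_eq_zero_iff (two_ne_zero) |>.1 this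
    have e2 : W1 i0 x = 0 := by
      have : W1 i0 x ^ 2 = 0 := le_antisymm (by nlinarith [sq_nonneg (W i0 x)]) (sq_nonneg _)
      exact pow_eq_zero_iff (two_ne_zero) |>.1 this
    obtain ⟨y, hy⟩ := hne
    exact hy (nodouble (A := fun x => m i0 - V x) (continuous_const.sub hV) (h1 i0 hi0)
      (h2 i0 hi0) e1 e2 y)
  obtain ⟨c2, hc2, hc2'⟩ := per_pos hL (w := fun x => W i0 x ^ 2 + W1 i0 x ^ 2)
    (fun x => by rw [hWp i0 hi0, hW1p i0 hi0])
    (((hWc i0 hi0).pow 2).add ((hW1c i0 hi0).pow 2)) hpos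
  obtain ⟨N0, hN0⟩ := limgap s m W W1 V h1 h2 univ M (√c2) hM i0 hi0 hmin
    (Real.sqrt_pos.2 hc2) (fun x _ => by rw [Real.sq_sqrt hc2.le]; exact hc2' x) K hK2 hκ hk1
  obtain ⟨t, hinc, htm, hz⟩ := iter s m W W1 V hV h1 h2 hL hVp hWp K hK1 hcard
    (pz_of_finset (w := fun x => ∑ i ∈ s, W i x) (fun x => Finset.sum_congr rfl
      fun i hi => by rw [hWp i hi x]) S hS hSw hcard) N0
  have hgap : ∀ i < n, Real.pi / κ' < t (i + 1) - t i := by
    intro i hi
    exact hN0 N0 le_rfl (t i) (t (i + 1)) (hinc i hi) (subset_univ _) (hz i hi.le)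
      (hz (i + 1) hi) (fun x _ => hQ i0 hi0 x)
  have hsum : (n : ℝ) * (Real.pi / κ') ≤ ∑ i ∈ Finset.range n, (t (i + 1) - t i) := by
    calc (n : ℝ) * (Real.pi / κ') = ∑ i ∈ Finset.range n, (Real.pi / κ') := by simp
      _ ≤ _ := Finset.sum_le_sum fun i hi => (hgap i (Finset.mem_range.1 hi)).le
  rw [Finset.sum_range_sub, htm] at hsum
  have e1 : (n : ℝ) * (Real.pi / κ') ≤ L := by linarith
  have e2 : (n : ℝ) * Real.pi / L ≤ κ' := by
    rw [div_le_iff₀ hL]
    have : (n : ℝ) * (Real.pi / κ') = n * Real.pi / κ' := by ring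
    rw [this, div_le_iff₀ hκ'] at e1
    linarith
  linarith

/-- **Sturm-Hurwitz zero count**, periodic case -/
theorem zero_count' {ι : Type} [DecidableEq ι] (m : ι → ℝ) (W W1 : ι → ℝ → ℝ)
    (V : ℝ → ℝ) (hV : Continuous V) {L κ : ℝ} (hL : 0 < L)
    (hκ : 0 < κ) (hVp : ∀ x, V (x + L) = V x) (s : Finset ι) :
    (∀ i ∈ s, ∀ x, HasDerivAt (W i) (W1 i x) x) →
    (∀ i ∈ s, ∀ x, HasDerivAt (W1 i) ((m i - V x) * W i x) x) →
    (∀ i ∈ s, ∀ x, W i (x + L) = W i x) → (∀ i ∈ s, ∀ x, V x - m i ≤ κ ^ 2) →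
    (∀ i ∈ s, ∀ j ∈ s, m i = m j → i = j) → (∃ x, ∑ i ∈ s, W i x ≠ 0) →
    ∀ (S : Finset ℝ), (∀ t ∈ S, ∑ i ∈ s, W i t = 0) → (∀ a ∈ S, ∀ b ∈ S, b - a < L) →
    (S.card : ℝ) ≤ L * κ / Real.pi := by
  induction hk : s.card generalizing s with
  | zero =>
    intro _ _ _ _ _ hne
    obtain ⟨x, hx⟩ := hne
    rw [Finset.card_eq_zero.1 hk] at hx
    simp at hx
  | succ k ih =>
    intro h1 h2 hWp hQ hinj hne S hS hSw
    have hsne : s.Nonempty := by
      rw [← Finset.card_pos, hk]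
      omega
    obtain ⟨i0, hi0, hmin⟩ := s.exists_min_image m hsne
    by_cases hW0 : ∃ x, W i0 x ≠ 0
    · refine zero_count s m W W1 V hV h1 h2 hL hκ hVp hWp hQ i0 hi0 ?_ hW0 S hS hSw
      intro i hi hne2
      exact lt_of_le_of_ne (hmin i hi) (fun h => hne2 (hinj i0 hi0 i hi h).symm)
    · push Not at hW0
      have herase : ∀ x, ∑ i ∈ s, W i x = ∑ i ∈ s.erase i0, W i x := by
        intro x
        rw [← Finset.add_sum_erase s _ hi0, hW0 x, zero_add]
      have hsub : ∀ i ∈ s.erase i0, i ∈ s := fun i hi => Finset.mem_of_mem_erase hi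
      refine ih (s.erase i0) (by rw [Finset.card_erase_of_mem hi0, hk]; rfl)
        (fun i hi => h1 i (hsub i hi)) (fun i hi => h2 i (hsub i hi))
        (fun i hi => hWp i (hsub i hi)) (fun i hi => hQ i (hsub i hi))
        (fun i hi j hj => hinj i (hsub i hi) j (hsub j hj)) ?_ S ?_ hSw
      · obtain ⟨x, hx⟩ := hne
        exact ⟨x, by rwa [← herase]⟩
      · intro t ht
        rw [← herase]
        exact hS t ht

end Pool.Agent.Y315.NL
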