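import Pool.Agent.Y315.NL.Per
import Pool.Agent.Y315.NL.CellP

set_option autoImplicit false

open MeasureTheory Set Filter Topology
open scoped ContDiff ENNReal

noncomputable section

namespace Pool.Agent.Y315.NL

theorem hasDerivAt_dx {F : ℝ × ℝ → ℝ} (hF : ContDiff ℝ 1 F) (x y : ℝ) :
    HasDerivAt (fun t => F (t, y)) (dx F (x, y)) x := by
  have h1 := (hF.differentiable (by norm_num) (x, y)).hasFDerivAt
  have h2 : HasDerivAt (fun t : ℝ => (t, y)) ((1 : ℝ), (0 : ℝ)) x :=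
    (hasDerivAt_id x).prodMk (hasDerivAt_const x y)
  exact h1.comp_hasDerivAt x h2

theorem hasDerivAt_dy {F : ℝ × ℝ → ℝ} (hF : ContDiff ℝ 1 F) (x y : ℝ) :
    HasDerivAt (fun t => F (x, t)) (dy F (x, y)) y := by
  have h1 := (hF.differentiable (by norm_num) (x, y)).hasFDerivAt
  have h2 : HasDerivAt (fun t : ℝ => (x, t)) ((0 : ℝ), (1 : ℝ)) y :=
    (hasDerivAt_const y x).prodMk (hasDerivAt_id y)
  exact h1.comp_hasDerivAt y h2

theorem contDiff_dx {F : ℝ × ℝ → ℝ} (hF : ContDiff ℝ ∞ F) : ContDiff ℝ ∞ (dx F) :=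
  (hF.fderiv_right (m := ∞) (by simp)).clm_apply contDiff_const

theorem contDiff_dy {F : ℝ × ℝ → ℝ} (hF : ContDiff ℝ ∞ F) : ContDiff ℝ ∞ (dy F) :=
  (hF.fderiv_right (m := ∞) (by simp)).clm_apply contDiff_const

theorem one_le_inf : (1 : WithTop ℕ∞) ≤ ((⊤ : ℕ∞) : WithTop ℕ∞) := by
  exact_mod_cast le_top

/-- a periodic solution of `u'' = A u` with `A > 0` vanishes -/
theorem conv0 {u u1 A : ℝ → ℝ} {L : ℝ} (hL : 0 < L) (h1 : ∀ x, HasDerivAt u (u1 x) x)
    (h2 : ∀ x, HasDerivAt u1 (A x * u x) x) (hp : ∀ x, u (x + L) = u x)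
    (hA : ∀ x, 0 < A x) : ∀ x, u x = 0 := by
  have hu : Continuous u := continuous_iff_continuousAt.2 (fun x => (h1 x).continuousAt)
  have hper : Function.Periodic u L := hp
  have key : ∀ (v v1 : ℝ → ℝ), Continuous v → (∀ x, HasDerivAt v (v1 x) x) →
      (∀ x, HasDerivAt v1 (A x * v x) x) → Function.Periodic v L → ∀ x, v x ≤ 0 := by
    intro v v1 hv g1 g2 hvp x
    obtain ⟨x0, hx0, hmax⟩ := isCompact_Icc.exists_isMaxOn (s := Icc 0 L) ⟨0, by simp [hL.le]⟩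
      hv.continuousOn
    have hglob : ∀ y, v y ≤ v x0 := by
      intro y
      obtain ⟨z, hz, hyz⟩ := hvp.exists_mem_Ico₀ hL y
      rw [hyz]
      exact hmax (show z ∈ Icc 0 L from ⟨hz.1, hz.2.le⟩)
    have hsec := sec_max g1 g2 (a := x0 - 1) (b := x0 + 1) (s := x0)
      ⟨by linarith, by linarith⟩ (fun y _ => hglob y)
    have : v x0 ≤ 0 := by
      by_contra hc
      push Not at hc
      have := mul_pos (hA x0) hc
      linarith
    exact (hglob x).trans this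
  intro x
  have e1 := key u u1 hu h1 h2 hper x
  have e2 := key (fun x => - u x) (fun x => - u1 x) hu.neg (fun x => (h1 x).neg)
    (fun x => (h2 x).neg.congr_deriv (by ring)) (fun x => by simp only [hp x]) x
  linarith

/-- finite set of zeros from a uniform bound -/
theorem count_fin {Z : Set ℝ} {C : ℝ} (h : ∀ S : Finset ℝ, (∀ t ∈ S, t ∈ Z) → (S.card : ℝ) ≤ C) :
    Z.Finite := by
  by_contra hinf
  obtain ⟨S, hS, hcard⟩ := Set.Infinite.exists_subset_card_eq hinf (⌈C⌉₊ + 1)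
  have h1 := h S (fun t ht => hS ht)
  rw [hcard] at h1
  have h2 := Nat.le_ceil C
  push_cast at h1
  linarith

/-- a set whose finite subsets in windows of length `< L` are bounded is countable -/
theorem count_cover {Z : Set ℝ} {L C : ℝ} (hL : 0 < L)
    (h : ∀ S : Finset ℝ, (∀ t ∈ S, t ∈ Z) → (∀ a ∈ S, ∀ b ∈ S, b - a < L) → (S.card : ℝ) ≤ C) :
    Z.Countable := by
  have hsub : Z ⊆ ⋃ k : ℤ, (Z ∩ Icc ((k : ℝ) * (L / 2)) (((k : ℝ) + 1) * (L / 2))) := by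
    intro x hx
    rw [mem_iUnion]
    refine ⟨⌊x / (L / 2)⌋, hx, ?_, ?_⟩
    · have := Int.floor_le (x / (L / 2))
      rwa [le_div_iff₀ (by positivity)] at this
    · have := (Int.lt_floor_add_one (x / (L / 2))).le
      rwa [div_le_iff₀ (by positivity)] at this
  refine Set.Countable.mono hsub (Set.countable_iUnion fun k => Set.Finite.countable ?_)
  apply count_fin (C := C)
  intro S hS
  apply h S (fun t ht => (hS t ht).1)
  intro a ha b hb
  have e1 := (hS a ha).2.1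
  have e2 := (hS b hb).2.2
  nlinarith

/-- from windows of length `< L` to the slightly larger window -/
theorem window {w : ℝ → ℝ} {L C η : ℝ} (hL : 0 < L) (hη : η ≤ L / 8)
    (h : ∀ S : Finset ℝ, (∀ t ∈ S, w t = 0) → (∀ a ∈ S, ∀ b ∈ S, b - a < L) → (S.card : ℝ) ≤ C) :
    ZB w (0 - η) (L + η) (2 * C) := by
  intro S hS hSw
  have h1 := h (S.filter (fun t => t < 3 * L / 4)) (fun t ht => hS t (Finset.mem_filter.1 ht).1)
    (by
      intro a ha b hb
      have e1 := (hSw a (Finset.mem_filter.1 ha).1).1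
      have e2 := (Finset.mem_filter.1 hb).2
      linarith)
  have h2 := h (S.filter (fun t => ¬ t < 3 * L / 4)) (fun t ht => hS t (Finset.mem_filter.1 ht).1)
    (by
      intro a ha b hb
      have e1 := (hSw b (Finset.mem_filter.1 hb).1).2
      have e2 := (Finset.mem_filter.1 ha).2
      push Not at e2
      linarith)
  have h3 := Finset.card_filter_add_card_filter_not (s := S) (fun t => t < 3 * L / 4)
  have h4 : (S.card : ℝ) = ((S.filter (fun t => t < 3 * L / 4)).card : ℝ)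
      + ((S.filter (fun t => ¬ t < 3 * L / 4)).card : ℝ) := by
    exact_mod_cast h3.symm
  linarith

/-- zero counts on all horizontal and vertical lines -/
theorem lines (hdec : S_DEC) {L P κ : ℝ} {q r : ℝ → ℝ} {F : ℝ × ℝ → ℝ} (hL : 0 < L) (hP : 0 < P)
    (hκ : 0 < κ) (hq : ContDiff ℝ ∞ q) (hr : ContDiff ℝ ∞ r) (hqp : ∀ x, q (x + L) = q x)
    (hrp : ∀ y, r (y + P) = r y) (hQ : ∀ x y, q x + r y ≤ κ ^ 2) (hF : Sol L P q r F) :
    (∀ y, (∃ x, F (x, y) ≠ 0) → ∀ S : Finset ℝ, (∀ t ∈ S, F (t, y) = 0) →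
      (∀ a ∈ S, ∀ b ∈ S, b - a < L) → (S.card : ℝ) ≤ L * κ / Real.pi) ∧
    (∀ x, (∃ y, F (x, y) ≠ 0) → ∀ S : Finset ℝ, (∀ t ∈ S, F (x, t) = 0) →
      (∀ a ∈ S, ∀ b ∈ S, b - a < P) → (S.card : ℝ) ≤ P * κ / Real.pi) := by
  classical
  obtain ⟨s, G, hG, hsum⟩ := hdec L P q r hL hP hq hr hqp hrp F hF
  set s' := s.filter (fun μ => ∃ p, G μ p ≠ 0) with hs'
  have hs's : ∀ μ ∈ s', μ ∈ s := fun μ hμ => (Finset.mem_filter.1 hμ).1
  have hsum' : ∀ p, F p = ∑ μ ∈ s', G μ p := by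
    intro p
    rw [hsum p, hs', Finset.sum_filter]
    apply Finset.sum_congr rfl
    intro μ _
    split_ifs with h
    · rfl
    · push Not at h
      exact h p
  have hd1 : ∀ μ ∈ s', ∀ x y, HasDerivAt (fun t => G μ (t, y)) (dx (G μ) (x, y)) x :=
    fun μ hμ x y => hasDerivAt_dx ((hG μ (hs's μ hμ)).1.of_le one_le_inf) x y
  have hd2 : ∀ μ ∈ s', ∀ x y, HasDerivAt (fun t => dx (G μ) (t, y))
      ((μ - q x) * G μ (x, y)) x := by
    intro μ hμ x y
    rw [← (hG μ (hs's μ hμ)).2.2.2.1 x y]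
    exact hasDerivAt_dx ((contDiff_dx (hG μ (hs's μ hμ)).1).of_le one_le_inf) x y
  have hd3 : ∀ μ ∈ s', ∀ x y, HasDerivAt (fun t => G μ (x, t)) (dy (G μ) (x, y)) y :=
    fun μ hμ x y => hasDerivAt_dy ((hG μ (hs's μ hμ)).1.of_le one_le_inf) x y
  have hd4 : ∀ μ ∈ s', ∀ x y, HasDerivAt (fun t => dy (G μ) (x, t))
      ((-μ - r y) * G μ (x, y)) y := by
    intro μ hμ x y
    rw [← (hG μ (hs's μ hμ)).2.2.2.2 x y]
    exact hasDerivAt_dy ((contDiff_dy (hG μ (hs's μ hμ)).1).of_le one_le_inf) x y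
  have hlow : ∀ μ ∈ s', ∃ y, -μ ≤ r y := by
    intro μ hμ
    by_contra hcon
    push Not at hcon
    obtain ⟨⟨x, y⟩, hp⟩ := (Finset.mem_filter.1 hμ).2
    exact hp (conv0 (A := fun y => -μ - r y) hP (fun y => hd3 μ hμ x y) (fun y => hd4 μ hμ x y)
      (fun y => (hG μ (hs's μ hμ)).2.2.1 x y) (fun y => by linarith [hcon y]) y)
  have hupp : ∀ μ ∈ s', ∃ x, μ ≤ q x := by
    intro μ hμ
    by_contra hcon
    push Not at hcon
    obtain ⟨⟨x, y⟩, hp⟩ := (Finset.mem_filter.1 hμ).2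
    exact hp (conv0 (A := fun x => μ - q x) hL (fun x => hd1 μ hμ x y) (fun x => hd2 μ hμ x y)
      (fun x => (hG μ (hs's μ hμ)).2.1 x y) (fun x => by linarith [hcon x]) x)
  constructor
  · intro y hne S hS hSw
    refine zero_count' (fun μ : ℝ => μ) (fun μ x => G μ (x, y)) (fun μ x => dx (G μ) (x, y)) q
      hq.continuous hL hκ hqp s' (fun μ hμ x => hd1 μ hμ x y) (fun μ hμ x => hd2 μ hμ x y)
      (fun μ hμ x => (hG μ (hs's μ hμ)).2.1 x y) ?_ (fun i _ j _ h => h) ?_ S ?_ hSw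
    · intro μ hμ x
      obtain ⟨y', hy'⟩ := hlow μ hμ
      linarith [hQ x y']
    · obtain ⟨x, hx⟩ := hne
      exact ⟨x, by rwa [hsum'] at hx⟩
    · intro t ht
      have := hS t ht
      rwa [hsum'] at this
  · intro x hne S hS hSw
    refine zero_count' (fun μ : ℝ => -μ) (fun μ y => G μ (x, y)) (fun μ y => dy (G μ) (x, y)) r
      hr.continuous hP hκ hrp s' (fun μ hμ y => hd3 μ hμ x y) (fun μ hμ y => hd4 μ hμ x y)
      (fun μ hμ y => (hG μ (hs's μ hμ)).2.2.1 x y) ?_ (fun i _ j _ h => neg_injective h) ?_ S ?_ hSw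
    · intro μ hμ y
      obtain ⟨x', hx'⟩ := hupp μ hμ
      linarith [hQ x' y]
    · obtain ⟨y, hy⟩ := hne
      exact ⟨y, by rwa [hsum'] at hy⟩
    · intro t ht
      have := hS t ht
      rwa [hsum'] at this

/-- covering numbers and length -/
theorem torus (hcov : S_COV) (hlen : S_LEN) (hdec : S_DEC) {L P κ : ℝ} {q r : ℝ → ℝ}
    {F : ℝ × ℝ → ℝ} (hL : 0 < L) (hP : 0 < P)
    (hκ : 0 < κ) (hq : ContDiff ℝ ∞ q) (hr : ContDiff ℝ ∞ r) (hqp : ∀ x, q (x + L) = q x)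
    (hrp : ∀ y, r (y + P) = r y) (hQ : ∀ x y, 0 ≤ q x + r y ∧ q x + r y ≤ κ ^ 2)
    (hF : Sol L P q r F) (hne : ∃ p, F p ≠ 0) :
    (∀ h : ℝ, 0 < h → h ≤ 1 / κ → h ≤ L / 16 → h ≤ P / 16 → ∃ T : Finset (ℝ × ℝ),
      (T.card : ℝ) ≤ 4 * (((L - 0) / h + 2) * (2 * (P * κ / Real.pi)) +
        ((P - 0) / h + 2) * (2 * (L * κ / Real.pi))) ∧
      ∀ x y, 0 ≤ x → x ≤ L → 0 ≤ y → y ≤ P → F (x, y) = 0 →
        ∃ p ∈ T, p.1 ≤ x ∧ x ≤ p.1 + h ∧ p.2 ≤ y ∧ y ≤ p.2 + h) ∧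
    μH[1] {p : EuclideanSpace ℝ (Fin 2) |
        0 ≤ p 0 ∧ p 0 ≤ L ∧ 0 ≤ p 1 ∧ p 1 ≤ P ∧ F (p 0, p 1) = 0}
      ≤ ENNReal.ofReal (16 * √2 / Real.pi * (L * P * κ)) := by
  obtain ⟨hh, hv⟩ := lines hdec hL hP hκ hq hr hqp hrp (fun x y => (hQ x y).2) hF
  obtain ⟨⟨xs, ys⟩, hs⟩ := hne
  have hFs := hF.1
  have hF1 : ContDiff ℝ 1 F := hFs.of_le one_le_inf
  have hcont : Continuous (fun p : ℝ × ℝ => F (p.1, p.2)) := hFs.continuous
  set Bx : Set ℝ := {x | ∀ y, F (x, y) = 0} with hBx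
  set By : Set ℝ := {y | ∀ x, F (x, y) = 0} with hBy
  have hBxc : Bx.Countable := count_cover (L := L) (C := L * κ / Real.pi) hL
    (fun S hS hw => hh ys ⟨xs, hs⟩ S (fun t ht => hS t ht ys) hw)
  have hByc : By.Countable := count_cover (L := P) (C := P * κ / Real.pi) hP
    (fun S hS hw => hv xs ⟨ys, hs⟩ S (fun t ht => hS t ht xs) hw)
  set η := min (L / 8) (P / 8) with hη
  have hηL : η ≤ L / 8 := min_le_left _ _
  have hηP : η ≤ P / 8 := min_le_right _ _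
  have hcell : Cell (fun x y => F (x, y)) (1 / κ) := cell hκ (fun x y => F (x, y))
    (fun x y => dx F (x, y)) (fun x y => dx (dx F) (x, y)) (fun x y => dy F (x, y))
    (fun x y => dy (dy F) (x, y)) (fun x y => q x + r y) hcont
    (fun x y => hasDerivAt_dx hF1 x y)
    (fun x y => hasDerivAt_dx ((contDiff_dx hFs).of_le one_le_inf) x y)
    (fun x y => hasDerivAt_dy hF1 x y)
    (fun x y => hasDerivAt_dy ((contDiff_dy hFs).of_le one_le_inf) x y)
    hF.2.2.2 hQ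
  have hπ := Real.pi_pos
  have hA : 0 ≤ 2 * (P * κ / Real.pi) := by positivity
  have hB : 0 ≤ 2 * (L * κ / Real.pi) := by positivity
  have hcv : ∀ h : ℝ, 0 < h → h ≤ 1 / κ → 2 * h ≤ η → ∃ T : Finset (ℝ × ℝ),
      (T.card : ℝ) ≤ 4 * (((L - 0) / h + 2) * (2 * (P * κ / Real.pi)) +
        ((P - 0) / h + 2) * (2 * (L * κ / Real.pi))) ∧
      ∀ x y, 0 ≤ x → x ≤ L → 0 ≤ y → y ≤ P → F (x, y) = 0 →
        ∃ p ∈ T, p.1 ≤ x ∧ x ≤ p.1 + h ∧ p.2 ≤ y ∧ y ≤ p.2 + h := by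
    intro h h0 h1 h2
    exact hcov 0 L 0 P (2 * (P * κ / Real.pi)) (2 * (L * κ / Real.pi)) η (1 / κ)
      (fun x y => F (x, y)) Bx By hL hP hA hB hcont hBxc hByc
      (fun x hx => window hP hηP (fun S hS hw => hv x (by
        by_contra hc
        push Not at hc
        exact hx hc) S hS hw))
      (fun y hy => window hL hηL (fun S hS hw => hh y (by
        by_contra hc
        push Not at hc
        exact hy hc) S hS hw))
      hcell h h0 h1 h2
  refine ⟨fun h h0 h1 h2 h3 => hcv h h0 h1 (le_min (by linarith) (by linarith)), ?_⟩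
  have hη0 : 0 < η := lt_min (by positivity) (by positivity)
  have key := hlen 0 L 0 P (2 * (P * κ / Real.pi)) (2 * (L * κ / Real.pi)) (min (1 / κ) (η / 2))
    (fun x y => F (x, y)) hL hP hA hB (lt_min (by positivity) (by positivity))
    (fun h h0 h1 => hcv h h0 (h1.trans (min_le_left _ _))
      (by linarith [h1.trans (min_le_right (1 / κ) (η / 2))]))
  refine key.trans (le_of_eq ?_)
  congr 1
  field_simp
  ring

end Pool.Agent.Y315.NL
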