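import Pool.Agent.Y315.NL.ZLine
import Pool.Agent.Y315.NL.Torus

set_option autoImplicit false

open MeasureTheory Set Filter Topology
open scoped ContDiff ENNReal

noncomputable section

namespace Pool.Agent.Y315.NL

theorem contDiff_dx2 {F : ℝ × ℝ → ℝ} (hF : ContDiff ℝ 2 F) : ContDiff ℝ 1 (dx F) :=
  (hF.fderiv_right (m := 1) (by norm_num)).clm_apply contDiff_const

theorem contDiff_dy2 {F : ℝ × ℝ → ℝ} (hF : ContDiff ℝ 2 F) : ContDiff ℝ 1 (dy F) :=
  (hF.fderiv_right (m := 1) (by norm_num)).clm_apply contDiff_const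

/-- zero count on the circles, for trigonometric polynomials -/
theorem circle_count (hfou : S_FOU) {φ : ℝ × ℝ → ℝ} {V : ℝ → ℝ} {B : ℝ} (hB0 : 0 < B)
    (hφ : ContDiff ℝ 2 φ) (hV : Continuous V) (hper : ∀ x y, φ (x, y + 2 * Real.pi) = φ (x, y))
    (heq : ∀ x y, dx (dx φ) (x, y) + dy (dy φ) (x, y) + V x * φ (x, y) = 0)
    (n : ℕ) (hn : (n : ℝ) ≤ √B) (x : ℝ) (hvan : ∀ k > n, ∀ y, FM φ k x y = 0)
    (hne : ∃ y, φ (x, y) ≠ 0) (S : Finset ℝ) (hS : ∀ t ∈ S, φ (x, t) = 0)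
    (hSw : ∀ a ∈ S, ∀ b ∈ S, b - a < 2 * Real.pi) : (S.card : ℝ) ≤ 2 * √B := by
  obtain ⟨_, _, f3, _, f5⟩ := hfou φ V hφ hV hper heq
  choose α β hαβ using fun k => f3 k x
  have hexp := f5 n x hvan
  have hκ : 0 < √B := Real.sqrt_pos.2 hB0
  have hlin : ∀ (k : ℕ) (y : ℝ), HasDerivAt (fun y => (k : ℝ) * y) (k : ℝ) y := by
    intro k y
    have := (hasDerivAt_id y).const_mul (k : ℝ)
    simpa using this
  have key := zero_count' (ι := ℕ) (fun k => -(k : ℝ) ^ 2) (fun k y => FM φ k x y)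
    (fun k y => α k * (-(Real.sin (k * y)) * k) + β k * (Real.cos (k * y) * k))
    (fun _ => 0) continuous_const (L := 2 * Real.pi) (κ := √B) (by positivity) hκ (fun _ => rfl)
    (Finset.range (n + 1))
    (fun k _ y => by
      have e1 : (fun y => FM φ k x y) = fun y => α k * Real.cos (k * y) + β k * Real.sin (k * y) := by
        funext y
        exact hαβ k y
      rw [e1]
      exact ((hlin k y).cos.const_mul (α k)).add ((hlin k y).sin.const_mul (β k)))
    (fun k _ y => by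
      have e2 : HasDerivAt (fun y => α k * (-(Real.sin (k * y)) * k) + β k * (Real.cos (k * y) * k))
          (α k * (-(Real.cos (k * y) * k) * k) + β k * (-(Real.sin (k * y)) * k * k)) y :=
        ((((hlin k y).sin.neg).mul_const (k : ℝ)).const_mul (α k)).add
          (((hlin k y).cos.mul_const (k : ℝ)).const_mul (β k))
      refine e2.congr_deriv ?_
      rw [hαβ k y]
      ring)
    (fun k _ y => by
      rw [hαβ k, hαβ k]
      have e3 : (k : ℝ) * (y + 2 * Real.pi) = k * y + k * (2 * Real.pi) := by ring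
      rw [e3, Real.cos_add_nat_mul_two_pi, Real.sin_add_nat_mul_two_pi])
    (fun k hk y => by
      have e4 : (k : ℝ) ≤ n := by
        have := Finset.mem_range.1 hk
        exact_mod_cast (by omega : k ≤ n)
      have e5 : (k : ℝ) ≤ √B := e4.trans hn
      have e6 : (k : ℝ) ^ 2 ≤ √B ^ 2 := pow_le_pow_left₀ (by positivity) e5 2
      linarith)
    (fun i _ j _ h => by
      have h1 : (i : ℝ) ^ 2 = (j : ℝ) ^ 2 := by linarith
      have h2 : (i : ℝ) = j := by
        rwa [sq_eq_sq₀ (by positivity) (by positivity)] at h1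
      exact_mod_cast h2)
    (by
      obtain ⟨y, hy⟩ := hne
      exact ⟨y, by rwa [hexp y] at hy⟩)
    S (fun t ht => by
      have := hS t ht
      rwa [hexp t] at this) hSw
  have hπ := Real.pi_pos
  calc (S.card : ℝ) ≤ 2 * Real.pi * √B / Real.pi := key
    _ = 2 * √B := by field_simp

/-- lines and lengths on the cylinder -/
theorem sphere (hcov : S_COV) (hlen : S_LEN) (hfou : S_FOU) (hline : S_LINE) (hasy : S_ASY)
    (htail : S_TAIL) {φ : ℝ × ℝ → ℝ} {V : ℝ → ℝ} {B M : ℝ} (hB : 1 ≤ B)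
    (hφ : ContDiff ℝ 2 φ) (hV : Continuous V) (hper : ∀ x y, φ (x, y + 2 * Real.pi) = φ (x, y))
    (heq : ∀ x y, dx (dx φ) (x, y) + dy (dy φ) (x, y) + V x * φ (x, y) = 0)
    (hVB : ∀ x, 0 ≤ V x ∧ V x ≤ B * Real.exp (-2 * |x|)) (hM : ∀ p, |φ p| ≤ M)
    (hne : ∃ p, φ p ≠ 0) :
    (∀ x, (∃ y, φ (x, y) ≠ 0) → ∀ S : Finset ℝ, (∀ t ∈ S, φ (x, t) = 0) →
      (∀ a ∈ S, ∀ b ∈ S, b - a < 2 * Real.pi) → (S.card : ℝ) ≤ 2 * √B) ∧
    (∀ y, (∃ x, φ (x, y) ≠ 0) → ∀ S : Finset ℝ, (∀ t ∈ S, φ (t, y) = 0) →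
      (S.card : ℝ) ≤ 12 * √B) ∧
    ∀ a : ℝ, μH[1] {p : EuclideanSpace ℝ (Fin 2) |
        a ≤ p 0 ∧ p 0 ≤ a + 1 ∧ 0 ≤ p 1 ∧ p 1 ≤ 2 * Real.pi ∧ φ (p 0, p 1) = 0}
      ≤ ENNReal.ofReal (500 * √B) := by
  obtain ⟨f1, f2, f3, f4, f5⟩ := hfou φ V hφ hV hper heq
  have hB0 : 0 < B := by linarith
  have hκ : 0 < √B := Real.sqrt_pos.2 hB0
  set n := ⌊√B⌋₊ with hn
  have hnB : (n : ℝ) ≤ √B := Nat.floor_le hκ.le
  have hvan : ∀ k > n, ∀ x y, FM φ k x y = 0 := by
    intro k hk x y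
    have e1 : √B < k := by
      have h1 := Nat.lt_floor_add_one (√B)
      have h2 : (n : ℝ) + 1 ≤ k := by exact_mod_cast hk
      simp only [hn] at h2
      linarith
    have e2 : B < (k : ℝ) ^ 2 := by
      have := Real.sq_sqrt hB0.le
      nlinarith
    exact (hasy k B (2 * M) V (fun s => FM φ k s y) (fun s => FM (dx φ) k s y) hV hVB
      (fun s => f1 k s y) (fun s => f2 k s y) (fun s => f4 k s y M (fun t => hM _))).2.2.2 e2 x
  have hV1 : ∀ x, (∃ y, φ (x, y) ≠ 0) → ∀ S : Finset ℝ, (∀ t ∈ S, φ (x, t) = 0) →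
      (∀ a ∈ S, ∀ b ∈ S, b - a < 2 * Real.pi) → (S.card : ℝ) ≤ 2 * √B :=
    fun x hx S hS hSw => circle_count hfou hB0 hφ hV hper heq n hnB x
      (fun k hk y => hvan k hk x y) hx S hS hSw
  have hH1 : ∀ y, (∃ x, φ (x, y) ≠ 0) → ∀ S : Finset ℝ, (∀ t ∈ S, φ (t, y) = 0) →
      (S.card : ℝ) ≤ 12 * √B := by
    intro y hy S hS
    refine zline hline hasy htail hV hB hVB n hnB (fun k x => FM φ k x y)
      (fun k x => FM (dx φ) k x y) (fun k _ x => f1 k x y) (fun k _ x => f2 k x y) (2 * M)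
      (fun k _ x => f4 k x y M (fun t => hM _)) ?_ S ?_
    · obtain ⟨x, hx⟩ := hy
      exact ⟨x, by rwa [f5 n x (fun k hk y => hvan k hk x y) y] at hx⟩
    · intro t ht
      have := hS t ht
      rwa [f5 n t (fun k hk y => hvan k hk t y) y] at this
  refine ⟨hV1, hH1, fun a => ?_⟩
  obtain ⟨⟨xs, ys⟩, hs⟩ := hne
  have hπ := Real.pi_pos
  have hcont : Continuous (fun p : ℝ × ℝ => φ (p.1, p.2)) := hφ.continuous
  have hφ1 : ContDiff ℝ 1 φ := hφ.of_le (by norm_num)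
  set Bx : Set ℝ := {x | ∀ y, φ (x, y) = 0} with hBx
  set By : Set ℝ := {y | ∀ x, φ (x, y) = 0} with hBy
  have hBxc : Bx.Countable := (count_fin (Z := Bx) (C := 12 * √B)
    (fun S hS => hH1 ys ⟨xs, hs⟩ S (fun t ht => hS t ht ys))).countable
  have hByc : By.Countable := count_cover (L := 2 * Real.pi) (C := 2 * √B) (by positivity)
    (fun S hS hw => hV1 xs ⟨ys, hs⟩ S (fun t ht => hS t ht xs) hw)
  have hsq : (√B) ^ 2 = B := Real.sq_sqrt hB0.le
  have hcell : Cell (fun x y => φ (x, y)) (1 / √B) := cell hκ (fun x y => φ (x, y))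
    (fun x y => dx φ (x, y)) (fun x y => dx (dx φ) (x, y)) (fun x y => dy φ (x, y))
    (fun x y => dy (dy φ) (x, y)) (fun x _ => V x) hcont
    (fun x y => hasDerivAt_dx hφ1 x y)
    (fun x y => hasDerivAt_dx (contDiff_dx2 hφ) x y)
    (fun x y => hasDerivAt_dy hφ1 x y)
    (fun x y => hasDerivAt_dy (contDiff_dy2 hφ) x y)
    heq (fun x y => ⟨(hVB x).1, by
      rw [hsq]
      refine (hVB x).2.trans ?_
      have : Real.exp (-2 * |x|) ≤ 1 := by
        rw [Real.exp_le_one_iff]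
        have := abs_nonneg x
        linarith
      nlinarith⟩)
  have hA : 0 ≤ 2 * (2 * √B) := by positivity
  have hB' : 0 ≤ 12 * √B := by positivity
  have hη : (0 : ℝ) < 2 * Real.pi / 8 := by positivity
  have key := hlen a (a + 1) 0 (2 * Real.pi) (2 * (2 * √B)) (12 * √B)
    (min (1 / √B) (2 * Real.pi / 8 / 2))
    (fun x y => φ (x, y)) (by linarith) (by positivity) hA hB'
    (lt_min (by positivity) (by positivity))
    (fun h h0 h1 => hcov a (a + 1) 0 (2 * Real.pi) (2 * (2 * √B)) (12 * √B) (2 * Real.pi / 8)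
      (1 / √B) (fun x y => φ (x, y)) Bx By (by linarith) (by positivity) hA hB' hcont hBxc hByc
      (fun x hx => window (by positivity) le_rfl (fun S hS hw => hV1 x (by
        by_contra hc
        push Not at hc
        exact hx hc) S hS hw))
      (fun y hy S hS _ => hH1 y (by
        by_contra hc
        push Not at hc
        exact hy hc) S hS)
      hcell h h0 (h1.trans (min_le_left _ _))
      (by linarith [h1.trans (min_le_right (1 / √B) (2 * Real.pi / 8 / 2))]))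
  refine key.trans (ENNReal.ofReal_le_ofReal ?_)
  have hπ4 : Real.pi < 3.15 := Real.pi_lt_d2
  have h2 : √2 ≤ 1.415 := by
    rw [Real.sqrt_le_left (by norm_num)]
    norm_num
  have h20 : 0 ≤ √2 := Real.sqrt_nonneg _
  have e1 : (a + 1 - a) * (2 * (2 * √B)) + (2 * Real.pi - 0) * (12 * √B)
      ≤ 79.6 * √B := by
    nlinarith
  have e2 : 0 ≤ (a + 1 - a) * (2 * (2 * √B)) + (2 * Real.pi - 0) * (12 * √B) := by
    have : (a + 1 - a) = 1 := by ring
    rw [this, sub_zero]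
    positivity
  calc 4 * √2 * ((a + 1 - a) * (2 * (2 * √B)) + (2 * Real.pi - 0) * (12 * √B))
      ≤ 4 * 1.415 * (79.6 * √B) := by
        apply mul_le_mul _ e1 e2 (by norm_num)
        linarith
    _ ≤ 500 * √B := by nlinarith

end Pool.Agent.Y315.NL
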