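import Mathlib

/-!
# Nodal length of eigenfunctions on Liouville tori and on spheres with a circle symmetry

Statements (as Props) of the steps.  Everything is elementary: zeros of finite sums of solutions of
`u'' = (mu - V) u` on the line, the maximum principle on small squares, counting of squares.
-/

set_option autoImplicit false

open MeasureTheory Set Filter Topology
open scoped ContDiff ENNReal

noncomputable section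

namespace Pool.Agent.Y315.NL

/-- every finite set of zeros of `w` in `[a, b]` has at most `C` elements -/
def ZB (w : ℝ → ℝ) (a b C : ℝ) : Prop :=
  ∀ S : Finset ℝ, (∀ t ∈ S, w t = 0) → (∀ t ∈ S, a ≤ t ∧ t ≤ b) → (S.card : ℝ) ≤ C

/-- `w` has at least `m` distinct zeros -/
def NZ (w : ℝ → ℝ) (m : ℕ) : Prop := ∃ S : Finset ℝ, S.card = m ∧ ∀ t ∈ S, w t = 0

/-- small rectangles without zeros on the boundary have no zeros -/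
def Cell (φ : ℝ → ℝ → ℝ) (d : ℝ) : Prop :=
  ∀ x₀ x₁ y₀ y₁ : ℝ, x₀ < x₁ → y₀ < y₁ → x₁ - x₀ ≤ d → y₁ - y₀ ≤ d →
    (∀ x ∈ Icc x₀ x₁, φ x y₀ ≠ 0 ∧ φ x y₁ ≠ 0) →
    (∀ y ∈ Icc y₀ y₁, φ x₀ y ≠ 0 ∧ φ x₁ y ≠ 0) →
    ∀ x ∈ Icc x₀ x₁, ∀ y ∈ Icc y₀ y₁, φ x y ≠ 0

/-- COV: covering of the zero set by small squares -/
def S_COV : Prop :=
  ∀ (a b c e A B η d : ℝ) (φ : ℝ → ℝ → ℝ) (Bx By : Set ℝ),
    a < b → c < e → 0 ≤ A → 0 ≤ B → Continuous (fun p : ℝ × ℝ => φ p.1 p.2) →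
    Bx.Countable → By.Countable →
    (∀ x, x ∉ Bx → ZB (φ x) (c - η) (e + η) A) →
    (∀ y, y ∉ By → ZB (fun x => φ x y) (a - η) (b + η) B) →
    Cell φ d → ∀ h : ℝ, 0 < h → h ≤ d → 2 * h ≤ η →
    ∃ F : Finset (ℝ × ℝ),
      (F.card : ℝ) ≤ 4 * (((b - a) / h + 2) * A + ((e - c) / h + 2) * B) ∧
      ∀ x y, a ≤ x → x ≤ b → c ≤ y → y ≤ e → φ x y = 0 →
        ∃ p ∈ F, p.1 ≤ x ∧ x ≤ p.1 + h ∧ p.2 ≤ y ∧ y ≤ p.2 + h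

/-- LEN: from the coverings to the length (`Cov` is the conclusion of COV for all small `h`) -/
def S_LEN : Prop :=
  ∀ (a b c e A B h₀ : ℝ) (φ : ℝ → ℝ → ℝ), a < b → c < e → 0 ≤ A → 0 ≤ B → 0 < h₀ →
    (∀ h : ℝ, 0 < h → h ≤ h₀ → ∃ F : Finset (ℝ × ℝ),
      (F.card : ℝ) ≤ 4 * (((b - a) / h + 2) * A + ((e - c) / h + 2) * B) ∧
      ∀ x y, a ≤ x → x ≤ b → c ≤ y → y ≤ e → φ x y = 0 →
        ∃ p ∈ F, p.1 ≤ x ∧ x ≤ p.1 + h ∧ p.2 ≤ y ∧ y ≤ p.2 + h) →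
    μH[1] {p : EuclideanSpace ℝ (Fin 2) |
        a ≤ p 0 ∧ p 0 ≤ b ∧ c ≤ p 1 ∧ p 1 ≤ e ∧ φ (p 0) (p 1) = 0}
      ≤ ENNReal.ofReal (4 * √2 * ((b - a) * A + (e - c) * B))

/-- derivative in the first variable -/
def dx (F : ℝ × ℝ → ℝ) : ℝ × ℝ → ℝ := fun p => fderiv ℝ F p (1, 0)

/-- derivative in the second variable -/
def dy (F : ℝ × ℝ → ℝ) : ℝ × ℝ → ℝ := fun p => fderiv ℝ F p (0, 1)

/-- smooth doubly periodic solutions of `F_xx + F_yy + (q(x) + r(y)) F = 0` -/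
def Sol (L P : ℝ) (q r : ℝ → ℝ) (F : ℝ × ℝ → ℝ) : Prop :=
  ContDiff ℝ ∞ F ∧ (∀ x y, F (x + L, y) = F (x, y)) ∧ (∀ x y, F (x, y + P) = F (x, y)) ∧
  ∀ x y, dx (dx F) (x, y) + dy (dy F) (x, y) + (q x + r y) * F (x, y) = 0

/-- DIM: a solution with zero mean on all small rectangles vanishes -/
def S_DIM : Prop :=
  ∀ (L P K : ℝ) (q r : ℝ → ℝ), 0 < L → 0 < P → 0 < K → Continuous q → Continuous r →
    (∀ x y, q x + r y ≤ K ^ 2) → ∀ n : ℕ, K * L < n → K * P < n →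
    ∀ F, Sol L P q r F →
    (∀ i < n, ∀ j < n, ∫ y in ((j : ℝ) * (P / n))..(((j : ℝ) + 1) * (P / n)),
      ∫ x in ((i : ℝ) * (L / n))..(((i : ℝ) + 1) * (L / n)), F (x, y) = 0) →
    ∀ p, F p = 0

/-- DEC: every solution is a finite sum of solutions of both ordinary differential equations -/
def S_DEC : Prop :=
  ∀ (L P : ℝ) (q r : ℝ → ℝ), 0 < L → 0 < P → ContDiff ℝ ∞ q → ContDiff ℝ ∞ r →
    (∀ x, q (x + L) = q x) → (∀ y, r (y + P) = r y) → ∀ F, Sol L P q r F →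
    ∃ (s : Finset ℝ) (G : ℝ → ℝ × ℝ → ℝ),
      (∀ μ ∈ s, ContDiff ℝ ∞ (G μ) ∧ (∀ x y, G μ (x + L, y) = G μ (x, y)) ∧
        (∀ x y, G μ (x, y + P) = G μ (x, y)) ∧
        (∀ x y, dx (dx (G μ)) (x, y) = (μ - q x) * G μ (x, y)) ∧
        (∀ x y, dy (dy (G μ)) (x, y) = (-μ - r y) * G μ (x, y))) ∧
      ∀ p, F p = ∑ μ ∈ s, G μ p

/-- the `k`-th Fourier component in the second variable (period `2 pi`) -/
def FM (φ : ℝ × ℝ → ℝ) (k : ℕ) (x y : ℝ) : ℝ :=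
  (if k = 0 then 1 / (2 * Real.pi) else 1 / Real.pi) *
    ∫ t in (0 : ℝ)..(2 * Real.pi), φ (x, t) * Real.cos (k * (y - t))

/-- FOU: Fourier components of a solution of `φ_xx + φ_yy + V(x) φ = 0` -/
def S_FOU : Prop :=
  ∀ (φ : ℝ × ℝ → ℝ) (V : ℝ → ℝ), ContDiff ℝ 2 φ → Continuous V →
    (∀ x y, φ (x, y + 2 * Real.pi) = φ (x, y)) →
    (∀ x y, dx (dx φ) (x, y) + dy (dy φ) (x, y) + V x * φ (x, y) = 0) →
    (∀ k x y, HasDerivAt (fun s => FM φ k s y) (FM (dx φ) k x y) x) ∧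
    (∀ k x y, HasDerivAt (fun s => FM (dx φ) k s y) (((k : ℝ) ^ 2 - V x) * FM φ k x y) x) ∧
    (∀ k x, ∃ α β : ℝ, ∀ y, FM φ k x y = α * Real.cos (k * y) + β * Real.sin (k * y)) ∧
    (∀ k x y M, (∀ t, |φ (x, t)| ≤ M) → |FM φ k x y| ≤ 2 * M) ∧
    (∀ n x, (∀ k > n, ∀ y, FM φ k x y = 0) →
      ∀ y, φ (x, y) = ∑ k ∈ Finset.range (n + 1), FM φ k x y)

/-- LINE: the backward step on the whole line loses no zeros -/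
def S_LINE : Prop :=
  ∀ (w w1 w2 V : ℝ → ℝ) (K ℓ₁ ℓ₂ : ℝ), (∀ x, HasDerivAt w (w1 x) x) →
    (∀ x, HasDerivAt w1 (w2 x) x) → Continuous w2 → Continuous V → 0 < K → (∀ x, V x < K) →
    Tendsto V atTop (𝓝 0) → Tendsto V atBot (𝓝 0) →
    Tendsto w atTop (𝓝 ℓ₁) → Tendsto w atBot (𝓝 ℓ₂) →
    Tendsto w2 atTop (𝓝 0) → Tendsto w2 atBot (𝓝 0) →
    ∀ m : ℕ, NZ w m → NZ (fun x => (K - V x) * w x - w2 x) m

/-- ASY: bounded solutions of `u'' = (k^2 - V) u` for a potential `0 ≤ V ≤ B exp (-2 |x|)` -/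
def S_ASY : Prop :=
  ∀ (k : ℕ) (B M : ℝ) (V u u1 : ℝ → ℝ), Continuous V →
    (∀ x, 0 ≤ V x ∧ V x ≤ B * Real.exp (-2 * |x|)) → (∀ x, HasDerivAt u (u1 x) x) →
    (∀ x, HasDerivAt u1 (((k : ℝ) ^ 2 - V x) * u x) x) → (∀ x, |u x| ≤ M) →
    (∃ ℓ₁ ℓ₂, Tendsto u atTop (𝓝 ℓ₁) ∧ Tendsto u atBot (𝓝 ℓ₂) ∧ (k ≠ 0 → ℓ₁ = 0 ∧ ℓ₂ = 0)) ∧
    (∃ M', ∀ x, |u1 x| ≤ M') ∧
    (∀ R, 0 ≤ R → B * Real.exp (-2 * R) < 1 → (∃ x, u x ≠ 0) → ∀ x, R ≤ |x| → u x ≠ 0) ∧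
    (B < (k : ℝ) ^ 2 → ∀ x, u x = 0)

end Pool.Agent.Y315.NL
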