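import Pool.Agent.Y315.NL.Base

/-!
# Statements for spheres with a circle symmetry and twisted tori
-/

set_option autoImplicit false

open MeasureTheory Set Filter Topology
open scoped ContDiff ENNReal

noncomputable section

namespace Pool.Agent.Y315.NL

/-- TAIL: sums of modes without zeros, on an interval where `V < 1` -/
def S_TAIL : Prop :=
  ∀ (V : ℝ → ℝ) (W W1 : ℕ → ℝ → ℝ) (I : Set ℝ) (s : Finset ℕ) (c : ℕ → ℝ), Continuous V →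
    I.OrdConnected → (∀ x ∈ I, V x < 1) →
    (∀ k ∈ s, ∀ x, HasDerivAt (W k) (W1 k x) x) →
    (∀ k ∈ s, ∀ x, HasDerivAt (W1 k) (((k : ℝ) ^ 2 - V x) * W k x) x) →
    (∀ k ∈ s, ∀ x ∈ I, W k x ≠ 0) → (∀ k ∈ s, c k ≠ 0) → s.Nonempty →
    ∀ S : Finset ℝ, (∀ t ∈ S, t ∈ I ∧ ∑ k ∈ s, c k * W k t = 0) → S.card + 2 ≤ 2 * s.card

/-- TWM: the length of a set invariant under the lattice generated by `(0, 2π)` and `(L, τ)` -/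
def S_TWM : Prop :=
  ∀ (Z : Set (EuclideanSpace ℝ (Fin 2))) (L τ : ℝ), 0 < L → IsClosed Z →
    (∀ p q : EuclideanSpace ℝ (Fin 2), q 0 = p 0 + L → q 1 = p 1 + τ → (p ∈ Z ↔ q ∈ Z)) →
    (∀ p q : EuclideanSpace ℝ (Fin 2), q 0 = p 0 → q 1 = p 1 + 2 * Real.pi →
      (p ∈ Z ↔ q ∈ Z)) →
    ∀ M : ℕ, (M : ℝ≥0∞) * μH[1] (Z ∩ {p | 0 ≤ p 0 ∧ p 0 < L ∧ 0 ≤ p 1 ∧ p 1 < 2 * Real.pi})
      = μH[1] (Z ∩ {p | 0 ≤ p 0 ∧ p 0 < M * L ∧ 0 ≤ p 1 ∧ p 1 < 2 * Real.pi})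

/-- STRIP: summing the length over unit strips with an exponentially decaying weight -/
def S_STRIP : Prop :=
  ∀ (Z : Set (EuclideanSpace ℝ (Fin 2))) (C b : ℝ) (g : ℝ → ℝ), 0 ≤ C → 0 ≤ b → IsClosed Z →
    (∀ k : ℤ, μH[1] (Z ∩ {p | (k : ℝ) ≤ p 0 ∧ p 0 ≤ k + 1 ∧ 0 ≤ p 1 ∧ p 1 ≤ 2 * Real.pi})
      ≤ ENNReal.ofReal C) →
    (∀ x, g x ≤ b * Real.exp (-|x|)) →
    ∫⁻ p in (Z ∩ {p | 0 ≤ p 1 ∧ p 1 < 2 * Real.pi}), ENNReal.ofReal (g (p 0)) ∂μH[1]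
      ≤ ENNReal.ofReal (4 * C * b)

end Pool.Agent.Y315.NL
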