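import Pool.Agent.Y315.NL.GapU
import Pool.Agent.Y500.NL.Tail
import Pool.Agent.Y970.NL.Asy

set_option autoImplicit false

open MeasureTheory Set Filter Topology
open scoped ContDiff ENNReal

noncomputable section

namespace Pool.Agent.Y315.NL

/-- bounded solutions of `u'' = A u`, `A > 0`, vanish -/
theorem bddconv {u u1 A : ℝ → ℝ} {M : ℝ} (h1 : ∀ x, HasDerivAt u (u1 x) x)
    (h2 : ∀ x, HasDerivAt u1 (A x * u x) x) (hA : ∀ x, 0 < A x) (hM : ∀ x, |u x| ≤ M) :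
    ∀ x, u x = 0 := by
  have g1 : ∀ x, HasDerivAt (fun t => u t ^ 2) (2 * u x * u1 x) x := by
    intro x
    have := (h1 x).fun_pow 2
    simpa [mul_assoc] using this
  have g2 : ∀ x, HasDerivAt (fun t => 2 * u t * u1 t) (2 * u1 x ^ 2 + 2 * A x * u x ^ 2) x := by
    intro x
    have h := ((h1 x).const_mul 2).fun_mul (h2 x)
    exact h.congr_deriv (by ring)
  have g2pos : ∀ x, 0 ≤ 2 * u1 x ^ 2 + 2 * A x * u x ^ 2 := by
    intro x
    have := hA x
    positivity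
  have gM : ∀ x, u x ^ 2 ≤ M ^ 2 := by
    intro x
    rw [← sq_abs]
    exact pow_le_pow_left₀ (abs_nonneg _) (hM x) 2
  have e1 : ∀ x, 2 * u x * u1 x ≤ 0 := fun x =>
    Pool.Agent.Y970.NL.conv_le g1 g2 (a := x) (fun t _ => g2pos t) (fun t _ => gM t) x le_rfl
  have r1 : ∀ x, HasDerivAt (fun t => u (-t) ^ 2) (-(2 * u (-x) * u1 (-x))) x := by
    intro x
    have := (g1 (-x)).comp x (hasDerivAt_neg x)
    exact this.congr_deriv (by ring)
  have r2 : ∀ x, HasDerivAt (fun t => -(2 * u (-t) * u1 (-t)))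
      (2 * u1 (-x) ^ 2 + 2 * A (-x) * u (-x) ^ 2) x := by
    intro x
    have := ((g2 (-x)).comp x (hasDerivAt_neg x)).neg
    exact this.congr_deriv (by ring)
  have e2 : ∀ x, 0 ≤ 2 * u x * u1 x := fun x => by
    have := Pool.Agent.Y970.NL.conv_le r1 r2 (a := -x) (fun t _ => g2pos (-t))
      (fun t _ => gM (-t)) (-x) le_rfl
    simp only [neg_neg] at this
    linarith
  intro x
  have e3 : (fun t => 2 * u t * u1 t) = fun _ => (0 : ℝ) := by
    funext t
    exact le_antisymm (e1 t) (e2 t)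
  have e4 := g2 x
  rw [e3] at e4
  have e5 := e4.unique (hasDerivAt_const x (0 : ℝ))
  have e6 : 2 * A x * u x ^ 2 = 0 := by
    have h3 : 0 ≤ 2 * u1 x ^ 2 := by positivity
    have h4 : 0 ≤ 2 * A x * u x ^ 2 := by
      have := hA x
      positivity
    linarith
  have h7 : u x ^ 2 = 0 := by
    have := hA x
    have h8 : (2 * A x) ≠ 0 := by positivity
    exact (mul_eq_zero.1 e6).resolve_left h8
  exact pow_eq_zero_iff (two_ne_zero) |>.1 h7

/-- iterating the backward step on an interval, two zeros may be lost in each step -/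
theorem lossy {ι : Type} (s : Finset ι) (m : ι → ℝ) (W W1 : ι → ℝ → ℝ) (V : ℝ → ℝ)
    (hV : Continuous V) (h1 : ∀ i ∈ s, ∀ x, HasDerivAt (W i) (W1 i x) x)
    (h2 : ∀ i ∈ s, ∀ x, HasDerivAt (W1 i) ((m i - V x) * W i x) x)
    (K : ℝ) (hK : ∀ x, V x < K) (a b : ℝ) (S : Finset ℝ)
    (hS : ∀ t ∈ S, t ∈ Icc a b ∧ ∑ i ∈ s, W i t = 0) :
    ∀ N : ℕ, ∃ S' : Finset ℝ, S.card ≤ S'.card + 2 * N ∧
      ∀ t ∈ S', t ∈ Icc a b ∧ ∑ i ∈ s, (K - m i) ^ N * W i t = 0 := by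
  intro N
  induction N with
  | zero => exact ⟨S, by omega, fun t ht => by simpa using hS t ht⟩
  | succ N ih =>
    obtain ⟨S', hc, hz⟩ := ih
    rcases Nat.lt_or_ge S'.card 2 with hlt | hge
    · exact ⟨∅, by simp; omega, by simp⟩
    · have hWc : ∀ i ∈ s, Continuous (W i) := fun i hi =>
        continuous_iff_continuousAt.2 (fun x => (h1 i hi x).continuousAt)
      obtain ⟨S'', hc2, hz2⟩ := Pool.Agent.Y500.NL.zeros (I := Icc a b)
        (w := fun x => ∑ i ∈ s, (K - m i) ^ N * W i x)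
        (w1 := fun x => ∑ i ∈ s, (K - m i) ^ N * W1 i x)
        (w2 := fun x => ∑ i ∈ s, (K - m i) ^ N * ((m i - V x) * W i x)) (V := V) (K := K)
        ordConnected_Icc (fun x => HasDerivAt.fun_sum fun i hi => (h1 i hi x).const_mul _)
        (fun x => HasDerivAt.fun_sum fun i hi => (h2 i hi x).const_mul _)
        (continuous_finsetSum _ fun i hi => continuous_const.mul
          ((continuous_const.sub hV).mul (hWc i hi))) hV (fun x _ => hK x) (S'.card - 2) S'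
        (by omega) hz
      refine ⟨S'', by omega, fun t ht => ⟨(hz2 t ht).1, ?_⟩⟩
      have := (hz2 t ht).2
      rw [← this, Finset.mul_sum, ← Finset.sum_sub_distrib]
      apply Finset.sum_congr rfl
      intro i _
      ring

/-- linear zero count on long intervals, uniform in the modes -/
theorem lincount {ι : Type} [DecidableEq ι] (s : Finset ι) (m : ι → ℝ) (M c : ℝ)
    (i0 : ι) (hi0 : i0 ∈ s) (hmin : ∀ i ∈ s, i ≠ i0 → m i0 < m i) (hc0 : 0 < c)
    (K : ℝ) (hK : ∀ i ∈ s, m i < K) {κ κ' : ℝ} (h0 : 0 < κ) (hκ : κ < κ') (V : ℝ → ℝ)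
    (hV : Continuous V) (hVK : ∀ x, V x < K) (hVm : ∀ x, V x - m i0 ≤ κ ^ 2) :
    ∃ C : ℝ, ∀ (W W1 : ι → ℝ → ℝ),
      (∀ i ∈ s, ∀ x, HasDerivAt (W i) (W1 i x) x) →
      (∀ i ∈ s, ∀ x, HasDerivAt (W1 i) ((m i - V x) * W i x) x) →
      (∀ i ∈ s, ∀ x, |W i x| ≤ M ∧ |W1 i x| ≤ M) →
      (∀ x, c ^ 2 ≤ W i0 x ^ 2 + W1 i0 x ^ 2) → ∀ a b, a ≤ b →
      ∀ S : Finset ℝ, (∀ t ∈ S, t ∈ Icc a b ∧ ∑ i ∈ s, W i t = 0) →
      (S.card : ℝ) ≤ C + (b - a) * κ' / Real.pi := by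
  obtain ⟨N, hN⟩ := limgapU s m M c i0 hi0 hmin hc0 K hK h0 hκ
  refine ⟨2 * N + 1, fun W W1 h1 h2 hM hc a b hab S hS => ?_⟩
  obtain ⟨S', hc1, hz⟩ := lossy s m W W1 V hV h1 h2 K hVK a b S hS N
  have hπ := Real.pi_pos
  have hκ' : 0 < κ' := h0.trans hκ
  have e1 := gap_count (S := S') (a := a) (b := b) (δ := Real.pi / κ') (by positivity) hab
    (fun t ht => (hz t ht).1) (fun z₁ hz₁ z₂ hz₂ hlt =>
      hN N le_rfl W W1 V univ h1 h2 (fun i hi x _ => hM i hi x) (fun x _ => hc x) z₁ z₂ hlt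
        (subset_univ _) (hz z₁ hz₁).2 (hz z₂ hz₂).2 (fun x _ => hVm x))
  have e2 : (S.card : ℝ) ≤ S'.card + 2 * N := by exact_mod_cast hc1
  have e3 : (b - a) / (Real.pi / κ') = (b - a) * κ' / Real.pi := by
    field_simp
  rw [e3] at e1
  linarith

/-- splitting an interval into windows -/
theorem windows {w : ℝ → ℝ} {L D : ℝ} (hL : 0 < L) (hD : 0 ≤ D)
    (h : ∀ S : Finset ℝ, (∀ t ∈ S, w t = 0) → (∀ a ∈ S, ∀ b ∈ S, b - a < L) → (S.card : ℝ) ≤ D)
    {a b : ℝ} (hab : a ≤ b) (S : Finset ℝ) (hS : ∀ t ∈ S, t ∈ Icc a b ∧ w t = 0) :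
    (S.card : ℝ) ≤ D + (b - a) * (D / L) := by
  classical
  set J := ⌊(b - a) / L⌋₊ + 1 with hJ
  have hq : 0 ≤ (b - a) / L := div_nonneg (sub_nonneg.2 hab) hL.le
  have hcover : S ⊆ (Finset.range J).biUnion
      (fun j => S.filter (fun t => a + (j : ℝ) * L ≤ t ∧ t < a + ((j : ℝ) + 1) * L)) := by
    intro t ht
    have h1 := (hS t ht).1
    have h2 : 0 ≤ (t - a) / L := div_nonneg (sub_nonneg.2 h1.1) hL.le
    rw [Finset.mem_biUnion]
    refine ⟨⌊(t - a) / L⌋₊, ?_, Finset.mem_filter.2 ⟨ht, ?_, ?_⟩⟩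
    · rw [Finset.mem_range, hJ]
      apply Nat.lt_succ_of_le
      apply Nat.floor_le_floor
      gcongr
      exact h1.2
    · have := Nat.floor_le h2
      rw [le_div_iff₀ hL] at this
      linarith
    · have := Nat.lt_floor_add_one ((t - a) / L)
      rw [div_lt_iff₀ hL] at this
      linarith
  have e1 := Finset.card_le_card hcover
  have e2 := Finset.card_biUnion_le (s := Finset.range J)
    (t := fun j => S.filter (fun t => a + (j : ℝ) * L ≤ t ∧ t < a + ((j : ℝ) + 1) * L))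
  have e3 : (S.card : ℝ) ≤ ∑ j ∈ Finset.range J,
      ((S.filter (fun t => a + (j : ℝ) * L ≤ t ∧ t < a + ((j : ℝ) + 1) * L)).card : ℝ) := by
    exact_mod_cast e1.trans e2
  have e4 : ∀ j ∈ Finset.range J,
      ((S.filter (fun t => a + (j : ℝ) * L ≤ t ∧ t < a + ((j : ℝ) + 1) * L)).card : ℝ) ≤ D := by
    intro j _
    apply h _ (fun t ht => (hS t (Finset.mem_filter.1 ht).1).2)
    intro u hu v hv
    have a1 := (Finset.mem_filter.1 hu).2.1
    have a2 := (Finset.mem_filter.1 hv).2.2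
    linarith
  have e5 : (S.card : ℝ) ≤ J * D := by
    refine (e3.trans (Finset.sum_le_sum e4)).trans (le_of_eq ?_)
    simp
  have e6 : (J : ℝ) ≤ (b - a) / L + 1 := by
    rw [hJ]
    push_cast
    linarith [Nat.floor_le hq]
  have e7 : (J : ℝ) * D ≤ ((b - a) / L + 1) * D := mul_le_mul_of_nonneg_right e6 hD
  have e8 : ((b - a) / L + 1) * D = D + (b - a) * (D / L) := by ring
  linarith

/-- representatives modulo the twisted lattice -/
theorem rep {f : ℝ × ℝ → ℝ} {L τ : ℝ} (hL : 0 < L) (h1 : ∀ x y, f (x + L, y + τ) = f (x, y))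
    (h2 : ∀ x y, f (x, y + 2 * Real.pi) = f (x, y)) (x y : ℝ) :
    ∃ x' ∈ Icc 0 L, ∃ y' ∈ Icc 0 (2 * Real.pi), f (x, y) = f (x', y') := by
  have hp1 : Function.Periodic f ((L, τ) : ℝ × ℝ) := fun p => h1 p.1 p.2
  have hp1' := hp1.zsmul (-⌊x / L⌋)
  have e1 := hp1' (x, y)
  have e2 : ((x, y) : ℝ × ℝ) + (-⌊x / L⌋) • ((L, τ) : ℝ × ℝ)
      = (x - ⌊x / L⌋ * L, y - ⌊x / L⌋ * τ) := by
    ext
    · simp
      ring
    · simp
      ring
  rw [e2] at e1
  have hp2 : Function.Periodic (fun t => f (x - ⌊x / L⌋ * L, t)) (2 * Real.pi) := fun t => h2 _ t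
  obtain ⟨y', hy', hyy⟩ := hp2.exists_mem_Ico₀ (by positivity) (y - ⌊x / L⌋ * τ)
  refine ⟨x - ⌊x / L⌋ * L, ⟨?_, ?_⟩, y', ⟨hy'.1, hy'.2.le⟩, ?_⟩
  · have := Int.floor_le (x / L)
    rw [le_div_iff₀ hL] at this
    linarith
  · have := (Int.lt_floor_add_one (x / L)).le
    rw [div_le_iff₀ hL] at this
    linarith
  · rw [← e1]
    exact hyy

theorem rep_bdd {f : ℝ × ℝ → ℝ} {L τ : ℝ} (hL : 0 < L) (hf : Continuous f)
    (h1 : ∀ x y, f (x + L, y + τ) = f (x, y))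
    (h2 : ∀ x y, f (x, y + 2 * Real.pi) = f (x, y)) : ∃ M, ∀ p, |f p| ≤ M := by
  obtain ⟨M, hM⟩ := (isCompact_Icc.prod isCompact_Icc).exists_bound_of_continuousOn
    (s := Icc 0 L ×ˢ Icc 0 (2 * Real.pi)) hf.continuousOn
  refine ⟨M, fun p => ?_⟩
  obtain ⟨x', hx', y', hy', h⟩ := rep hL h1 h2 p.1 p.2
  have e1 := hM (x', y') ⟨hx', hy'⟩
  rw [← h] at e1
  simpa using e1

theorem rep_pos {f : ℝ × ℝ → ℝ} {L τ : ℝ} (hL : 0 < L) (hf : Continuous f)
    (h1 : ∀ x y, f (x + L, y + τ) = f (x, y))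
    (h2 : ∀ x y, f (x, y + 2 * Real.pi) = f (x, y)) (hpos : ∀ p, 0 < f p) :
    ∃ c > 0, ∀ p, c ≤ f p := by
  obtain ⟨q, hq, hmin⟩ := (isCompact_Icc.prod isCompact_Icc).exists_isMinOn
    (s := Icc 0 L ×ˢ Icc 0 (2 * Real.pi)) ⟨(0, 0), by simp [hL.le, Real.pi_pos.le]⟩ hf.continuousOn
  refine ⟨f q, hpos q, fun p => ?_⟩
  obtain ⟨x', hx', y', hy', h⟩ := rep hL h1 h2 p.1 p.2
  have e1 : f q ≤ f (x', y') := hmin (show (x', y') ∈ _ from ⟨hx', hy'⟩)
  rw [← h] at e1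
  exact e1

/-- Fourier components of a twisted periodic function are twisted periodic -/
theorem FM_twist {f : ℝ × ℝ → ℝ} {L τ : ℝ}
    (h1 : ∀ x y, f (x + L, y + τ) = f (x, y))
    (h2 : ∀ x y, f (x, y + 2 * Real.pi) = f (x, y)) (k : ℕ) (x y : ℝ) :
    FM f k (x + L) (y + τ) = FM f k x y := by
  unfold FM
  congr 1
  have e1 : ∀ t, f (x + L, t) * Real.cos (k * (y + τ - t))
      = (fun t => f (x, t) * Real.cos (k * (y - t))) (t - τ) := by
    intro t
    have : f (x + L, t) = f (x, t - τ) := by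
      have := h1 x (t - τ)
      rwa [sub_add_cancel] at this
    simp only [this]
    congr 2
    ring
  rw [show (fun t => f (x + L, t) * Real.cos (k * (y + τ - t)))
    = fun t => (fun t => f (x, t) * Real.cos (k * (y - t))) (t - τ) from funext e1]
  rw [intervalIntegral.integral_comp_sub_right (fun t => f (x, t) * Real.cos (k * (y - t))) τ]
  have hper : Function.Periodic (fun t => f (x, t) * Real.cos (k * (y - t))) (2 * Real.pi) := by
    intro t
    simp only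
    rw [h2]
    have : (k : ℝ) * (y - (t + 2 * Real.pi)) = k * (y - t) - k * (2 * Real.pi) := by ring
    rw [this, Real.cos_sub_nat_mul_two_pi]
  have e2 := hper.intervalIntegral_add_eq (0 - τ) 0
  have e3 : (0 : ℝ) - τ + 2 * Real.pi = 2 * Real.pi - τ := by ring
  rw [e3, zero_add] at e2
  exact e2

theorem FM_cont {f : ℝ × ℝ → ℝ} (hf : Continuous f) (k : ℕ) :
    Continuous (fun p : ℝ × ℝ => FM f k p.1 p.2) := by
  unfold FM
  apply Continuous.mul continuous_const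
  apply intervalIntegral.continuous_parametric_intervalIntegral_of_continuous' (μ := volume)
  simp only [Function.uncurry_def]
  fun_prop

theorem FM_per {f : ℝ × ℝ → ℝ} (k : ℕ) (x y : ℝ) :
    FM f k x (y + 2 * Real.pi) = FM f k x y := by
  unfold FM
  congr 1
  apply intervalIntegral.integral_congr
  intro t _
  simp only
  congr 1
  have : (k : ℝ) * (y + 2 * Real.pi - t) = k * (y - t) + k * (2 * Real.pi) := by ring
  rw [this, Real.cos_add_nat_mul_two_pi]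

theorem dx_per {f : ℝ × ℝ → ℝ} {v : ℝ × ℝ} (h : ∀ p, f (p + v) = f p) (p : ℝ × ℝ) :
    dx f (p + v) = dx f p := by
  unfold dx
  have e1 : (fun p => f (p + v)) = f := funext h
  have e2 : fderiv ℝ (fun p => f (p + v)) p = fderiv ℝ f (p + v) := fderiv_comp_add_right v
  rw [e1] at e2
  rw [e2]

end Pool.Agent.Y315.NL
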