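import Pool.Agent.Y315.NL.Twist

set_option autoImplicit false

open MeasureTheory Set Filter Topology
open scoped ContDiff ENNReal

noncomputable section

namespace Pool.Agent.Y315.NL

/-- uniform linear zero count on horizontal lines of a twisted torus -/
theorem twist_lines (hfou : S_FOU) {φ : ℝ × ℝ → ℝ} {V : ℝ → ℝ} {L τ κ κ' : ℝ} (hL : 0 < L)
    (hκ : 0 < κ) (hκκ : κ < κ') (hφ : ContDiff ℝ 2 φ) (hV : Continuous V)
    (hper : ∀ x y, φ (x, y + 2 * Real.pi) = φ (x, y))
    (htw : ∀ x y, φ (x + L, y + τ) = φ (x, y)) (hVp : ∀ x, V (x + L) = V x)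
    (heq : ∀ x y, dx (dx φ) (x, y) + dy (dy φ) (x, y) + V x * φ (x, y) = 0)
    (hV0 : ∀ x, 0 ≤ V x ∧ V x ≤ κ ^ 2) (hne : ∃ p, φ p ≠ 0)
    (n : ℕ) (hvan : ∀ k > n, ∀ x y, FM φ k x y = 0) :
    ∃ C : ℝ, 0 ≤ C ∧ ∀ y, (∃ x, φ (x, y) ≠ 0) → ∀ a b, a ≤ b → ∀ S : Finset ℝ,
      (∀ t ∈ S, t ∈ Icc a b ∧ φ (t, y) = 0) → (S.card : ℝ) ≤ C + (b - a) * κ' / Real.pi := by
  classical
  obtain ⟨f1, f2, f3, f4, f5⟩ := hfou φ V hφ hV hper heq
  have hπ := Real.pi_pos
  have hφc : Continuous φ := hφ.continuous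
  have hexp : ∀ x y, φ (x, y) = ∑ k ∈ Finset.range (n + 1), FM φ k x y := fun x y =>
    f5 n x (fun k hk y => hvan k hk x y) y
  by_cases hrat : ∃ k : ℕ, 1 ≤ k ∧ Real.sin (k * τ) = 0
  · -- rational twist
    obtain ⟨k, hk, hsin⟩ := hrat
    obtain ⟨j, hj⟩ := Real.sin_eq_zero_iff.1 hsin
    set L' := ((2 * k : ℕ) : ℝ) * L with hL'
    have hL'0 : 0 < L' := by
      have : (0 : ℝ) < ((2 * k : ℕ) : ℝ) := by exact_mod_cast (by omega : 0 < 2 * k)
      positivity
    have hφL' : ∀ x y, φ (x + L', y) = φ (x, y) := by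
      intro x y
      have hp1 : Function.Periodic φ ((L, τ) : ℝ × ℝ) := fun p => htw p.1 p.2
      have e1 := (hp1.nsmul (2 * k)) (x, y - ((2 * k : ℕ) : ℝ) * τ)
      have e2 : ((x, y - ((2 * k : ℕ) : ℝ) * τ) : ℝ × ℝ) + (2 * k) • ((L, τ) : ℝ × ℝ)
          = (x + L', y) := by
        ext
        · simp [hL']
        · simp
      rw [e2] at e1
      rw [e1]
      have hp2 : Function.Periodic (fun t => φ (x, t)) (2 * Real.pi) := fun t => hper x t
      have e3 : φ (x, y - j • (2 * Real.pi)) = φ (x, y) := hp2.sub_zsmul_eq j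
      have e4 : ((2 * k : ℕ) : ℝ) * τ = j • (2 * Real.pi) := by
        rw [zsmul_eq_mul]
        push_cast
        linear_combination (-2) * hj
      rw [e4]
      exact e3
    have hVL' : ∀ x, V (x + L') = V x := by
      intro x
      have hp : Function.Periodic V L := hVp
      have := (hp.nat_mul (2 * k)) x
      simpa [hL'] using this
    have hD : 0 ≤ L' * κ / Real.pi := by positivity
    refine ⟨L' * κ / Real.pi, hD, fun y hy a b hab S hS => ?_⟩
    have hcount : ∀ S : Finset ℝ, (∀ t ∈ S, φ (t, y) = 0) → (∀ a ∈ S, ∀ b ∈ S, b - a < L') →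
        (S.card : ℝ) ≤ L' * κ / Real.pi := by
      intro S hS hSw
      refine zero_count' (ι := ℕ) (fun k => (k : ℝ) ^ 2) (fun k x => FM φ k x y)
        (fun k x => FM (dx φ) k x y) V hV hL'0 hκ hVL' (Finset.range (n + 1))
        (fun k _ x => f1 k x y) (fun k _ x => f2 k x y) (fun k _ x => ?_) (fun k _ x => ?_)
        (fun i _ j _ h => ?_) ?_ S ?_ hSw
      · unfold FM
        simp only [hφL']
      · have e1 := (hV0 x).2
        have e2 : (0 : ℝ) ≤ (k : ℝ) ^ 2 := by positivity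
        linarith
      · have h2 : (i : ℝ) = j := by
          rwa [sq_eq_sq₀ (by positivity) (by positivity)] at h
        exact_mod_cast h2
      · obtain ⟨x, hx⟩ := hy
        exact ⟨x, by rwa [hexp x y] at hx⟩
      · intro t ht
        have := hS t ht
        rwa [hexp t y] at this
    have key := windows hL'0 hD hcount hab S hS
    have e5 : L' * κ / Real.pi / L' = κ / Real.pi := by
      field_simp
    rw [e5] at key
    have e6 : (b - a) * (κ / Real.pi) ≤ (b - a) * κ' / Real.pi := by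
      rw [mul_div_assoc]
      apply mul_le_mul_of_nonneg_left _ (sub_nonneg.2 hab)
      gcongr
    linarith
  · -- irrational twist
    push Not at hrat
    set s := (Finset.range (n + 1)).filter (fun k => ∃ x y, FM φ k x y ≠ 0) with hs
    have hsum : ∀ x y, φ (x, y) = ∑ k ∈ s, FM φ k x y := by
      intro x y
      rw [hexp, hs, Finset.sum_filter]
      apply Finset.sum_congr rfl
      intro k _
      split_ifs with h
      · rfl
      · push Not at h
        exact h x y
    have hsne : s.Nonempty := by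
      rw [Finset.nonempty_iff_ne_empty]
      intro h
      obtain ⟨⟨x, y⟩, hx⟩ := hne
      rw [hsum, h] at hx
      simp at hx
    obtain ⟨i0, hi0, hmin⟩ := s.exists_min_image id hsne
    have hmin' : ∀ k ∈ s, k ≠ i0 → ((i0 : ℕ) : ℝ) ^ 2 < ((k : ℕ) : ℝ) ^ 2 := by
      intro k hk hne2
      have e1 : i0 ≤ k := hmin k hk
      have e2 : i0 < k := lt_of_le_of_ne e1 (Ne.symm hne2)
      have e3 : (i0 : ℝ) < k := by exact_mod_cast e2
      exact pow_lt_pow_left₀ e3 (by positivity) two_ne_zero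
    have hdx : ∀ x y, dx φ (x + L, y + τ) = dx φ (x, y) := by
      intro x y
      exact dx_per (v := (L, τ)) (fun p => htw p.1 p.2) (x, y)
    have hdxp : ∀ x y, dx φ (x, y + 2 * Real.pi) = dx φ (x, y) := by
      intro x y
      have := dx_per (f := φ) (v := (0, 2 * Real.pi)) (fun p => by
        have := hper p.1 p.2
        have e : p + ((0 : ℝ), 2 * Real.pi) = (p.1, p.2 + 2 * Real.pi) := by
          ext <;> simp
        rw [e, this]) (x, y)
      have e : ((x, y) : ℝ × ℝ) + ((0 : ℝ), 2 * Real.pi) = (x, y + 2 * Real.pi) := by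
        ext <;> simp
      rwa [e] at this
    have hdxc : Continuous (dx φ) := (contDiff_dx2 hφ).continuous
    -- the energy of the lowest mode
    have hEpos : ∀ p : ℝ × ℝ, 0 < FM φ i0 p.1 p.2 ^ 2 + FM (dx φ) i0 p.1 p.2 ^ 2 := by
      rintro ⟨x0, y0⟩
      by_contra hc
      push Not at hc
      simp only at hc
      have e1 : FM φ i0 x0 y0 = 0 := by
        have : FM φ i0 x0 y0 ^ 2 = 0 :=
          le_antisymm (by nlinarith [sq_nonneg (FM (dx φ) i0 x0 y0)]) (sq_nonneg _)
        exact pow_eq_zero_iff (two_ne_zero) |>.1 this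
      have e2 : FM (dx φ) i0 x0 y0 = 0 := by
        have : FM (dx φ) i0 x0 y0 ^ 2 = 0 :=
          le_antisymm (by nlinarith [sq_nonneg (FM φ i0 x0 y0)]) (sq_nonneg _)
        exact pow_eq_zero_iff (two_ne_zero) |>.1 this
      have e3 : ∀ x, FM φ i0 x y0 = 0 := nodouble (A := fun x => ((i0 : ℕ) : ℝ) ^ 2 - V x)
        (continuous_const.sub hV) (fun x => f1 i0 x y0) (fun x => f2 i0 x y0) e1 e2
      have e4 : ∀ x, FM φ i0 x (y0 + τ) = 0 := by
        intro x
        have := FM_twist htw hper i0 (x - L) y0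
        rw [sub_add_cancel, e3] at this
        exact this
      obtain ⟨x1, y1, hx1⟩ := (Finset.mem_filter.1 hi0).2
      obtain ⟨α, β, hαβ⟩ := f3 i0 x1
      have g1 := hαβ y0
      rw [e3] at g1
      have g2 := hαβ (y0 + τ)
      rw [e4] at g2
      apply hx1
      rw [hαβ y1]
      by_cases hi : i0 = 0
      · rw [hi] at g1 ⊢
        simp at g1 ⊢
        linarith
      · have hsn := hrat i0 (Nat.one_le_iff_ne_zero.2 hi)
        have g3 : Real.sin (i0 * τ) = Real.sin (i0 * (y0 + τ)) * Real.cos (i0 * y0)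
            - Real.cos (i0 * (y0 + τ)) * Real.sin (i0 * y0) := by
          rw [← Real.sin_sub]
          congr 1
          ring
        have g4 : α * Real.sin (i0 * τ) = 0 := by
          rw [g3]
          linear_combination Real.sin (i0 * y0) * g2 - Real.sin (i0 * (y0 + τ)) * g1
        have g5 : β * Real.sin (i0 * τ) = 0 := by
          rw [g3]
          linear_combination Real.cos (i0 * (y0 + τ)) * g1 - Real.cos (i0 * y0) * g2
        have g6 : α = 0 := (mul_eq_zero.1 g4).resolve_right hsn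
        have g7 : β = 0 := (mul_eq_zero.1 g5).resolve_right hsn
        rw [g6, g7]
        ring
    obtain ⟨c2, hc2, hc2'⟩ := rep_pos (f := fun p => FM φ i0 p.1 p.2 ^ 2 + FM (dx φ) i0 p.1 p.2 ^ 2)
      (L := L) (τ := τ) hL (((FM_cont hφc i0).pow 2).add ((FM_cont hdxc i0).pow 2))
      (fun x y => by
        simp only
        rw [FM_twist htw hper, FM_twist hdx hdxp])
      (fun x y => by
        simp only
        rw [FM_per, FM_per]) hEpos
    obtain ⟨M0, hM0⟩ := rep_bdd hL hφc htw hper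
    have hbd : ∃ M : ℝ, ∀ k ∈ s, ∀ x y, |FM φ k x y| ≤ M ∧ |FM (dx φ) k x y| ≤ M := by
      have e1 : ∀ k : ℕ, ∃ M : ℝ, 0 ≤ M ∧ ∀ x y, |FM φ k x y| ≤ M ∧ |FM (dx φ) k x y| ≤ M := by
        intro k
        obtain ⟨M1, hM1⟩ := rep_bdd (f := fun p => FM φ k p.1 p.2) hL (FM_cont hφc k)
          (fun x y => FM_twist htw hper k x y) (fun x y => FM_per k x y)
        obtain ⟨M2, hM2⟩ := rep_bdd (f := fun p => FM (dx φ) k p.1 p.2) hL (FM_cont hdxc k)
          (fun x y => FM_twist hdx hdxp k x y) (fun x y => FM_per k x y)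
        exact ⟨max M1 M2, le_trans (le_trans (abs_nonneg _) (hM1 (0, 0))) (le_max_left _ _),
          fun x y => ⟨(hM1 (x, y)).trans (le_max_left _ _), (hM2 (x, y)).trans (le_max_right _ _)⟩⟩
      choose M hM0 hM using e1
      refine ⟨∑ i ∈ s, M i, fun i hi x y => ?_⟩
      have e2 : M i ≤ ∑ i ∈ s, M i :=
        Finset.single_le_sum (f := M) (fun i _ => hM0 i) hi
      exact ⟨(hM i x y).1.trans e2, (hM i x y).2.trans e2⟩
    obtain ⟨M, hM⟩ := hbd
    set K : ℝ := κ ^ 2 + 1 + (n : ℝ) ^ 2 with hK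
    have hVK : ∀ x, V x < K := by
      intro x
      have e1 := (hV0 x).2
      have e2 : (0 : ℝ) ≤ (n : ℝ) ^ 2 := by positivity
      simp only [hK]
      linarith
    have hmK : ∀ k ∈ s, ((k : ℕ) : ℝ) ^ 2 < K := by
      intro k hk
      have e0 := Finset.mem_range.1 (Finset.mem_filter.1 hk).1
      have e1 : (k : ℝ) ≤ n := by exact_mod_cast (by omega : k ≤ n)
      have e2 : (k : ℝ) ^ 2 ≤ (n : ℝ) ^ 2 := pow_le_pow_left₀ (by positivity) e1 2
      have e3 : 0 ≤ κ ^ 2 := by positivity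
      simp only [hK]
      linarith
    obtain ⟨C, hC⟩ := lincount s (fun k => (k : ℝ) ^ 2) M (√c2) i0 hi0 hmin'
      (Real.sqrt_pos.2 hc2) K hmK hκ hκκ V hV hVK (fun x => by
        have e1 := (hV0 x).2
        have e2 : (0 : ℝ) ≤ (i0 : ℝ) ^ 2 := by positivity
        linarith)
    refine ⟨max C 0, le_max_right _ _, fun y _ a b hab S hS => ?_⟩
    have key := hC (fun k x => FM φ k x y) (fun k x => FM (dx φ) k x y) (fun k _ x => f1 k x y)
      (fun k _ x => f2 k x y) (fun k hk x => hM k hk x y) (fun x => by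
        rw [Real.sq_sqrt hc2.le]
        exact hc2' (x, y)) a b hab S (fun t ht => ⟨(hS t ht).1, by
          rw [← hsum]
          exact (hS t ht).2⟩)
    linarith [le_max_left C 0]

end Pool.Agent.Y315.NL
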