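import Pool.Agent.Y315.NL.Twist2

set_option autoImplicit false

open MeasureTheory Set Filter Topology
open scoped ContDiff ENNReal

noncomputable section

namespace Pool.Agent.Y315.NL

/-- linear growth gives the slope -/
theorem slope_le {X : ℝ≥0∞} {α β : ℝ} (hα : 0 ≤ α)
    (h : ∀ M : ℕ, 1 ≤ M → (M : ℝ≥0∞) * X ≤ ENNReal.ofReal (α * M + β)) :
    X ≤ ENNReal.ofReal α := by
  have hX : X ≠ ⊤ := by
    intro hX
    have := h 1 le_rfl
    rw [hX] at this
    simp at this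
  have hM : ∀ M : ℕ, 1 ≤ M → (M : ℝ) * X.toReal ≤ max (α * M + β) 0 := by
    intro M hM1
    have e1 := ENNReal.toReal_mono (by simp) (h M hM1)
    rw [ENNReal.toReal_mul] at e1
    simpa [ENNReal.toReal_ofReal'] using e1
  have hle : X.toReal ≤ α := by
    by_contra hcon
    push Not at hcon
    have hX0 : 0 ≤ X.toReal := ENNReal.toReal_nonneg
    obtain ⟨M, hMgt⟩ := exists_nat_gt (|β| / (X.toReal - α))
    have hd : 0 < X.toReal - α := sub_pos.2 hcon
    rw [div_lt_iff₀ hd] at hMgt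
    have hM1 : 1 ≤ M := by
      by_contra h0
      have : M = 0 := by omega
      rw [this] at hMgt
      have := abs_nonneg β
      simp at hMgt
      linarith
    have hMpos : (0 : ℝ) < M := by exact_mod_cast hM1
    have e2 := hM M hM1
    rcases le_total (α * M + β) 0 with h3 | h3
    · rw [max_eq_right h3] at e2
      have : 0 < X.toReal := lt_of_le_of_lt hα hcon
      have := mul_pos hMpos this
      linarith
    · rw [max_eq_left h3] at e2
      have := le_abs_self β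
      nlinarith
  rw [← ENNReal.ofReal_toReal hX]
  exact ENNReal.ofReal_le_ofReal hle

/-- vanishing of the high modes -/
theorem high_modes (hfou : S_FOU) {φ : ℝ × ℝ → ℝ} {V : ℝ → ℝ} {L τ κ : ℝ} (hL : 0 < L)
    (hκ : 0 < κ) (hφ : ContDiff ℝ 2 φ) (hV : Continuous V)
    (hper : ∀ x y, φ (x, y + 2 * Real.pi) = φ (x, y))
    (htw : ∀ x y, φ (x + L, y + τ) = φ (x, y))
    (heq : ∀ x y, dx (dx φ) (x, y) + dy (dy φ) (x, y) + V x * φ (x, y) = 0)
    (hV0 : ∀ x, 0 ≤ V x ∧ V x ≤ κ ^ 2) :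
    ∀ k > ⌊κ⌋₊, ∀ x y, FM φ k x y = 0 := by
  obtain ⟨f1, f2, f3, f4, f5⟩ := hfou φ V hφ hV hper heq
  obtain ⟨M0, hM0⟩ := rep_bdd hL hφ.continuous htw hper
  intro k hk x y
  have e1 : κ < k := by
    have h1 := Nat.lt_floor_add_one κ
    have h2 : ((⌊κ⌋₊ : ℕ) : ℝ) + 1 ≤ k := by exact_mod_cast hk
    linarith
  exact bddconv (A := fun x => (k : ℝ) ^ 2 - V x) (M := 2 * M0) (fun x => f1 k x y)
    (fun x => f2 k x y) (fun x => by
      have h1 := (hV0 x).2
      have h2 : κ ^ 2 < (k : ℝ) ^ 2 := pow_lt_pow_left₀ e1 hκ.le two_ne_zero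
      linarith) (fun x => f4 k x y M0 (fun t => hM0 _)) x

/-- the length of the zero set on a twisted torus -/
theorem twist_len (hcov : S_COV) (hlen : S_LEN) (hfou : S_FOU) (htwm : S_TWM)
    {φ : ℝ × ℝ → ℝ} {V : ℝ → ℝ} {L τ κ : ℝ} (hL : 0 < L)
    (hκ : 0 < κ) (hφ : ContDiff ℝ 2 φ) (hV : Continuous V)
    (hper : ∀ x y, φ (x, y + 2 * Real.pi) = φ (x, y))
    (htw : ∀ x y, φ (x + L, y + τ) = φ (x, y)) (hVp : ∀ x, V (x + L) = V x)
    (heq : ∀ x y, dx (dx φ) (x, y) + dy (dy φ) (x, y) + V x * φ (x, y) = 0)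
    (hV0 : ∀ x, 0 ≤ V x ∧ V x ≤ κ ^ 2) (hne : ∃ p, φ p ≠ 0) :
    μH[1] {p : EuclideanSpace ℝ (Fin 2) |
        0 ≤ p 0 ∧ p 0 < L ∧ 0 ≤ p 1 ∧ p 1 < 2 * Real.pi ∧ φ (p 0, p 1) = 0}
      ≤ ENNReal.ofReal (35 * L * κ) := by
  have hπ := Real.pi_pos
  set κ' := 101 / 100 * κ with hκ'
  have hκκ : κ < κ' := by
    simp only [hκ']
    linarith
  have hvan := high_modes hfou hL hκ hφ hV hper htw heq hV0
  have hφc : Continuous φ := hφ.continuous
  have hcont : Continuous (fun p : ℝ × ℝ => φ (p.1, p.2)) := hφc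
  have hφ1 : ContDiff ℝ 1 φ := hφ.of_le (by norm_num)
  have hV1 : ∀ x, (∃ y, φ (x, y) ≠ 0) → ∀ S : Finset ℝ, (∀ t ∈ S, φ (x, t) = 0) →
      (∀ a ∈ S, ∀ b ∈ S, b - a < 2 * Real.pi) → (S.card : ℝ) ≤ 2 * κ := by
    intro x hx S hS hSw
    have := circle_count hfou (B := κ ^ 2) (by positivity) hφ hV hper heq ⌊κ⌋₊
      (by rw [Real.sqrt_sq hκ.le]; exact Nat.floor_le hκ.le) x (fun k hk y => hvan k hk x y) hx S
      hS hSw
    rwa [Real.sqrt_sq hκ.le] at this
  obtain ⟨C, hC0, hC⟩ := twist_lines hfou hL hκ hκκ hφ hV hper htw hVp heq hV0 hne ⌊κ⌋₊ hvan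
  obtain ⟨⟨xs, ys⟩, hs⟩ := hne
  set Bx : Set ℝ := {x | ∀ y, φ (x, y) = 0} with hBx
  set By : Set ℝ := {y | ∀ x, φ (x, y) = 0} with hBy
  have hBxc : Bx.Countable := count_cover (L := 1) (C := C + (2 : ℝ) * κ' / Real.pi) one_pos
    (fun S hS hw => by
      rcases S.eq_empty_or_nonempty with h | ⟨t0, ht0⟩
      · rw [h]
        simp only [Finset.card_empty, Nat.cast_zero]
        have : 0 < κ' := hκ.trans hκκ
        positivity
      · have := hC ys ⟨xs, hs⟩ (t0 - 1) (t0 + 1) (by linarith) S (fun t ht =>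
          ⟨⟨by linarith [hw t ht t0 ht0], by linarith [hw t0 ht0 t ht]⟩, hS t ht ys⟩)
        have e : t0 + 1 - (t0 - 1) = 2 := by ring
        rwa [e] at this)
  have hByc : By.Countable := count_cover (L := 2 * Real.pi) (C := 2 * κ) (by positivity)
    (fun S hS hw => hV1 xs ⟨ys, hs⟩ S (fun t ht => hS t ht xs) hw)
  have hcell : Cell (fun x y => φ (x, y)) (1 / κ) := cell hκ (fun x y => φ (x, y))
    (fun x y => dx φ (x, y)) (fun x y => dx (dx φ) (x, y)) (fun x y => dy φ (x, y))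
    (fun x y => dy (dy φ) (x, y)) (fun x _ => V x) hcont
    (fun x y => hasDerivAt_dx hφ1 x y)
    (fun x y => hasDerivAt_dx (contDiff_dx2 hφ) x y)
    (fun x y => hasDerivAt_dy hφ1 x y)
    (fun x y => hasDerivAt_dy (contDiff_dy2 hφ) x y)
    heq (fun x y => hV0 x)
  set η : ℝ := 2 * Real.pi / 8 with hη
  have hη0 : 0 < η := by positivity
  have hA : 0 ≤ 2 * (2 * κ) := by positivity
  have hκ'0 : 0 < κ' := hκ.trans hκκ
  set Z : Set (EuclideanSpace ℝ (Fin 2)) := {p | φ (p 0, p 1) = 0} with hZ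
  have hZc : IsClosed Z := by
    apply isClosed_eq _ continuous_const
    exact hφc.comp (by fun_prop)
  have hZ1 : ∀ p q : EuclideanSpace ℝ (Fin 2), q 0 = p 0 + L → q 1 = p 1 + τ →
      (p ∈ Z ↔ q ∈ Z) := by
    intro p q h0 h1
    simp only [hZ, mem_ofPred_eq, h0, h1, htw]
  have hZ2 : ∀ p q : EuclideanSpace ℝ (Fin 2), q 0 = p 0 → q 1 = p 1 + 2 * Real.pi →
      (p ∈ Z ↔ q ∈ Z) := by
    intro p q h0 h1
    simp only [hZ, mem_ofPred_eq, h0, h1, hper]
  have hmain : ∀ M : ℕ, 1 ≤ M → (M : ℝ≥0∞) *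
      μH[1] (Z ∩ {p | 0 ≤ p 0 ∧ p 0 < L ∧ 0 ≤ p 1 ∧ p 1 < 2 * Real.pi})
      ≤ ENNReal.ofReal (35 * L * κ * M +
        4 * √2 * (2 * Real.pi * (C + 2 * η * κ' / Real.pi))) := by
    intro M hM
    rw [htwm Z L τ hL hZc hZ1 hZ2 M]
    have hMpos : (0 : ℝ) < M := by exact_mod_cast hM
    have hML : 0 < (M : ℝ) * L := by positivity
    have hB' : 0 ≤ C + (M * L + 2 * η) * κ' / Real.pi := by positivity
    have key := hlen 0 (M * L) 0 (2 * Real.pi) (2 * (2 * κ)) (C + (M * L + 2 * η) * κ' / Real.pi)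
      (min (1 / κ) (η / 2))
      (fun x y => φ (x, y)) hML (by positivity) hA hB'
      (lt_min (by positivity) (by positivity))
      (fun h h0 h1 => hcov 0 (M * L) 0 (2 * Real.pi) (2 * (2 * κ))
        (C + (M * L + 2 * η) * κ' / Real.pi) η
        (1 / κ) (fun x y => φ (x, y)) Bx By hML (by positivity) hA hB' hcont hBxc hByc
        (fun x hx => window (by positivity) le_rfl (fun S hS hw => hV1 x (by
          by_contra hc
          push Not at hc
          exact hx hc) S hS hw))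
        (fun y hy S hS hSw => by
          have := hC y (by
            by_contra hc
            push Not at hc
            exact hy hc) (0 - η) (M * L + η) (by linarith) S (fun t ht => ⟨hSw t ht, hS t ht⟩)
          have e : (M * L + η : ℝ) - (0 - η) = M * L + 2 * η := by ring
          rwa [e] at this)
        hcell h h0 (h1.trans (min_le_left _ _))
        (by linarith [h1.trans (min_le_right (1 / κ) (η / 2))]))
    refine (measure_mono ?_).trans (key.trans (ENNReal.ofReal_le_ofReal ?_))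
    · rintro p ⟨h5, h1, h2, h3, h4⟩
      exact ⟨h1, h2.le, h3, h4.le, h5⟩
    · have e1 : 4 * √2 * ((M * L - 0) * (2 * (2 * κ)) +
          (2 * Real.pi - 0) * (C + (M * L + 2 * η) * κ' / Real.pi))
          = 4 * √2 * (6.02 * (M * L * κ)) +
          4 * √2 * (2 * Real.pi * (C + 2 * η * κ' / Real.pi)) := by
        simp only [hκ']
        field_simp
        ring
      rw [e1]
      have h2 : √2 ≤ 1.4143 := by
        rw [Real.sqrt_le_left (by norm_num)]
        norm_num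
      have e3 : 0 ≤ M * L * κ := by positivity
      have e4 : 4 * √2 * (6.02 * (M * L * κ)) ≤ 35 * L * κ * M := by
        have : √2 * (M * L * κ) ≤ 1.4143 * (M * L * κ) := mul_le_mul_of_nonneg_right h2 e3
        nlinarith
      linarith
  have := slope_le (by positivity) hmain
  refine le_trans (measure_mono ?_) this
  rintro p ⟨h1, h2, h3, h4, h5⟩
  exact ⟨h5, h1, h2, h3, h4⟩

end Pool.Agent.Y315.NL
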