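import Pool.Agent.Y315.NL.Stm2
import Pool.Agent.Y315.NL.Gap

set_option autoImplicit false

open MeasureTheory Set Filter Topology
open scoped ContDiff ENNReal

noncomputable section

namespace Pool.Agent.Y315.NL

/-- zeros in a closed interval with gaps larger than `δ` -/
theorem gap_count {S : Finset ℝ} {a b δ : ℝ} (hδ : 0 < δ) (hab : a ≤ b)
    (hS : ∀ t ∈ S, a ≤ t ∧ t ≤ b) (hgap : ∀ s ∈ S, ∀ t ∈ S, s < t → δ < t - s) :
    (S.card : ℝ) ≤ 1 + (b - a) / δ := by
  rcases Nat.eq_zero_or_pos S.card with h0 | hpos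
  · rw [h0]
    have : 0 ≤ (b - a) / δ := div_nonneg (sub_nonneg.2 hab) hδ.le
    simp only [Nat.cast_zero]
    linarith
  · set n := S.card with hn
    set e := S.orderEmbOfFin hn.symm with he
    set t : ℕ → ℝ := fun j => if h : j < n then e ⟨j, h⟩ else 0 with ht
    have ht1 : ∀ j (h : j < n), t j = e ⟨j, h⟩ := fun j h => by simp [ht, h]
    have hmem : ∀ j, j < n → t j ∈ S := fun j h => by
      rw [ht1 j h]
      exact S.orderEmbOfFin_mem hn.symm ⟨j, h⟩
    have hstep : ∀ j, j + 1 < n → δ < t (j + 1) - t j := by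
      intro j hj
      apply hgap _ (hmem j (by omega)) _ (hmem (j + 1) hj)
      rw [ht1 j (by omega), ht1 (j + 1) hj]
      exact e.strictMono (by simp)
    have hsum : ((n - 1 : ℕ) : ℝ) * δ ≤ ∑ j ∈ Finset.range (n - 1), (t (j + 1) - t j) := by
      calc ((n - 1 : ℕ) : ℝ) * δ = ∑ j ∈ Finset.range (n - 1), δ := by simp
        _ ≤ _ := Finset.sum_le_sum fun j hj => (hstep j (by
            have := Finset.mem_range.1 hj
            omega)).le
    rw [Finset.sum_range_sub] at hsum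
    have e1 := (hS _ (hmem (n - 1) (by omega))).2
    have e2 := (hS _ (hmem 0 hpos)).1
    have e3 : ((n - 1 : ℕ) : ℝ) = n - 1 := by
      rw [Nat.cast_sub (by omega)]
      simp
    rw [e3] at hsum
    have e4 : (n : ℝ) - 1 ≤ (b - a) / δ := by
      rw [le_div_iff₀ hδ]
      linarith
    linarith

/-- zero count for sums of bounded modes on the line -/
theorem zline (hline : S_LINE) (hasy : S_ASY) (htail : S_TAIL) {V : ℝ → ℝ} {B : ℝ}
    (hV : Continuous V) (hB : 1 ≤ B) (hVB : ∀ x, 0 ≤ V x ∧ V x ≤ B * Real.exp (-2 * |x|))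
    (n : ℕ) (hn : (n : ℝ) ≤ √B) (W W1 : ℕ → ℝ → ℝ)
    (h1 : ∀ k ∈ Finset.range (n + 1), ∀ x, HasDerivAt (W k) (W1 k x) x)
    (h2 : ∀ k ∈ Finset.range (n + 1), ∀ x, HasDerivAt (W1 k) (((k : ℝ) ^ 2 - V x) * W k x) x)
    (M : ℝ) (hM : ∀ k ∈ Finset.range (n + 1), ∀ x, |W k x| ≤ M)
    (hne : ∃ x, ∑ k ∈ Finset.range (n + 1), W k x ≠ 0)
    (S : Finset ℝ) (hS : ∀ t ∈ S, ∑ k ∈ Finset.range (n + 1), W k t = 0) :
    (S.card : ℝ) ≤ 12 * √B := by
  classical
  set s := (Finset.range (n + 1)).filter (fun k => ∃ x, W k x ≠ 0) with hs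
  have hss : ∀ k ∈ s, k ∈ Finset.range (n + 1) := fun k hk => (Finset.mem_filter.1 hk).1
  have hsum : ∀ x, ∑ k ∈ Finset.range (n + 1), W k x = ∑ k ∈ s, W k x := by
    intro x
    rw [hs, Finset.sum_filter]
    apply Finset.sum_congr rfl
    intro k _
    split_ifs with h
    · rfl
    · push Not at h
      exact h x
  have hsne : s.Nonempty := by
    rw [Finset.nonempty_iff_ne_empty]
    intro h
    obtain ⟨x, hx⟩ := hne
    rw [hsum, h] at hx
    simp at hx
  have g1 : ∀ k ∈ s, ∀ x, HasDerivAt (W k) (W1 k x) x := fun k hk => h1 k (hss k hk)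
  have g2 : ∀ k ∈ s, ∀ x, HasDerivAt (W1 k) (((k : ℝ) ^ 2 - V x) * W k x) x :=
    fun k hk => h2 k (hss k hk)
  have hkn : ∀ k ∈ s, k ≤ n := fun k hk => by
    have := Finset.mem_range.1 (hss k hk)
    omega
  -- asymptotics
  have hA : ∀ k ∈ s, _ := fun k hk =>
    hasy k B M V (W k) (W1 k) hV hVB (g1 k hk) (g2 k hk) (hM k (hss k hk))
  have hB0 : 0 < B := by linarith
  have hsB : 1 ≤ √B := by
    rw [Real.one_le_sqrt]
    exact hB
  have hsB2 : √B ^ 2 = B := Real.sq_sqrt hB0.le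
  -- K
  set K : ℝ := B + 1 + (n : ℝ) ^ 2 with hK
  have hK0 : 0 < K := by positivity
  have hVK : ∀ x, V x < K := by
    intro x
    have e1 := (hVB x).2
    have e2 : Real.exp (-2 * |x|) ≤ 1 := by
      rw [Real.exp_le_one_iff]
      have := abs_nonneg x
      linarith
    have e3 : B * Real.exp (-2 * |x|) ≤ B := by nlinarith
    have e4 : (0 : ℝ) ≤ (n : ℝ) ^ 2 := by positivity
    simp only [hK]
    linarith
  have hmK : ∀ k ∈ s, ((k : ℕ) : ℝ) ^ 2 < K := by
    intro k hk
    have e1 : (k : ℝ) ≤ n := by exact_mod_cast hkn k hk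
    have e2 : (k : ℝ) ^ 2 ≤ (n : ℝ) ^ 2 := pow_le_pow_left₀ (by positivity) e1 2
    simp only [hK]
    linarith
  -- V tends to 0
  have habs_top : Tendsto (fun x : ℝ => B * Real.exp (-2 * |x|)) atTop (𝓝 0) := by
    have e1 : Tendsto (fun x : ℝ => -2 * |x|) atTop atBot := by
      have : Tendsto (fun x : ℝ => (2 : ℝ) * |x|) atTop atTop :=
        tendsto_abs_atTop_atTop.const_mul_atTop (by norm_num)
      have e2 := tendsto_neg_atTop_atBot.comp this
      refine e2.congr (fun x => ?_)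
      simp
    have e2 := (Real.tendsto_exp_atBot.comp e1).const_mul B
    simpa using e2
  have habs_bot : Tendsto (fun x : ℝ => B * Real.exp (-2 * |x|)) atBot (𝓝 0) := by
    have e1 : Tendsto (fun x : ℝ => -2 * |x|) atBot atBot := by
      have : Tendsto (fun x : ℝ => (2 : ℝ) * |x|) atBot atTop :=
        tendsto_abs_atBot_atTop.const_mul_atTop (by norm_num)
      have e2 := tendsto_neg_atTop_atBot.comp this
      refine e2.congr (fun x => ?_)
      simp
    have e2 := (Real.tendsto_exp_atBot.comp e1).const_mul B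
    simpa using e2
  have hVtop : Tendsto V atTop (𝓝 0) :=
    squeeze_zero (fun x => (hVB x).1) (fun x => (hVB x).2) habs_top
  have hVbot : Tendsto V atBot (𝓝 0) :=
    squeeze_zero (fun x => (hVB x).1) (fun x => (hVB x).2) habs_bot
  -- limits of the modes
  have hlim : ∀ k : ℕ, ∃ p : ℝ × ℝ, k ∈ s → Tendsto (W k) atTop (𝓝 p.1) ∧
      Tendsto (W k) atBot (𝓝 p.2) ∧ (k ≠ 0 → p.1 = 0 ∧ p.2 = 0) := by
    intro k
    by_cases hk : k ∈ s
    · obtain ⟨a, b, h3, h4, h5⟩ := (hA k hk).1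
      exact ⟨(a, b), fun _ => ⟨h3, h4, h5⟩⟩
    · exact ⟨(0, 0), fun h => absurd h hk⟩
  choose ℓ hℓ using hlim
  -- no loss under iteration
  have hNZ : ∀ N : ℕ, NZ (fun x => ∑ k ∈ s, (K - (k : ℝ) ^ 2) ^ N * W k x) S.card := by
    intro N
    induction N with
    | zero =>
      refine ⟨S, rfl, fun t ht => ?_⟩
      simp only [pow_zero, one_mul]
      rw [← hsum]
      exact hS t ht
    | succ N ih =>
      have hWc : ∀ i ∈ s, Continuous (W i) := fun i hi =>
        continuous_iff_continuousAt.2 (fun x => (g1 i hi x).continuousAt)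
      have key := hline (fun x => ∑ k ∈ s, (K - (k : ℝ) ^ 2) ^ N * W k x)
        (fun x => ∑ k ∈ s, (K - (k : ℝ) ^ 2) ^ N * W1 k x)
        (fun x => ∑ k ∈ s, (K - (k : ℝ) ^ 2) ^ N * (((k : ℝ) ^ 2 - V x) * W k x)) V K
        (∑ k ∈ s, (K - (k : ℝ) ^ 2) ^ N * (ℓ k).1) (∑ k ∈ s, (K - (k : ℝ) ^ 2) ^ N * (ℓ k).2)
        (fun x => HasDerivAt.fun_sum fun i hi => (g1 i hi x).const_mul _)
        (fun x => HasDerivAt.fun_sum fun i hi => (g2 i hi x).const_mul _)
        (continuous_finsetSum _ fun i hi => continuous_const.mul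
          ((continuous_const.sub hV).mul (hWc i hi))) hV hK0 hVK hVtop hVbot
        (tendsto_finsetSum _ fun i hi => (hℓ i hi).1.const_mul _)
        (tendsto_finsetSum _ fun i hi => (hℓ i hi).2.1.const_mul _)
        (by
          have : Tendsto (fun x => ∑ k ∈ s, (K - (k : ℝ) ^ 2) ^ N *
              (((k : ℝ) ^ 2 - V x) * W k x)) atTop
              (𝓝 (∑ k ∈ s, (K - (k : ℝ) ^ 2) ^ N * (((k : ℝ) ^ 2 - 0) * (ℓ k).1))) :=
            tendsto_finsetSum _ fun i hi =>
              ((tendsto_const_nhds.sub hVtop).mul (hℓ i hi).1).const_mul _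
          have h0 : ∑ k ∈ s, (K - (k : ℝ) ^ 2) ^ N * (((k : ℝ) ^ 2 - 0) * (ℓ k).1) = 0 := by
            apply Finset.sum_eq_zero
            intro k hk
            by_cases hk0 : k = 0
            · simp [hk0]
            · rw [((hℓ k hk).2.2 hk0).1]
              ring
          rwa [h0] at this)
        (by
          have : Tendsto (fun x => ∑ k ∈ s, (K - (k : ℝ) ^ 2) ^ N *
              (((k : ℝ) ^ 2 - V x) * W k x)) atBot
              (𝓝 (∑ k ∈ s, (K - (k : ℝ) ^ 2) ^ N * (((k : ℝ) ^ 2 - 0) * (ℓ k).2))) :=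
            tendsto_finsetSum _ fun i hi =>
              ((tendsto_const_nhds.sub hVbot).mul (hℓ i hi).2.1).const_mul _
          have h0 : ∑ k ∈ s, (K - (k : ℝ) ^ 2) ^ N * (((k : ℝ) ^ 2 - 0) * (ℓ k).2) = 0 := by
            apply Finset.sum_eq_zero
            intro k hk
            by_cases hk0 : k = 0
            · simp [hk0]
            · rw [((hℓ k hk).2.2 hk0).2]
              ring
          rwa [h0] at this)
        S.card ih
      have heq : (fun x => (K - V x) * (∑ i ∈ s, (K - (i : ℝ) ^ 2) ^ N * W i x)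
          - ∑ i ∈ s, (K - (i : ℝ) ^ 2) ^ N * (((i : ℝ) ^ 2 - V x) * W i x))
          = fun x => ∑ i ∈ s, (K - (i : ℝ) ^ 2) ^ (N + 1) * W i x := by
        funext x
        rw [Finset.mul_sum, ← Finset.sum_sub_distrib]
        apply Finset.sum_congr rfl
        intro i _
        ring
      rw [heq] at key
      exact key
  -- radius
  set R : ℝ := (Real.log B + 1) / 2 with hR
  have hlogB : 0 ≤ Real.log B := Real.log_nonneg hB
  have hR0 : 0 ≤ R := by
    simp only [hR]
    linarith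
  have hBR : B * Real.exp (-2 * R) < 1 := by
    have e1 : -2 * R = -Real.log B + (-1) := by simp only [hR]; ring
    rw [e1, Real.exp_add, Real.exp_neg, Real.exp_log hB0]
    rw [← mul_assoc, mul_inv_cancel₀ hB0.ne', one_mul]
    rw [Real.exp_lt_one_iff]
    norm_num
  have hR1 : R ≤ √B - 1 / 2 := by
    have e1 : Real.log B = 2 * Real.log √B := by
      rw [← Real.log_rpow (by positivity)]
      congr 1
      rw [Real.rpow_two, hsB2]
    have e2 := Real.log_le_sub_one_of_pos (show 0 < √B by positivity)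
    simp only [hR]
    linarith
  set J : ℕ := ⌈R⌉₊ with hJ
  have hJR : R ≤ J := Nat.le_ceil R
  have hJR1 : (J : ℝ) ≤ √B + 1 / 2 := by
    have := (Nat.ceil_lt_add_one hR0).le
    simp only [hJ]
    linarith
  -- minimal mode
  obtain ⟨i0, hi0, hmin⟩ := s.exists_min_image id hsne
  have hmin' : ∀ k ∈ s, k ≠ i0 → ((i0 : ℕ) : ℝ) ^ 2 < ((k : ℕ) : ℝ) ^ 2 := by
    intro k hk hne2
    have e1 : i0 ≤ k := hmin k hk
    have e2 : i0 < k := lt_of_le_of_ne e1 (Ne.symm hne2)
    have e3 : (i0 : ℝ) < k := by exact_mod_cast e2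
    exact pow_lt_pow_left₀ e3 (by positivity) two_ne_zero
  -- bounds for derivatives
  have hbd : ∃ M' : ℝ, ∀ k ∈ s, ∀ x, |W k x| ≤ M' ∧ |W1 k x| ≤ M' := by
    have e1 : ∀ k : ℕ, ∃ M1 : ℝ, 0 ≤ M1 ∧ (k ∈ s → ∀ x, |W k x| ≤ M1 ∧ |W1 k x| ≤ M1) := by
      intro k
      by_cases hk : k ∈ s
      · obtain ⟨M1, hM1⟩ := (hA k hk).2.1
        refine ⟨max |M| M1, le_trans (abs_nonneg M) (le_max_left _ _), fun _ x =>
          ⟨((hM k (hss k hk) x).trans (le_abs_self M)).trans (le_max_left _ _),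
            (hM1 x).trans (le_max_right _ _)⟩⟩
      · exact ⟨0, le_rfl, fun h => absurd h hk⟩
    choose M1 hM0 hM1 using e1
    refine ⟨∑ i ∈ s, M1 i, fun i hi x => ?_⟩
    have e2 : M1 i ≤ ∑ i ∈ s, M1 i :=
      Finset.single_le_sum (f := M1) (fun i _ => hM0 i) hi
    exact ⟨(hM1 i hi x).1.trans e2, (hM1 i hi x).2.trans e2⟩
  obtain ⟨M', hM'⟩ := hbd
  -- positive lower bound on the compact set
  have hi0ne : ∃ x, W i0 x ≠ 0 := (Finset.mem_filter.1 hi0).2
  have hpos : ∀ x, 0 < W i0 x ^ 2 + W1 i0 x ^ 2 := by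
    intro x
    by_contra hc
    push Not at hc
    have e1 : W i0 x = 0 := by
      have : W i0 x ^ 2 = 0 := le_antisymm (by nlinarith [sq_nonneg (W1 i0 x)]) (sq_nonneg _)
      exact pow_eq_zero_iff (two_ne_zero) |>.1 this
    have e2 : W1 i0 x = 0 := by
      have : W1 i0 x ^ 2 = 0 := le_antisymm (by nlinarith [sq_nonneg (W i0 x)]) (sq_nonneg _)
      exact pow_eq_zero_iff (two_ne_zero) |>.1 this
    obtain ⟨y, hy⟩ := hi0ne
    exact hy (nodouble (A := fun x => ((i0 : ℕ) : ℝ) ^ 2 - V x) (continuous_const.sub hV)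
      (g1 i0 hi0) (g2 i0 hi0) e1 e2 y)
  have hcW : Continuous (fun x => W i0 x ^ 2 + W1 i0 x ^ 2) := by
    have e1 : Continuous (W i0) :=
      continuous_iff_continuousAt.2 (fun x => (g1 i0 hi0 x).continuousAt)
    have e2 : Continuous (W1 i0) :=
      continuous_iff_continuousAt.2 (fun x => (g2 i0 hi0 x).continuousAt)
    exact (e1.pow 2).add (e2.pow 2)
  obtain ⟨xm, hxm, hxmin⟩ := isCompact_Icc.exists_isMinOn (s := Icc (-(J : ℝ)) J)
    ⟨0, by simp⟩ hcW.continuousOn
  set c2 := W i0 xm ^ 2 + W1 i0 xm ^ 2 with hc2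
  have hc2pos : 0 < c2 := hpos xm
  have hc2le : ∀ x ∈ Icc (-(J : ℝ)) J, √c2 ^ 2 ≤ W i0 x ^ 2 + W1 i0 x ^ 2 := by
    intro x hx
    rw [Real.sq_sqrt hc2pos.le]
    exact hxmin hx
  -- strips
  set κ : ℕ → ℝ := fun j => √B * Real.exp (-(j : ℝ)) with hκ
  have hκ0 : ∀ j, 0 < κ j := fun j => by positivity
  have hκ2 : ∀ j, κ j ^ 2 = B * Real.exp (-2 * (j : ℝ)) := by
    intro j
    simp only [hκ]
    rw [mul_pow, hsB2, ← Real.exp_nat_mul]
    congr 2
    push_cast
    ring
  have hN : ∀ j : ℕ, ∃ N0 : ℕ, ∀ N ≥ N0, ∀ z₁ z₂, z₁ < z₂ → Icc z₁ z₂ ⊆ Icc (-(J : ℝ)) J →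
      (∑ i ∈ s, (K - (i : ℝ) ^ 2) ^ N * W i z₁ = 0) →
      (∑ i ∈ s, (K - (i : ℝ) ^ 2) ^ N * W i z₂ = 0) →
      (∀ x ∈ Icc z₁ z₂, V x - (i0 : ℝ) ^ 2 ≤ κ j ^ 2) → Real.pi / (2 * κ j) < z₂ - z₁ := by
    intro j
    exact limgap s (fun k => (k : ℝ) ^ 2) W W1 V g1 g2 (Icc (-(J : ℝ)) J) M' (√c2)
      (fun k hk x _ => hM' k hk x) i0 hi0 hmin' (Real.sqrt_pos.2 hc2pos) hc2le K hmK (hκ0 j)
      (by linarith [hκ0 j])
  choose N0 hN0 using hN
  set N := ∑ j ∈ Finset.range J, N0 j with hNdef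
  have hNj : ∀ j < J, N0 j ≤ N := fun j hj =>
    Finset.single_le_sum (f := N0) (fun i _ => Nat.zero_le _) (Finset.mem_range.2 hj)
  obtain ⟨T, hTcard, hT⟩ := hNZ N
  -- decompose T
  set Tp := T.filter (fun t => (J : ℝ) ≤ t) with hTp
  set Tm := T.filter (fun t => t ≤ -(J : ℝ)) with hTm
  set Sp : ℕ → Finset ℝ := fun j => T.filter (fun t => (j : ℝ) ≤ t ∧ t ≤ j + 1) with hSp
  set Sm : ℕ → Finset ℝ := fun j => T.filter (fun t => -((j : ℝ) + 1) ≤ t ∧ t ≤ -(j : ℝ)) with hSm
  have hcover : T ⊆ Tp ∪ Tm ∪ ((Finset.range J).biUnion Sp ∪ (Finset.range J).biUnion Sm) := by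
    intro t ht
    by_cases h3 : (J : ℝ) ≤ t
    · exact Finset.mem_union_left _ (Finset.mem_union_left _ (Finset.mem_filter.2 ⟨ht, h3⟩))
    by_cases h4 : t ≤ -(J : ℝ)
    · exact Finset.mem_union_left _ (Finset.mem_union_right _ (Finset.mem_filter.2 ⟨ht, h4⟩))
    push Not at h3 h4
    apply Finset.mem_union_right
    rcases le_total 0 t with h5 | h5
    · apply Finset.mem_union_left
      rw [Finset.mem_biUnion]
      refine ⟨⌊t⌋₊, ?_, Finset.mem_filter.2 ⟨ht, Nat.floor_le h5, (Nat.lt_floor_add_one t).le⟩⟩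
      rw [Finset.mem_range]
      exact (Nat.floor_lt h5).2 h3
    · apply Finset.mem_union_right
      rw [Finset.mem_biUnion]
      have h6 : 0 ≤ -t := by linarith
      refine ⟨⌊-t⌋₊, ?_, Finset.mem_filter.2 ⟨ht, ?_, ?_⟩⟩
      · rw [Finset.mem_range]
        exact (Nat.floor_lt h6).2 (by linarith)
      · have := (Nat.lt_floor_add_one (-t)).le
        linarith
      · have := Nat.floor_le h6
        linarith
  have hcardle : (T.card : ℝ) ≤ Tp.card + Tm.card +
      (∑ j ∈ Finset.range J, ((Sp j).card : ℝ) + ∑ j ∈ Finset.range J, ((Sm j).card : ℝ)) := by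
    have e1 := Finset.card_le_card hcover
    have e2 := Finset.card_union_le (Tp ∪ Tm)
      ((Finset.range J).biUnion Sp ∪ (Finset.range J).biUnion Sm)
    have e3 := Finset.card_union_le Tp Tm
    have e4 := Finset.card_union_le ((Finset.range J).biUnion Sp) ((Finset.range J).biUnion Sm)
    have e5 := Finset.card_biUnion_le (s := Finset.range J) (t := Sp)
    have e6 := Finset.card_biUnion_le (s := Finset.range J) (t := Sm)
    have : T.card ≤ Tp.card + Tm.card +
        (∑ j ∈ Finset.range J, (Sp j).card + ∑ j ∈ Finset.range J, (Sm j).card) := by omega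
    exact_mod_cast this
  -- tails
  have hcoef : ∀ k ∈ s, (K - (k : ℝ) ^ 2) ^ N ≠ 0 := fun k hk =>
    pow_ne_zero _ (by linarith [hmK k hk])
  have hscard : s.card ≤ n + 1 := by
    have := Finset.card_le_card (Finset.filter_subset (fun k => ∃ x, W k x ≠ 0)
      (Finset.range (n + 1)))
    rwa [Finset.card_range] at this
  have hVR : ∀ x, R ≤ |x| → V x < 1 := by
    intro x hx
    refine lt_of_le_of_lt (hVB x).2 (lt_of_le_of_lt ?_ hBR)
    apply mul_le_mul_of_nonneg_left _ hB0.le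
    apply Real.exp_le_exp.2
    linarith
  have hTpc : (Tp.card : ℝ) ≤ 2 * n := by
    have e1 := htail V W W1 (Ici (J : ℝ)) s (fun k => (K - (k : ℝ) ^ 2) ^ N) hV ordConnected_Ici
      (fun x hx => hVR x (by
        have h3 : (J : ℝ) ≤ x := hx
        have := le_abs_self x
        linarith)) g1 g2
      (fun k hk x hx => (hA k hk).2.2.1 R hR0 hBR (Finset.mem_filter.1 hk).2 x (by
        have h3 : (J : ℝ) ≤ x := hx
        have := le_abs_self x
        linarith)) hcoef hsne Tp (fun t ht => ⟨(Finset.mem_filter.1 ht).2,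
          hT t (Finset.mem_filter.1 ht).1⟩)
    have : Tp.card ≤ 2 * n := by omega
    exact_mod_cast this
  have hTmc : (Tm.card : ℝ) ≤ 2 * n := by
    have e1 := htail V W W1 (Iic (-(J : ℝ))) s (fun k => (K - (k : ℝ) ^ 2) ^ N) hV
      ordConnected_Iic
      (fun x hx => hVR x (by
        have h3 : x ≤ -(J : ℝ) := hx
        have := neg_le_abs x
        linarith)) g1 g2
      (fun k hk x hx => (hA k hk).2.2.1 R hR0 hBR (Finset.mem_filter.1 hk).2 x (by
        have h3 : x ≤ -(J : ℝ) := hx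
        have := neg_le_abs x
        linarith)) hcoef hsne Tm (fun t ht => ⟨(Finset.mem_filter.1 ht).2,
          hT t (Finset.mem_filter.1 ht).1⟩)
    have : Tm.card ≤ 2 * n := by omega
    exact_mod_cast this
  -- strips
  have hπ := Real.pi_pos
  have hstripP : ∀ j ∈ Finset.range J, ((Sp j).card : ℝ) ≤ 1 + κ j := by
    intro j hj
    have hjJ : j < J := Finset.mem_range.1 hj
    have hjJ' : (j : ℝ) + 1 ≤ J := by exact_mod_cast hjJ
    have e1 := gap_count (S := Sp j) (a := j) (b := j + 1) (δ := Real.pi / (2 * κ j))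
      (by have := hκ0 j; positivity) (by linarith) (fun t ht => (Finset.mem_filter.1 ht).2)
      (fun z₁ hz₁ z₂ hz₂ hlt => by
        have a1 := Finset.mem_filter.1 hz₁
        have a2 := Finset.mem_filter.1 hz₂
        refine hN0 j N (hNj j hjJ) z₁ z₂ hlt ?_ (hT _ a1.1) (hT _ a2.1) ?_
        · intro x hx
          have hj0 : (0 : ℝ) ≤ j := by positivity
          exact ⟨by linarith [hx.1, a1.2.1, (show (0 : ℝ) ≤ J by positivity)],
            by linarith [hx.2, a2.2.2]⟩
        · intro x hx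
          have e3 := (hVB x).2
          have hj0 : (0 : ℝ) ≤ j := by positivity
          have e4 : (j : ℝ) ≤ |x| := by
            have := le_abs_self x
            linarith [hx.1, a1.2.1]
          have e5 : B * Real.exp (-2 * |x|) ≤ κ j ^ 2 := by
            rw [hκ2]
            apply mul_le_mul_of_nonneg_left _ hB0.le
            apply Real.exp_le_exp.2
            linarith
          have e6 : (0 : ℝ) ≤ (i0 : ℝ) ^ 2 := by positivity
          linarith)
    refine e1.trans ?_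
    have e7 : ((j : ℝ) + 1 - j) / (Real.pi / (2 * κ j)) = 2 / Real.pi * κ j := by
      have := hκ0 j
      field_simp
      ring
    rw [e7]
    have e8 : 2 / Real.pi ≤ 1 := by
      rw [div_le_one hπ]
      linarith [Real.pi_gt_three]
    have := hκ0 j
    nlinarith
  have hstripM : ∀ j ∈ Finset.range J, ((Sm j).card : ℝ) ≤ 1 + κ j := by
    intro j hj
    have hjJ : j < J := Finset.mem_range.1 hj
    have hjJ' : (j : ℝ) + 1 ≤ J := by exact_mod_cast hjJ
    have e1 := gap_count (S := Sm j) (a := -((j : ℝ) + 1)) (b := -(j : ℝ))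
      (δ := Real.pi / (2 * κ j))
      (by have := hκ0 j; positivity) (by linarith) (fun t ht => (Finset.mem_filter.1 ht).2)
      (fun z₁ hz₁ z₂ hz₂ hlt => by
        have a1 := Finset.mem_filter.1 hz₁
        have a2 := Finset.mem_filter.1 hz₂
        refine hN0 j N (hNj j hjJ) z₁ z₂ hlt ?_ (hT _ a1.1) (hT _ a2.1) ?_
        · intro x hx
          have hj0 : (0 : ℝ) ≤ j := by positivity
          exact ⟨by linarith [hx.1, a1.2.1],
            by linarith [hx.2, a2.2.2, (show (0 : ℝ) ≤ J by positivity)]⟩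
        · intro x hx
          have e3 := (hVB x).2
          have hj0 : (0 : ℝ) ≤ j := by positivity
          have e4 : (j : ℝ) ≤ |x| := by
            have := neg_le_abs x
            linarith [hx.2, a2.2.2]
          have e5 : B * Real.exp (-2 * |x|) ≤ κ j ^ 2 := by
            rw [hκ2]
            apply mul_le_mul_of_nonneg_left _ hB0.le
            apply Real.exp_le_exp.2
            linarith
          have e6 : (0 : ℝ) ≤ (i0 : ℝ) ^ 2 := by positivity
          linarith)
    refine e1.trans ?_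
    have e7 : (-(j : ℝ) - -((j : ℝ) + 1)) / (Real.pi / (2 * κ j)) = 2 / Real.pi * κ j := by
      have := hκ0 j
      field_simp
      ring
    rw [e7]
    have e8 : 2 / Real.pi ≤ 1 := by
      rw [div_le_one hπ]
      linarith [Real.pi_gt_three]
    have := hκ0 j
    nlinarith
  have hexp : ∑ j ∈ Finset.range J, κ j ≤ 2 * √B := by
    have e1 : ∑ j ∈ Finset.range J, κ j = √B * ∑ j ∈ Finset.range J, (Real.exp (-1)) ^ j := by
      rw [Finset.mul_sum]
      apply Finset.sum_congr rfl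
      intro j _
      simp only [hκ]
      rw [← Real.exp_nat_mul]
      congr 2
      ring
    rw [e1]
    have e2 : Real.exp (-1) ≤ 1 / 2 := by
      rw [Real.exp_neg, inv_eq_one_div]
      apply one_div_le_one_div_of_le (by norm_num)
      have := Real.add_one_le_exp (1 : ℝ)
      linarith
    have e3 : ∑ j ∈ Finset.range J, (Real.exp (-1)) ^ j ≤ ∑ j ∈ Finset.range J, (1 / 2 : ℝ) ^ j :=
      Finset.sum_le_sum fun j _ => pow_le_pow_left₀ (Real.exp_pos _).le e2 j
    have e4 : ∑ j ∈ Finset.range J, (1 / 2 : ℝ) ^ j ≤ 2 := by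
      rw [geom_sum_eq (by norm_num)]
      have : 0 ≤ (1 / 2 : ℝ) ^ J := by positivity
      rw [div_le_iff_of_neg (by norm_num)]
      linarith
    have e5 : ∑ j ∈ Finset.range J, (Real.exp (-1)) ^ j ≤ 2 := e3.trans e4
    have := mul_le_mul_of_nonneg_left e5 (Real.sqrt_nonneg B)
    linarith
  have hSpsum : ∑ j ∈ Finset.range J, ((Sp j).card : ℝ) ≤ J + 2 * √B := by
    calc ∑ j ∈ Finset.range J, ((Sp j).card : ℝ) ≤ ∑ j ∈ Finset.range J, (1 + κ j) :=
          Finset.sum_le_sum hstripP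
      _ = J + ∑ j ∈ Finset.range J, κ j := by
          rw [Finset.sum_add_distrib]
          simp
      _ ≤ _ := by linarith
  have hSmsum : ∑ j ∈ Finset.range J, ((Sm j).card : ℝ) ≤ J + 2 * √B := by
    calc ∑ j ∈ Finset.range J, ((Sm j).card : ℝ) ≤ ∑ j ∈ Finset.range J, (1 + κ j) :=
          Finset.sum_le_sum hstripM
      _ = J + ∑ j ∈ Finset.range J, κ j := by
          rw [Finset.sum_add_distrib]
          simp
      _ ≤ _ := by linarith
  rw [← hTcard]
  have : (T.card : ℝ) ≤ 4 * n + 2 * J + 4 * √B := by linarith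
  linarith

end Pool.Agent.Y315.NL
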